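import Pool.Agent.CutJ.Lists
import Pool.Agent.CutLim.N6
import Pool.Agent.CutLim.Dim9

set_option autoImplicit false

open TopologicalSpace MeasureTheory Filter Topology ENNReal

namespace CutJ.Final

/-- Nearest neighbours of the honeycomb lattice in brick wall coordinates: the sites are `ℤ × ℤ`,
`(x, y)` is joined to `(x + 1, y)`, and to `(x, y + 1)` if `x + y` is even. -/
def Edge (p q : ℤ × ℤ) : Prop :=
  q = (p.1 + 1, p.2) ∨ p = (q.1 + 1, q.2) ∨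
    (q = (p.1, p.2 + 1) ∧ Even (p.1 + p.2)) ∨ (p = (q.1, q.2 + 1) ∧ Even (q.1 + q.2))

/-- `L` lists the sites of a bridge of `j` rows: a self-avoiding walk in the rows `1, ..., j` that
starts at `(0, 1)` and ends at a site `(b, j)` of the row `j` that is joined to `(b, j + 1)`. -/
def Bridge (j : ℕ) (L : List (ℤ × ℤ)) : Prop :=
  ∃ b : ℤ, L.IsChain Edge ∧ L.Nodup ∧ (∀ p ∈ L, 1 ≤ p.2 ∧ p.2 ≤ j) ∧ L.head? = some (0, 1) ∧
    L.getLast? = some (b, (j : ℤ)) ∧ Even (b + j)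

/-- The row `s` is a cut row: first `L` visits the rows up to `s` only, then the rows above `s` only. -/
def CutRow (L : List (ℤ × ℤ)) (s : ℕ) : Prop :=
  ∃ L₁ L₂ : List (ℤ × ℤ), L = L₁ ++ L₂ ∧ (∀ p ∈ L₁, p.2 ≤ s) ∧ ∀ p ∈ L₂, (s : ℤ) < p.2

/-- The pieces of the half plane walk: `L` is a bridge of `j ≥ T` rows and none of the rows `s`, `T ≤ s < j`, is a
cut row. -/
def Stop (T : ℕ) (L : List (ℤ × ℤ)) : Prop :=
  ∃ j : ℕ, T ≤ j ∧ Bridge j L ∧ ∀ s, T ≤ s → s < j → ¬ CutRow L s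

/-- The critical weight `μ ^ (-n)` of a walk with `n` sites, `μ = √(2 + √2)`. -/
noncomputable def wt (L : List (ℤ × ℤ)) : ℝ≥0∞ :=
  ENNReal.ofReal ((Real.sqrt (2 + Real.sqrt 2))⁻¹ ^ L.length)

/-- The total weight of the bridges of `T` rows. -/
noncomputable def B (T : ℕ) : ℝ≥0∞ := ∑' L : {L : List (ℤ × ℤ) // Bridge T L}, wt L.1

/-- The law of `F L`, `L` the critical half plane walk up to its first cut row at or above the row `T`. -/
noncomputable def half {α : Type} [MeasurableSpace α] (T : ℕ) (F : List (ℤ × ℤ) → α) : Measure α :=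
  Measure.sum fun L : {L : List (ℤ × ℤ) // Stop T L} => wt L.1 • Measure.dirac (F L.1)

/-- The law of `F L`, `L` the critical bridge of `T` rows. -/
noncomputable def bridge {α : Type} [MeasurableSpace α] (T : ℕ) (F : List (ℤ × ℤ) → α) : Measure α :=
  Measure.sum fun L : {L : List (ℤ × ℤ) // Bridge T L} => (wt L.1 / B T) • Measure.dirac (F L.1)

/-- The laws `μ T` converge weakly to `ν` as `T → ∞`. -/
def LawTo {α : Type} [TopologicalSpace α] [MeasurableSpace α] (μ : ℕ → Measure α) (ν : Measure α) : Prop :=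
  ∀ f : BoundedContinuousFunction α ℝ, Tendsto (fun T => ∫ x, f x ∂(μ T)) atTop (𝓝 (∫ x, f x ∂ν))

/-- The nonempty compact sets of real numbers, with the Hausdorff distance and its Borel sigma-algebra. -/
abbrev NC := NonemptyCompacts ℝ

/-- The rescaled cut rows up to `T`: the numbers `s / T`, `s ≤ T`, `s = 0` or `s` a cut row of `L`. -/
noncomputable def cuts (T : ℕ) (L : List (ℤ × ℤ)) : NC :=
  ⟨⟨{x : ℝ | ∃ s : ℕ, s ≤ T ∧ (s = 0 ∨ CutRow L s) ∧ x = (s : ℝ) / T}, by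
    refine Set.Finite.isCompact (((Set.finite_le_nat T).image (fun c : ℕ => (c : ℝ) / T)).subset ?_)
    rintro x ⟨c, h1, h2, rfl⟩
    exact ⟨c, h1, rfl⟩⟩, ⟨0, 0, Nat.zero_le _, Or.inl rfl, by simp⟩⟩

/-- The row of the last site. -/
def last (L : List (ℤ × ℤ)) : ℤ := (L.getLast?.getD (0, 0)).2

/-- The number of the cut rows `1, ..., n`. -/
noncomputable def num (n : ℕ) (L : List (ℤ × ℤ)) : ℕ := {s : ℕ | 1 ≤ s ∧ s ≤ n ∧ CutRow L s}.ncard

/-- `l` lists gaps `(x, y]` in `(0, r]` from right to left: `0 < ... < y' ≤ x < y ≤ r` for neighbours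
`(x, y), (x', y')` of the list. -/
def Gaps : List (ℝ × ℝ) → ℝ → Prop
  | [], r => 0 < r
  | (x, y) :: l, r => x < y ∧ y ≤ r ∧ Gaps l x

/-- `K` has no point in the gaps `(x, y]` of the list. -/
def Avoid (l : List (ℝ × ℝ)) (K : NC) : Prop := ∀ s ∈ K, ∀ p ∈ l, ¬ (p.1 < s ∧ s ≤ p.2)

/-- The relative density at `s` of the points of the range of the stable subordinator of index `3 / 4`, on the event that
the gaps of the list are avoided. -/
noncomputable def dens : List (ℝ × ℝ) → ℝ → ℝ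
  | [], s => s ^ (-(1 / 4) : ℝ)
  | (x, y) :: l, s => if s ≤ x then dens l s else if s ≤ y then 0 else
      1 / (Real.pi * Real.sqrt 2) * ∫ r in (0 : ℝ)..x, dens l r * (((s - y) / (y - r)) ^ (3 / 4 : ℝ) / (s - r))

/-- The probability that the range of the stable subordinator of index `3 / 4` avoids the gaps of the list. -/
noncomputable def avoid : List (ℝ × ℝ) → ℝ
  | [] => 1
  | (x, y) :: l => 1 / (Real.pi * Real.sqrt 2) * ∫ r in (0 : ℝ)..x, dens l r * (y - r) ^ (-(3 / 4) : ℝ)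

lemma gaps_iff : ∀ (l : List (ℝ × ℝ)) (r : ℝ), Gaps l r ↔ CutLim.Adm l r
  | [], _ => Iff.rfl
  | (x, _) :: l, _ => and_congr_right fun _ => and_congr_right fun _ => gaps_iff l x

lemma avoid_set (l : List (ℝ × ℝ)) : {K : NC | Avoid l K} = CutLim.AvS (CutLim.gaps l) := by
  ext K
  constructor
  · rintro h s hs ⟨p, hp, h1⟩
    exact h s hs p hp h1
  · intro h s hs p hp h1
    exact h s hs ⟨p, hp, h1⟩

lemma dens_eq : ∀ (l : List (ℝ × ℝ)) (s : ℝ), dens l s = CutJ.dens l s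
  | [], _ => rfl
  | (x, y) :: l, s => by
    have ih : dens l = CutJ.dens l := funext (dens_eq l)
    show (if s ≤ x then dens l s else if s ≤ y then 0 else
      1 / (Real.pi * Real.sqrt 2) * ∫ r in (0 : ℝ)..x, dens l r * (((s - y) / (y - r)) ^ (3 / 4 : ℝ) / (s - r))) = _
    rw [ih]
    rfl

lemma avoid_eq {l : List (ℝ × ℝ)} {r : ℝ} (hl : Gaps l r) : avoid l = CutLim.AH l := by
  rw [← CutJ.avH_eq ⟨r, CutLim.Ad_of_Adm ((gaps_iff l r).1 hl)⟩]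
  cases l with
  | nil => rfl
  | cons p l =>
    have ih : dens l = CutJ.dens l := funext (dens_eq l)
    show 1 / (Real.pi * Real.sqrt 2) * (∫ r in (0 : ℝ)..p.1, dens l r * (p.2 - r) ^ (-(3 / 4) : ℝ)) = _
    rw [ih]
    rfl

lemma dens_AB {l : List (ℝ × ℝ)} {r : ℝ} (hl : Gaps l r) : dens l 1 = CutLim.AB l := by
  rw [CutJ.AB_eq ⟨r, CutLim.Ad_of_Adm ((gaps_iff l r).1 hl)⟩, dens_eq]

lemma B_eq {T : ℕ} (hT : 1 ≤ T) : B T = ENNReal.ofReal (HexObs.uu T) := by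
  rw [← CutLim.BT_uu, ← HexObs.gf_Brd]
  have h := (HexObs.CC.bridgeEquiv hT).tsum_eq
    (fun L : {L : List (ℤ × ℤ) // ∃ b, HexObs.CC.Crossing T 0 b L} => HexObs.CC.wt L.1)
  show (∑' L : {L : List (ℤ × ℤ) // ∃ b, HexObs.CC.Crossing T 0 b L}, HexObs.CC.wt L.1) = _
  rw [← h]
  unfold HexObs.gf
  refine tsum_congr fun t => ?_
  rw [HexObs.CC.bridgeEquiv_coe, HexObs.CC.wt_toL]

lemma mass_one {T : ℕ} (hT : 1 ≤ T) : ∑' L : {L : List (ℤ × ℤ) // Stop T L}, wt L.1 = 1 := by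
  have h := (HexObs.CC.wordEquiv hT).tsum_eq (fun L : {L : List (ℤ × ℤ) // HexObs.CC.Stop T L} => HexObs.CC.wt L.1)
  show (∑' L : {L : List (ℤ × ℤ) // HexObs.CC.Stop T L}, HexObs.CC.wt L.1) = 1
  rw [← h, ← HexObs.Touch.gf_FCW T]
  unfold HexObs.gf
  refine tsum_congr fun t => ?_
  rw [HexObs.CC.wordEquiv_coe, HexObs.CC.wt_toL]

lemma half_pair {T : ℕ} (hT : 1 ≤ T) :
    half T (fun L => (cuts T L, (last L : ℝ) / T)) = (CutJ.pl T : Measure (NC × ℝ)) :=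
  HexObs.CC.pl_lists hT

lemma bridge_cuts {T : ℕ} (hT : 1 ≤ T) : bridge T (cuts T) = CutLim.lawB T := HexObs.CC.lawB_lists hT

lemma half_num (T : ℕ) : half T (fun L => (num T L : ℝ) / (T : ℝ) ^ (3 / 4 : ℝ)) = HexObs.CC.numLawH T := rfl

lemma bridge_num {T : ℕ} (hT : 1 ≤ T) :
    bridge T (fun L => (num (T - 1) L : ℝ) / (T : ℝ) ^ (3 / 4 : ℝ)) = HexObs.CC.numLawB T := by
  have h : ∀ L, num (T - 1) L = HexObs.CC.numB T L := by
    intro L
    unfold num HexObs.CC.numB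
    congr 1
    ext s
    constructor
    · rintro ⟨h1, h2, h3⟩
      exact ⟨h1, by omega, h3⟩
    · rintro ⟨h1, h2, h3⟩
      exact ⟨h1, by omega, h3⟩
  unfold bridge
  simp_rw [h]
  rfl

lemma lawTo_of {α : Type} [TopologicalSpace α] [MeasurableSpace α] [OpensMeasurableSpace α] {μ : ℕ → Measure α}
    {P : ℕ → ProbabilityMeasure α} {ν : ProbabilityMeasure α} (h : Tendsto P atTop (𝓝 ν))
    (hμ : ∀ᶠ T in atTop, μ T = (P T : Measure α)) : LawTo μ (ν : Measure α) := by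
  intro f
  refine ((ProbabilityMeasure.tendsto_iff_forall_integral_tendsto.1 h) f).congr' ?_
  filter_upwards [hμ] with T hT
  rw [hT]

/-- THE SCALING LIMIT OF THE CUT ROWS, given the sharp decay of the bridges -/
theorem result_of {b : ℝ} (hb : 0 < b)
    (hu : Tendsto (fun n : ℕ => (n : ℝ) ^ (1 / 4 : ℝ) * HexObs.uu n) atTop (𝓝 b)) :
    Tendsto (fun T : ℕ => (T : ℝ) ^ (1 / 4 : ℝ) * (B T).toReal) atTop (𝓝 b) ∧
    (∀ T, 1 ≤ T → ∑' L : {L : List (ℤ × ℤ) // Stop T L}, wt L.1 = 1) ∧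
    (∃ ν : Measure (NC × ℝ), IsProbabilityMeasure ν ∧
      LawTo (fun T => half T fun L => (cuts T L, (last L : ℝ) / T)) ν ∧
      (∀ᵐ p : NC × ℝ ∂ν, (p.1 : Set ℝ) ⊆ Set.Icc 0 1 ∧ 0 ∈ p.1 ∧ 1 < p.2 ∧
        ∀ r : ℝ, 0 < r → dimH ((p.1 : Set ℝ) ∩ Set.Icc 0 r) = ((3 / 4 : NNReal) : ℝ≥0∞)) ∧
      (∀ l, Gaps l 1 → ν {p | Avoid l p.1} = ENNReal.ofReal (avoid l)) ∧
      (∀ l y, Gaps l 1 → 1 < y → ν {p | Avoid l p.1 ∧ y < p.2} = ENNReal.ofReal (avoid ((1, y) :: l))) ∧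
      ∀ ν' : Measure (NC × ℝ), IsProbabilityMeasure ν' →
        (∀ᵐ p : NC × ℝ ∂ν', (p.1 : Set ℝ) ⊆ Set.Icc 0 1 ∧ 0 ∈ p.1 ∧ 1 < p.2) →
        (∀ l y, Gaps l 1 → 1 < y → ν' {p | Avoid l p.1 ∧ y < p.2} = ENNReal.ofReal (avoid ((1, y) :: l))) → ν' = ν) ∧
    (∃ ν : Measure NC, IsProbabilityMeasure ν ∧ LawTo (fun T => bridge T (cuts T)) ν ∧
      (∀ᵐ K : NC ∂ν, (K : Set ℝ) ⊆ Set.Icc 0 1 ∧ 0 ∈ K ∧ 1 ∈ K ∧
        ∀ r : ℝ, 0 < r → dimH ((K : Set ℝ) ∩ Set.Icc 0 r) = ((3 / 4 : NNReal) : ℝ≥0∞)) ∧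
      (∀ l r, Gaps l r → r < 1 → ν {K | Avoid l K} = ENNReal.ofReal (dens l 1)) ∧
      ∀ ν' : Measure NC, IsProbabilityMeasure ν' → (∀ᵐ K : NC ∂ν', (K : Set ℝ) ⊆ Set.Icc 0 1 ∧ 0 ∈ K ∧ 1 ∈ K) →
        (∀ l r, Gaps l r → r < 1 → ν' {K | Avoid l K} = ENNReal.ofReal (dens l 1)) → ν' = ν) ∧
    (∃ ν : Measure ℝ, IsProbabilityMeasure ν ∧
      LawTo (fun T => half T fun L => (num T L : ℝ) / (T : ℝ) ^ (3 / 4 : ℝ)) ν ∧
      ∀ t : ℝ, charFun ν t = ∑' k : ℕ, (t * Complex.I) ^ k *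
        (((b * Real.Gamma (3 / 4)) ^ k / Real.Gamma (k * (3 / 4) + 1) : ℝ) : ℂ)) ∧
    (∃ ν : Measure ℝ, IsProbabilityMeasure ν ∧
      LawTo (fun T => bridge T fun L => (num (T - 1) L : ℝ) / (T : ℝ) ^ (3 / 4 : ℝ)) ν ∧
      ∀ t : ℝ, charFun ν t = ∑' k : ℕ, (t * Complex.I) ^ k *
        (((b * Real.Gamma (3 / 4)) ^ (k + 1) / (Real.Gamma ((k + 1) * (3 / 4)) * b) : ℝ) : ℂ)) ∧
    ∀ x y : ℝ, 0 < x → x < y → avoid [(x, y)] =
      1 / (Real.pi * Real.sqrt 2) * ∫ r in (0 : ℝ)..(x / y), r ^ (-(1 / 4) : ℝ) * (1 - r) ^ (-(3 / 4) : ℝ) := by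
  obtain ⟨κ, k1, k2, k3, k4⟩ := CutLim.half_limit hb hu
  obtain ⟨π, p1, p2, p3, p4, p5⟩ := CutJ.pair hb hu k1 k3
  obtain ⟨κ', q1, q2, q3, q4⟩ := CutLim.bridge_limit hb hu
  have hev : ∀ l y, {p : NC × ℝ | Avoid l p.1 ∧ y < p.2} = CutJ.Ev (CutLim.gaps l) y := by
    intro l y
    unfold CutJ.Ev
    rw [← avoid_set]
    rfl
  refine ⟨?_, fun T hT => mass_one hT, ⟨π, inferInstance, ?_, ?_, ?_, ?_, ?_⟩, ⟨κ', inferInstance, ?_, ?_, ?_, ?_⟩,
    ?_, ?_, ?_⟩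
  · refine hu.congr' ?_
    filter_upwards [eventually_ge_atTop 1] with T hT
    rw [B_eq hT, ENNReal.toReal_ofReal (HexObs.uu_pos T).le]
  · refine lawTo_of p1 ?_
    filter_upwards [eventually_ge_atTop 1] with T hT
    exact half_pair hT
  · have hd := CutLim.dim_half hb hu k1
    rw [← p4] at hd
    have hd' := ae_of_ae_map measurable_fst.aemeasurable hd
    filter_upwards [p2, hd'] with p h1 h2
    exact ⟨h1.1.1, h1.1.2, h1.2, h2.2⟩
  · intro l hl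
    have h1 : {p : NC × ℝ | Avoid l p.1} = Prod.fst ⁻¹' (CutLim.AvS (CutLim.gaps l)) := by
      rw [← avoid_set]
      rfl
    rw [h1, ← Measure.map_apply measurable_fst (CutJ.measurable_gaps l), p4, avoid_eq hl,
      ← (k3 l ((gaps_iff l 1).1 hl)).1, ENNReal.ofReal_toReal (measure_ne_top _ _)]
  · intro l y hl hy
    rw [hev, p3 l ((gaps_iff l 1).1 hl) y hy, avoid_eq (l := (1, y) :: l) (r := y) ⟨hy, le_rfl, hl⟩]
  · intro ν' hν' h1 h2
    have h3 := p5 ⟨ν', hν'⟩ (h1.mono fun p hp => ⟨⟨hp.1, hp.2.1⟩, hp.2.2⟩) (by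
      intro l hl y hy
      show ν' (CutJ.Ev (CutLim.gaps l) y) = _
      have hl' := (gaps_iff l 1).2 hl
      rw [← hev, h2 l y hl' hy, avoid_eq (l := (1, y) :: l) (r := y) ⟨hy, le_rfl, hl'⟩])
    exact congrArg (fun m : ProbabilityMeasure (NC × ℝ) => (m : Measure (NC × ℝ))) h3
  · refine lawTo_of q1 ?_
    filter_upwards [eventually_ge_atTop 1] with T hT
    exact bridge_cuts hT
  · filter_upwards [q2, CutLim.dim_bridge hb hu q1] with K hK hd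
    exact ⟨hK.1, hK.2 (Or.inl rfl), hK.2 (Or.inr rfl), hd.2⟩
  · intro l r hl hr
    rw [avoid_set, dens_AB hl, ← (q3 l r ((gaps_iff l r).1 hl) hr).1, ENNReal.ofReal_toReal (measure_ne_top _ _)]
  · intro ν' hν' h1 h2
    have h3 := q4 ⟨ν', hν'⟩ (h1.mono fun K hK => ⟨hK.1, by
      rintro x (hx | hx)
      · rw [hx]
        exact hK.2.1
      · rw [Set.mem_singleton_iff.1 hx]
        exact hK.2.2⟩) (by
      intro l r hl hr
      show (ν' (CutLim.AvS (CutLim.gaps l))).toReal = _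
      have hl' := (gaps_iff l r).2 hl
      rw [← avoid_set, h2 l r hl' hr, dens_AB hl', ENNReal.toReal_ofReal]
      rw [← (q3 l r hl hr).1]
      exact ENNReal.toReal_nonneg)
    exact congrArg (fun m : ProbabilityMeasure NC => (m : Measure NC)) h3
  · obtain ⟨ν, h1, h2, h3⟩ := HexObs.CC.numH_limit hu
    exact ⟨ν, h1, h2, h3⟩
  · obtain ⟨ν, h1, h2, h3⟩ := HexObs.CC.numB_limit hb hu
    refine ⟨ν, h1, fun f => (h2 f).congr' ?_, h3⟩
    filter_upwards [eventually_ge_atTop 1] with T hT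
    rw [bridge_num hT]
  · intro x y hx hxy
    rw [avoid_eq (l := [(x, y)]) (r := y) ⟨hxy, le_rfl, hx⟩, CutJ.AH_one hb hu hx hxy]
    rfl

end CutJ.Final
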