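import Pool.Agent.Tight.Touch2
import Pool.Agent.CutLim.H

/-! CUTJ, J1: the joint limits of the rescaled curves and of their rescaled cut levels. -/

set_option autoImplicit false

namespace CutJ

open Filter Topology MeasureTheory TopologicalSpace HexObs CutLim

open scoped ENNReal

section generic

variable {E F : Type*} [MetricSpace E] [MeasurableSpace E] [BorelSpace E] [SecondCountableTopology E]
  [MetricSpace F] [MeasurableSpace F] [BorelSpace F] [SecondCountableTopology F]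

/-- a subsequence of the joint laws converges, the marginals are the limits of the marginals -/
theorem coupling (ρ : ℕ → ProbabilityMeasure (E × F)) {ν : ProbabilityMeasure E} {κ : ProbabilityMeasure F}
    (h1 : Tendsto (fun k => (ρ k).map measurable_fst.aemeasurable) atTop (𝓝 ν))
    (h2 : Tendsto (fun k => (ρ k).map measurable_snd.aemeasurable) atTop (𝓝 κ))
    (t1 : IsTightMeasureSet {m : Measure E | ∃ k, m = (ρ k : Measure (E × F)).map Prod.fst})
    (t2 : IsTightMeasureSet {m : Measure F | ∃ k, m = (ρ k : Measure (E × F)).map Prod.snd})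
    {S : Set (E × F)} (hS : IsClosed S) (hρ : ∀ᶠ k in atTop, (ρ k : Measure (E × F)) Sᶜ = 0) :
    ∃ π : ProbabilityMeasure (E × F), ∃ ψ : ℕ → ℕ, StrictMono ψ ∧ Tendsto (fun k => ρ (ψ k)) atTop (𝓝 π) ∧
      (π : Measure (E × F)).map Prod.fst = ν ∧ (π : Measure (E × F)).map Prod.snd = κ ∧
      ∀ᵐ p ∂(π : Measure (E × F)), p ∈ S := by
  have ht : IsTightMeasureSet {((σ : ProbabilityMeasure (E × F)) : Measure (E × F)) | σ ∈ Set.range ρ} := by
    refine IsTightMeasureSet.prodMk (t1.subset ?_) (t2.subset ?_)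
    · rintro _ ⟨_, ⟨σ, ⟨k, rfl⟩, rfl⟩, rfl⟩
      exact ⟨k, rfl⟩
    · rintro _ ⟨_, ⟨σ, ⟨k, rfl⟩, rfl⟩, rfl⟩
      exact ⟨k, rfl⟩
  have hc := isCompact_closure_of_isTightMeasureSet ht
  obtain ⟨π, -, ψ, hψ, hlim⟩ := hc.tendsto_subseq (x := ρ) (fun k => subset_closure ⟨k, rfl⟩)
  have e1 : π.map measurable_fst.aemeasurable = ν :=
    tendsto_nhds_unique (ProbabilityMeasure.tendsto_map_of_tendsto_of_continuous _ π hlim continuous_fst)
      (h1.comp hψ.tendsto_atTop)
  have e2 : π.map measurable_snd.aemeasurable = κ :=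
    tendsto_nhds_unique (ProbabilityMeasure.tendsto_map_of_tendsto_of_continuous _ π hlim continuous_snd)
      (h2.comp hψ.tendsto_atTop)
  refine ⟨π, ψ, hψ, hlim, ?_, ?_, ?_⟩
  · exact congrArg (fun m : ProbabilityMeasure E => (m : Measure E)) e1
  · exact congrArg (fun m : ProbabilityMeasure F => (m : Measure F)) e2
  · rw [ae_iff]
    have h3 : (π : Measure (E × F)) Sᶜ ≤ 0 := by
      refine (ProbabilityMeasure.le_liminf_measure_open_of_tendsto hlim hS.isOpen_compl).trans ?_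
      refine liminf_le_of_frequently_le' (Eventually.frequently ?_)
      filter_upwards [hψ.tendsto_atTop.eventually hρ] with k hk
      exact hk.le
    exact le_antisymm h3 zero_le

end generic

/-- points of convergent compact sets -/
lemma exists_seq {K : ℕ → NC} {K0 : NC} (hK : Tendsto K atTop (𝓝 K0)) {h : ℝ} (hh : h ∈ K0) :
    ∃ g : ℕ → ℝ, (∀ n, g n ∈ K n) ∧ Tendsto g atTop (𝓝 h) := by
  have h1 : ∀ n, ∃ g ∈ (K n : Set ℝ), Metric.infDist h (K n : Set ℝ) = dist h g := fun n =>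
    (K n).isCompact.exists_infDist_eq_dist (K n).nonempty h
  choose g hg1 hg2 using h1
  refine ⟨g, hg1, ?_⟩
  rw [tendsto_iff_dist_tendsto_zero] at hK ⊢
  refine squeeze_zero (fun n => dist_nonneg) (fun n => ?_) hK
  rw [dist_comm, ← hg2 n]
  have hfin : Metric.hausdorffEDist (K0 : Set ℝ) (K n : Set ℝ) ≠ ⊤ :=
    Metric.hausdorffEDist_ne_top_of_nonempty_of_bounded K0.nonempty (K n).nonempty K0.isCompact.isBounded
      (K n).isCompact.isBounded
  calc Metric.infDist h (K n : Set ℝ) ≤ Metric.hausdorffDist (K0 : Set ℝ) (K n : Set ℝ) :=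
        Metric.infDist_le_hausdorffDist_of_mem hh hfin
    _ = dist (K n) K0 := by
        rw [Metric.hausdorffDist_comm, Metric.NonemptyCompacts.dist_eq]

/-- every point of K, rescaled, is a cut level of the curve: a closed relation -/
lemma closed_rel : IsClosed {p : C(unitInterval, ℂ) × NC | ∀ h ∈ p.2, CutLevel p.1 (3 / 2 * h)} := by
  refine IsSeqClosed.isClosed ?_
  intro p q hp hpq h hh
  have h1 : Tendsto (fun n => (p n).1) atTop (𝓝 q.1) := (continuous_fst.tendsto q).comp hpq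
  have h2 : Tendsto (fun n => (p n).2) atTop (𝓝 q.2) := (continuous_snd.tendsto q).comp hpq
  obtain ⟨g, hg1, hg2⟩ := exists_seq h2 hh
  have h3 : ∀ n, CutLevel (p n).1 (3 / 2 * g n) := fun n => hp n (g n) (hg1 n)
  choose u hu1 hu2 using h3
  obtain ⟨u0, -, ψ, hψ, hlim⟩ := isCompact_univ.tendsto_subseq (x := u) (fun n => Set.mem_univ _)
  have h4 : Tendsto (fun n => (p (ψ n)).1) atTop (𝓝 q.1) := h1.comp hψ.tendsto_atTop
  have h5 : Tendsto (fun n => 3 / 2 * g (ψ n)) atTop (𝓝 (3 / 2 * h)) := (hg2.comp hψ.tendsto_atTop).const_mul _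
  have hev : ∀ {v : ℕ → unitInterval} {v0 : unitInterval}, Tendsto v atTop (𝓝 v0) →
      Tendsto (fun n => ((p (ψ n)).1 (v n)).im) atTop (𝓝 (q.1 v0).im) := by
    intro v v0 hv
    have hc : Continuous fun z : C(unitInterval, ℂ) × unitInterval => (z.1 z.2).im :=
      Complex.continuous_im.comp (continuous_fst.eval continuous_snd)
    exact (hc.tendsto (q.1, v0)).comp (h4.prodMk_nhds hv)
  refine ⟨u0, fun v hv => ?_, fun v hv => ?_⟩
  · have h6 : Tendsto (fun n => min v (u (ψ n))) atTop (𝓝 v) := by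
      have : Tendsto (fun n => min v (u (ψ n))) atTop (𝓝 (min v u0)) := tendsto_const_nhds.min hlim
      rwa [min_eq_left hv] at this
    exact le_of_tendsto_of_tendsto' (hev h6) h5 fun n => hu1 _ _ (min_le_right _ _)
  · have h6 : Tendsto (fun n => max v (u (ψ n))) atTop (𝓝 v) := by
      have : Tendsto (fun n => max v (u (ψ n))) atTop (𝓝 (max v u0)) := tendsto_const_nhds.max hlim
      rwa [max_eq_left hv] at this
    exact le_of_tendsto_of_tendsto' h5 (hev h6) fun n => hu2 _ _ (le_max_right _ _)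

section half

variable {X : ℕ → List Bool → C(unitInterval, ℂ)} {μ : ℕ → ProbabilityMeasure C(unitInterval, ℂ)}
  {φ : ℕ → ℕ} {ν : ProbabilityMeasure C(unitInterval, ℂ)}

/-- the joint law -/
noncomputable def jl (X : ℕ → List Bool → C(unitInterval, ℂ)) (T : ℕ) : ProbabilityMeasure (C(unitInterval, ℂ) × NC) :=
  ⟨((lawK T).map fun t => (X T t, cutset T t)).toMeasure, inferInstance⟩

lemma jl_apply (T : ℕ) {S : Set (C(unitInterval, ℂ) × NC)} (hS : MeasurableSet S) :
    (jl X T : Measure (C(unitInterval, ℂ) × NC)) S = gf {t | t ∈ FCW T ∧ (X T t, cutset T t) ∈ S} := by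
  show ((lawK T).map fun t => (X T t, cutset T t)).toMeasure S = _
  rw [PMF.toMeasure_apply_eq_toOuterMeasure_apply _ hS, PMF.toOuterMeasure_map_apply, PMF.toOuterMeasure_apply]
  unfold gf
  rw [tsum_subtype {t | t ∈ FCW T ∧ (X T t, cutset T t) ∈ S} wE]
  refine tsum_congr fun t => ?_
  show ((fun t => (X T t, cutset T t)) ⁻¹' S).indicator ((FCW T).indicator wE) t = _
  rw [Set.indicator_indicator]
  have h : (fun t => (X T t, cutset T t)) ⁻¹' S ∩ FCW T = {t | t ∈ FCW T ∧ (X T t, cutset T t) ∈ S} := by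
    ext x
    exact and_comm
  rw [h]

lemma jl_fst (hμ : ∀ T, (μ T : Measure C(unitInterval, ℂ)) = ((lawK T).map (X T)).toMeasure) (T : ℕ) :
    (jl X T : Measure (C(unitInterval, ℂ) × NC)).map Prod.fst = μ T := by
  ext S hS
  rw [Measure.map_apply measurable_fst hS, jl_apply T (measurable_fst hS), hμ, Touch.law _ _ hS]
  rfl

lemma jl_snd (T : ℕ) : (jl X T : Measure (C(unitInterval, ℂ) × NC)).map Prod.snd = lawS T := by
  ext S hS
  rw [Measure.map_apply measurable_snd hS, jl_apply T (measurable_snd hS), lawS_apply T hS]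
  rfl

lemma im_nonneg {T j : ℕ} (hT : 1 ≤ T) {t : List Bool} (hj : t ∈ FC T j) (u : unitInterval) :
    0 ≤ (curve T t u).im := by
  obtain ⟨i, x, hi, hx0, hx1, -, him, -⟩ := Touch.pts (T := T) (Touch.len_pos hT hj) u
  have h4 : ∀ k ≤ t.length, 0 ≤ (zp t k / (T : ℂ)).im := by
    intro k hk
    rw [Touch.im_div]
    have h5 : 0 ≤ lev t k := by
      rcases Nat.eq_zero_or_pos k with h0 | h0
      · rw [h0, lev_zero]
      · exact ((mem_Brd.1 hj.1).1 k h0 hk).1.le
    have h6 : (0 : ℝ) ≤ lev t k := by exact_mod_cast h5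
    positivity
  rw [him]
  exact add_nonneg (mul_nonneg (by linarith) (h4 i hi.le)) (mul_nonneg hx0 (h4 (i + 1) hi))

/-- the relation holds for the walks -/
lemma jl_rel (hX : ∀ T t, ∃ r : unitInterval ≃ₜ unitInterval, Monotone r ∧ ∀ u, X T t u = curve T t (r u)) {T : ℕ}
    (hT : 1 ≤ T) : (jl X T : Measure (C(unitInterval, ℂ) × NC))
      {p : C(unitInterval, ℂ) × NC | ∀ h ∈ p.2, CutLevel p.1 (3 / 2 * h)}ᶜ = 0 := by
  rw [jl_apply T closed_rel.measurableSet.compl]
  have h1 : {t | t ∈ FCW T ∧ (X T t, cutset T t) ∈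
      {p : C(unitInterval, ℂ) × NC | ∀ h ∈ p.2, CutLevel p.1 (3 / 2 * h)}ᶜ} = ∅ := by
    rw [Set.eq_empty_iff_forall_notMem]
    rintro t ⟨ht, h2⟩
    apply h2
    intro h hh
    obtain ⟨c, hc1, hc2, rfl⟩ := mem_cutset.1 hh
    obtain ⟨j, hj⟩ := ht
    obtain ⟨r, hr, hXr⟩ := hX T t
    have hn := Touch.len_pos hT hj
    rcases hc2 with rfl | hc2
    · have h0 : 3 / 2 * (((0 : ℕ) : ℝ) / T) = 0 := by simp
      rw [h0]
      refine ⟨0, fun u hu => ?_, fun u _ => ?_⟩
      · have hu0 : u = 0 := le_antisymm hu unitInterval.nonneg'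
        rw [hu0, hXr, Touch.r_zero hr]
        unfold curve
        rw [Tight.poly_zero, zp_zero, zero_div, Complex.zero_im]
      · rw [hXr]
        exact im_nonneg hT hj (r u)
    · have h3 := Touch.cut_curve hT hn hj.1 hc2 hr hXr
      have h4 : 3 / 2 * ((c : ℝ) / T) = (3 * c : ℝ) / 2 / T := by ring
      rw [h4]
      exact h3
  rw [h1]
  unfold gf
  simp

/-- J1, HALF PLANE: every subsequential limit law of the curves can be coupled with the limit law of the cut levels such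
that all points of the random set are cut levels of the curve. -/
theorem joint (hX : ∀ T t, ∃ r : unitInterval ≃ₜ unitInterval, Monotone r ∧ ∀ u, X T t u = curve T t (r u))
    (hμ : ∀ T, (μ T : Measure C(unitInterval, ℂ)) = ((lawK T).map (X T)).toMeasure)
    (htight : IsTightMeasureSet {ν : Measure C(unitInterval, ℂ) | ∃ T, 1 ≤ T ∧ ν = μ T})
    (hφ : Tendsto φ atTop atTop) (hν : Tendsto (fun k => μ (φ k)) atTop (𝓝 ν)) {κ : ProbabilityMeasure NC}
    (hκ : Tendsto PS atTop (𝓝 κ)) :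
    ∃ π : ProbabilityMeasure (C(unitInterval, ℂ) × NC), ∃ ψ : ℕ → ℕ, StrictMono ψ ∧
      Tendsto (fun k => jl X (φ (ψ k))) atTop (𝓝 π) ∧
      (π : Measure (C(unitInterval, ℂ) × NC)).map Prod.fst = ν ∧
      (π : Measure (C(unitInterval, ℂ) × NC)).map Prod.snd = κ ∧
      ∀ᵐ p ∂(π : Measure (C(unitInterval, ℂ) × NC)), ∀ h ∈ p.2, CutLevel p.1 (3 / 2 * h) := by
  obtain ⟨χ, hχ, hφχ⟩ := strictMono_subseq_of_tendsto_atTop hφ
  have hge : ∀ k, 1 ≤ φ (χ (k + 1)) := fun k => le_trans (Nat.succ_le_succ (Nat.zero_le k)) (hφχ.le_apply (x := k + 1))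
  have hf : ∀ k, (jl X (φ (χ (k + 1)))).map measurable_fst.aemeasurable = μ (φ (χ (k + 1))) := by
    intro k
    exact Subtype.ext (jl_fst hμ _)
  have hs : ∀ k, (jl X (φ (χ (k + 1)))).map measurable_snd.aemeasurable = PS (φ (χ (k + 1))) := by
    intro k
    exact Subtype.ext (jl_snd _)
  have hsub : Tendsto (fun k => χ (k + 1)) atTop atTop := hχ.tendsto_atTop.comp (tendsto_add_atTop_nat 1)
  obtain ⟨π, ψ, hψ, hlim, h1, h2, h3⟩ := coupling (fun k => jl X (φ (χ (k + 1)))) (ν := ν) (κ := κ)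
    (S := {p : C(unitInterval, ℂ) × NC | ∀ h ∈ p.2, CutLevel p.1 (3 / 2 * h)})
    ((hν.comp hsub).congr fun k => (hf k).symm) (((hκ.comp (hφ.comp hsub))).congr fun k => (hs k).symm)
    (htight.subset (by
      rintro _ ⟨k, rfl⟩
      exact ⟨φ (χ (k + 1)), hge k, jl_fst hμ _⟩)) (by
    rw [isTightMeasureSet_iff_exists_isCompact_measure_compl_le]
    intro ε hε
    refine ⟨{K | (K : Set ℝ) ⊆ Set.Icc 0 1}, NonemptyCompacts.isCompact_subsets_of_isCompact isCompact_Icc, ?_⟩
    rintro _ ⟨k, rfl⟩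
    have h1 : (PS (φ (χ (k + 1))) : Measure NC) {K | (K : Set ℝ) ⊆ Set.Icc 0 1}ᶜ = 0 := by
      rw [measure_eq_zero_iff_ae_notMem]
      filter_upwards [PS_good (φ (χ (k + 1)))] with K hK hK'
      exact hK' hK.1
    have h2 : (jl X (φ (χ (k + 1))) : Measure (C(unitInterval, ℂ) × NC)).map Prod.snd =
        (PS (φ (χ (k + 1))) : Measure NC) := jl_snd _
    rw [h2, h1]
    exact zero_le) closed_rel (Eventually.of_forall fun k => jl_rel hX (hge k))
  refine ⟨π, fun k => χ (ψ k + 1), fun a b hab => hχ (Nat.succ_lt_succ (hψ hab)), hlim, h1, h2, h3⟩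

end half

end CutJ
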