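import Pool.Agent.CutJ.J1
import Pool.Agent.CutLim.H
import Pool.Agent.CutLim.I

/-! CUTJ, J3: the law of the end point height of every limit curve, jointly with the cut levels. -/

set_option autoImplicit false

namespace CutJ

open Filter Topology MeasureTheory TopologicalSpace HexObs CutLim CutR3 Finset

open scoped ENNReal

/-! ### words -/

/-- the stopped words of height above `m` whose rescaled cut levels avoid the gaps -/
theorem gf_top {T m : ℕ} (hT : 1 ≤ T) (hm : T ≤ m) {l : List (ℝ × ℝ)} (hl : Adm l 1) :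
    gf {t | ∃ j, m + 1 ≤ j ∧ t ∈ FC T j ∧ cutset T t ∈ AvS (gaps l)} =
      ENNReal.ofReal (∑ c ∈ range T, fw kk (gp l T) c * KK kk (m + 1 - c)) := by
  have h1 : {t | ∃ j, m + 1 ≤ j ∧ t ∈ FC T j ∧ cutset T t ∈ AvS (gaps l)} =
      {t | ∃ j, m + 1 ≤ j ∧ t ∈ FC T j ∧ NoCut (gp l T) T t} := by
    ext t
    constructor
    · rintro ⟨j, hj, ht, h⟩
      refine ⟨j, hj, ht, fun c h1 h2 h3 => ?_⟩
      exact (mem_gaps_iff hT (fun p hp => (adm_mem hl p hp).1) t).1 h c h2 h3.le h1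
    · rintro ⟨j, hj, ht, h⟩
      refine ⟨j, hj, ht, (mem_gaps_iff hT (fun p hp => (adm_mem hl p hp).1) t).2 fun c h1 h2 h3 => ?_⟩
      rcases Nat.lt_or_ge c T with h4 | h4
      · exact h c h3 h1 h4
      · exact ht.2.2 c h4 (by omega)
  rw [h1, gf_FCW_noCut (avs_AvSeq _) hT (by omega)]
  congr 1
  refine Finset.sum_congr rfl fun c _ => ?_
  rw [avs_eq_fw]
  rfl

section

variable {b : ℝ}

/-- the limit of the weights -/
theorem gf_top_lim (hb : 0 < b) (hu : Tendsto (fun n : ℕ => (n : ℝ) ^ (1 / 4 : ℝ) * uu n) atTop (𝓝 b))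
    {l : List (ℝ × ℝ)} (hl : Adm l 1) {y : ℝ} (hy : 1 ≤ y) :
    Tendsto (fun T : ℕ => (gf {t | ∃ j : ℕ, y * T < j ∧ t ∈ FC T j ∧ cutset T t ∈ AvS (gaps l)}).toReal) atTop
      (𝓝 (AH ((1, y) :: l))) := by
  have he : (1 : ℝ) - 3 / 4 = 1 / 4 := by norm_num
  have hu' : Tendsto (fun n : ℕ => (n : ℝ) ^ (1 - 3 / 4 : ℝ) * uu n) atTop (𝓝 b) := by
    rw [he]
    exact hu
  have hct := ct_pos (a := 3 / 4) (by norm_num) (by norm_num) hb
  have h1 := tail_lim ren_uu (a := 3 / 4) (by norm_num) (by norm_num) hct hu'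
    (KK_tendsto ren_uu (by norm_num) (by norm_num) hb hu') (Ad_of_Adm hl) hy tendsto_id
  have h2 : AH ((1, y) :: l) = Avl (3 / 4) b (ct (3 / 4) b) ((1, y) :: l) := (Avl_scale hb.ne' _).symm
  have h3 : Tendsto (fun T : ℕ => fw kk (gp l T) T * KK kk (⌊y * (T : ℝ)⌋₊ + 1 - T)) atTop (𝓝 0) := by
    have h4 : Tendsto uu atTop (𝓝 0) := by
      have h5 : Tendsto (fun n : ℕ => (n : ℝ) ^ (-(1 / 4) : ℝ)) atTop (𝓝 0) :=
        (tendsto_rpow_neg_atTop (by norm_num)).comp tendsto_natCast_atTop_atTop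
      have h6 := hu.mul h5
      rw [mul_zero] at h6
      refine h6.congr' ?_
      filter_upwards [eventually_ge_atTop 1] with n hn
      have hn' : (0 : ℝ) < n := by exact_mod_cast hn
      rw [mul_right_comm, ← Real.rpow_add hn', add_neg_cancel, Real.rpow_zero, one_mul]
    refine squeeze_zero (fun T => mul_nonneg (fw_nonneg ren_uu _ _) (KK_nonneg ren_uu _)) (fun T => ?_) h4
    calc fw kk (gp l T) T * KK kk (⌊y * (T : ℝ)⌋₊ + 1 - T) ≤ uu T * 1 :=
          mul_le_mul (fw_le ren_uu _ _) (KK_le_one ren_uu _) (KK_nonneg ren_uu _) (uu_pos T).le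
      _ = uu T := mul_one _
  have h4 := h1.sub h3
  rw [sub_zero] at h4
  rw [h2]
  refine h4.congr' ?_
  filter_upwards [eventually_ge_atTop 1] with T hT
  have hT' : (0 : ℝ) < T := by exact_mod_cast hT
  have hle : T ≤ ⌊y * (T : ℝ)⌋₊ := Nat.le_floor (by nlinarith)
  have h5 : {t | ∃ j : ℕ, y * T < j ∧ t ∈ FC T j ∧ cutset T t ∈ AvS (gaps l)} =
      {t | ∃ j, ⌊y * (T : ℝ)⌋₊ + 1 ≤ j ∧ t ∈ FC T j ∧ cutset T t ∈ AvS (gaps l)} := by
    ext t
    constructor
    · rintro ⟨j, h1, h2⟩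
      exact ⟨j, (Nat.floor_lt (by positivity)).2 h1, h2⟩
    · rintro ⟨j, h1, h2⟩
      exact ⟨j, (Nat.floor_lt (by positivity)).1 h1, h2⟩
  rw [h5, gf_top hT hle hl, ENNReal.toReal_ofReal (Finset.sum_nonneg fun c _ =>
    mul_nonneg (fw_nonneg ren_uu _ _) (KK_nonneg ren_uu _))]
  simp only [id]
  rw [one_mul, Nat.floor_natCast, Finset.sum_range_succ]
  ring

end

/-! ### the explicit function -/

/-- the probability that the first point after `1` of the set is above `y` -/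
noncomputable def topF (y : ℝ) : ℝ :=
  1 / (Real.pi * Real.sqrt 2) * ∫ u in (0 : ℝ)..(1 / y), u ^ (-(1 / 4) : ℝ) * (1 - u) ^ (-(3 / 4) : ℝ)

lemma ct_val : ct (3 / 4) 1 = 1 / (Real.pi * Real.sqrt 2) := by
  rw [ct_one, show Real.pi * (3 / 4) = Real.pi - Real.pi / 4 by ring, Real.sin_pi_sub, Real.sin_pi_div_four]
  have h2 : Real.sqrt 2 * Real.sqrt 2 = 2 := Real.mul_self_sqrt (by norm_num)
  have h3 : 0 < Real.sqrt 2 := Real.sqrt_pos.2 (by norm_num)
  have hpi := Real.pi_pos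
  rw [div_eq_div_iff hpi.ne' (by positivity)]
  linear_combination (Real.pi / 2) * h2

lemma beta_int : IntegrableOn (fun u : ℝ => u ^ (-(1 / 4) : ℝ) * (1 - u) ^ (-(3 / 4) : ℝ)) (Set.Icc 0 1) ∧
    ∫ u in (0 : ℝ)..1, u ^ (-(1 / 4) : ℝ) * (1 - u) ^ (-(3 / 4) : ℝ) = (ct (3 / 4) 1)⁻¹ := by
  have h1 := lint_beta (a := 3 / 4) (by norm_num) (by norm_num)
  rw [show (3 / 4 - 1 : ℝ) = -(1 / 4) by norm_num] at h1
  have hm : Measurable fun u : ℝ => u ^ (-(1 / 4) : ℝ) * (1 - u) ^ (-(3 / 4) : ℝ) := by fun_prop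
  have hc := ct_pos1 (a := 3 / 4) (by norm_num) (by norm_num)
  have hnn : 0 ≤ᵐ[volume.restrict (Set.Ioo (0 : ℝ) 1)] fun u : ℝ => u ^ (-(1 / 4) : ℝ) * (1 - u) ^ (-(3 / 4) : ℝ) := by
    filter_upwards [ae_restrict_mem measurableSet_Ioo] with u hu
    exact mul_nonneg (Real.rpow_nonneg hu.1.le _) (Real.rpow_nonneg (by linarith [hu.2]) _)
  constructor
  · rw [integrableOn_Icc_iff_integrableOn_Ioo]
    refine ⟨hm.aestronglyMeasurable, ?_⟩
    rw [hasFiniteIntegral_iff_ofReal hnn, h1]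
    exact ENNReal.ofReal_lt_top
  · rw [intervalIntegral.integral_of_le zero_le_one, integral_Ioc_eq_integral_Ioo,
      integral_eq_lintegral_of_nonneg_ae hnn hm.aestronglyMeasurable, h1,
      ENNReal.toReal_ofReal (inv_nonneg.2 hc.le)]

lemma topF_one : topF 1 = 1 := by
  unfold topF
  rw [one_div_one, beta_int.2, ← ct_val]
  exact mul_inv_cancel₀ (ct_pos1 (by norm_num) (by norm_num)).ne'

lemma topF_cont : ContinuousOn topF (Set.Ici 1) := by
  have h1 : ContinuousOn (fun x : ℝ => ∫ u in (0 : ℝ)..x, u ^ (-(1 / 4) : ℝ) * (1 - u) ^ (-(3 / 4) : ℝ)) (Set.Icc 0 1) := by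
    have h2 := intervalIntegral.continuousOn_primitive_interval (a := (0 : ℝ)) (b := 1) (μ := volume)
      (f := fun u : ℝ => u ^ (-(1 / 4) : ℝ) * (1 - u) ^ (-(3 / 4) : ℝ)) (by
        rw [Set.uIcc_of_le zero_le_one]
        exact beta_int.1)
    rwa [Set.uIcc_of_le zero_le_one] at h2
  have h2 : ContinuousOn (fun y : ℝ => 1 / y) (Set.Ici 1) := by
    refine continuousOn_const.div continuousOn_id fun y hy => ?_
    have : (1 : ℝ) ≤ y := hy
    exact (lt_of_lt_of_le one_pos this).ne'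
  refine continuousOn_const.mul (h1.comp h2 fun y hy => ?_)
  have hy1 : (1 : ℝ) ≤ y := hy
  have hy0 : (0 : ℝ) < y := lt_of_lt_of_le one_pos hy1
  exact ⟨by positivity, by rw [div_le_one hy0]; exact hy1⟩

lemma topF_nonneg {y : ℝ} (hy : 1 ≤ y) : 0 ≤ topF y := by
  unfold topF
  have hy0 : (0 : ℝ) < y := lt_of_lt_of_le one_pos hy
  have h1 : 1 / y ≤ 1 := by rw [div_le_one hy0]; exact hy
  refine mul_nonneg (by have := Real.pi_pos; positivity) ?_
  refine intervalIntegral.integral_nonneg (by positivity) fun u hu => ?_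
  exact mul_nonneg (Real.rpow_nonneg hu.1 _) (Real.rpow_nonneg (by linarith [hu.2]) _)

section

variable {b : ℝ}

lemma AH_top (hb : 0 < b) (hu : Tendsto (fun n : ℕ => (n : ℝ) ^ (1 / 4 : ℝ) * uu n) atTop (𝓝 b)) {y : ℝ}
    (hy : 1 < y) : AH [(1, y)] = topF y := by
  have he : (1 : ℝ) - 3 / 4 = 1 / 4 := by norm_num
  have hu' : Tendsto (fun n : ℕ => (n : ℝ) ^ (1 - 3 / 4 : ℝ) * uu n) atTop (𝓝 b) := by
    rw [he]
    exact hu
  have h1 := Avl_one ren_uu (a := 3 / 4) (by norm_num) (by norm_num) hb hu' one_pos hy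
  have h2 : AH [(1, y)] = Avl (3 / 4) b (ct (3 / 4) b) [(1, y)] := (Avl_scale hb.ne' _).symm
  rw [h2, h1]
  unfold topF
  rw [← ct_val, ct, one_mul, one_div (Real.Gamma (3 / 4) * Real.Gamma (1 - 3 / 4)),
    show (3 / 4 - 1 : ℝ) = -(1 / 4) by norm_num]

/-- the limit of the law of the height of the end point -/
theorem gf_top_lim_one (hb : 0 < b) (hu : Tendsto (fun n : ℕ => (n : ℝ) ^ (1 / 4 : ℝ) * uu n) atTop (𝓝 b))
    {y : ℝ} (hy : 1 < y) :
    Tendsto (fun T : ℕ => (gf {t | ∃ j : ℕ, y * T < j ∧ t ∈ FC T j}).toReal) atTop (𝓝 (topF y)) := by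
  have h1 := gf_top_lim hb hu (l := []) (show (0 : ℝ) < 1 from one_pos) hy.le
  rw [AH_top hb hu hy] at h1
  refine h1.congr fun T => ?_
  congr 2
  ext t
  constructor
  · rintro ⟨j, h1, h2, _⟩
    exact ⟨j, h1, h2⟩
  · rintro ⟨j, h1, h2⟩
    refine ⟨j, h1, h2, fun s _ hs => ?_⟩
    obtain ⟨p, hp, -⟩ := hs
    exact List.not_mem_nil hp

end

/-! ### the limit curves -/

/-- the height of the end point of the curve of a word -/
lemma top_im {T j : ℕ} {t : List Bool} (ht : t ∈ FC T j) {f : C(unitInterval, ℂ)}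
    {r : unitInterval ≃ₜ unitInterval} (hr : Monotone r) (hf : ∀ u, f u = curve T t (r u)) :
    (f 1).im = 3 / 2 * ((j : ℝ) / T) := by
  rw [hf, Touch.r_one hr]
  unfold curve
  rw [Tight.poly_one, Touch.im_div, (mem_Brd.1 ht.1).2.2.2]
  push_cast
  ring

section

variable {X : ℕ → List Bool → C(unitInterval, ℂ)} {μ : ℕ → ProbabilityMeasure C(unitInterval, ℂ)}
  {φ : ℕ → ℕ} {ν : ProbabilityMeasure C(unitInterval, ℂ)} {b : ℝ}

lemma isOpen_top (y : ℝ) : IsOpen {g : C(unitInterval, ℂ) | 3 / 2 * y < (g 1).im} := by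
  have hc : Continuous fun g : C(unitInterval, ℂ) => (g 1).im :=
    Complex.continuous_im.comp (continuous_id.eval continuous_const)
  exact isOpen_lt continuous_const hc

lemma isClosed_top (y : ℝ) : IsClosed {g : C(unitInterval, ℂ) | 3 / 2 * y ≤ (g 1).im} := by
  have hc : Continuous fun g : C(unitInterval, ℂ) => (g 1).im :=
    Complex.continuous_im.comp (continuous_id.eval continuous_const)
  exact isClosed_le continuous_const hc

lemma mu_top (hX : ∀ T t, ∃ r : unitInterval ≃ₜ unitInterval, Monotone r ∧ ∀ u, X T t u = curve T t (r u))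
    (hμ : ∀ T, (μ T : Measure C(unitInterval, ℂ)) = ((lawK T).map (X T)).toMeasure) {T : ℕ} (hT : 1 ≤ T) (y : ℝ) :
    (μ T : Measure C(unitInterval, ℂ)) {g | 3 / 2 * y < (g 1).im} = gf {t | ∃ j : ℕ, y * T < j ∧ t ∈ FC T j} := by
  rw [hμ, Touch.law _ _ (isOpen_top y).measurableSet]
  congr 1
  ext t
  have hT' : (0 : ℝ) < T := by exact_mod_cast hT
  constructor
  · rintro ⟨⟨j, hj⟩, h⟩
    obtain ⟨r, hr, hXr⟩ := hX T t
    have h1 : 3 / 2 * y < (X T t 1).im := h
    rw [top_im hj hr hXr] at h1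
    have h2 : y < (j : ℝ) / T := by linarith
    exact ⟨j, (lt_div_iff₀ hT').1 h2, hj⟩
  · rintro ⟨j, h, hj⟩
    obtain ⟨r, hr, hXr⟩ := hX T t
    refine ⟨⟨j, hj⟩, ?_⟩
    show 3 / 2 * y < (X T t 1).im
    rw [top_im hj hr hXr]
    have h2 : y < (j : ℝ) / T := (lt_div_iff₀ hT').2 h
    linarith

lemma gf_ne_top' (T : ℕ) (y : ℝ) : gf {t | ∃ j : ℕ, y * T < j ∧ t ∈ FC T j} ≠ ⊤ := by
  refine ne_top_of_le_ne_top ENNReal.one_ne_top ?_
  rw [← Touch.gf_FCW T]
  exact gf_mono fun t ⟨j, _, hj⟩ => ⟨j, hj⟩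

/-- J3. THE LAW OF THE HEIGHT OF THE END POINT OF EVERY LIMIT CURVE -/
theorem top_law (hX : ∀ T t, ∃ r : unitInterval ≃ₜ unitInterval, Monotone r ∧ ∀ u, X T t u = curve T t (r u))
    (hμ : ∀ T, (μ T : Measure C(unitInterval, ℂ)) = ((lawK T).map (X T)).toMeasure)
    (hφ : Tendsto φ atTop atTop) (hν : Tendsto (fun k => μ (φ k)) atTop (𝓝 ν)) (hb : 0 < b)
    (hu : Tendsto (fun n : ℕ => (n : ℝ) ^ (1 / 4 : ℝ) * uu n) atTop (𝓝 b)) {y : ℝ} (hy : 1 ≤ y) :
    (ν : Measure C(unitInterval, ℂ)) {g | 3 / 2 * y < (g 1).im} = ENNReal.ofReal (topF y) ∧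
      (ν : Measure C(unitInterval, ℂ)) {g | 3 / 2 * y ≤ (g 1).im} = ENNReal.ofReal (topF y) := by
  have hlim : ∀ z : ℝ, 1 < z → Tendsto (fun k => (μ (φ k) : Measure C(unitInterval, ℂ)) {g | 3 / 2 * z < (g 1).im}) atTop
      (𝓝 (ENNReal.ofReal (topF z))) := by
    intro z hz
    have h1 := (ENNReal.tendsto_ofReal (gf_top_lim_one hb hu hz)).comp hφ
    refine h1.congr' ?_
    filter_upwards [hφ.eventually_ge_atTop 1] with k hk
    rw [mu_top hX hμ hk]
    exact ENNReal.ofReal_toReal (gf_ne_top' _ _)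
  have hop : ∀ z : ℝ, 1 < z → (ν : Measure C(unitInterval, ℂ)) {g | 3 / 2 * z < (g 1).im} ≤ ENNReal.ofReal (topF z) := by
    intro z hz
    rw [← (hlim z hz).liminf_eq]
    exact ProbabilityMeasure.le_liminf_measure_open_of_tendsto hν (isOpen_top z)
  have hcl : ∀ z : ℝ, 1 < z → ENNReal.ofReal (topF z) ≤ (ν : Measure C(unitInterval, ℂ)) {g | 3 / 2 * z ≤ (g 1).im} := by
    intro z hz
    refine le_trans ?_ (ProbabilityMeasure.limsup_measure_closed_le_of_tendsto hν (isClosed_top z))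
    rw [← (hlim z hz).limsup_eq]
    refine limsup_le_limsup (Eventually.of_forall fun k => measure_mono fun g hg => ?_)
    have h2 : 3 / 2 * z < (g 1).im := hg
    exact h2.le
  have hlow : ENNReal.ofReal (topF y) ≤ (ν : Measure C(unitInterval, ℂ)) {g | 3 / 2 * y < (g 1).im} := by
    have h1 : Tendsto (fun z => ENNReal.ofReal (topF z)) (𝓝[>] y) (𝓝 (ENNReal.ofReal (topF y))) := by
      refine ENNReal.tendsto_ofReal ?_
      exact (topF_cont y hy).mono_left (nhdsWithin_mono _ (fun z hz => hy.trans (le_of_lt hz)))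
    refine le_of_tendsto h1 ?_
    filter_upwards [self_mem_nhdsWithin] with z hz
    have hz' : y < z := hz
    refine (hcl z (lt_of_le_of_lt hy hz')).trans (measure_mono fun g hg => ?_)
    have h2 : 3 / 2 * z ≤ (g 1).im := hg
    show 3 / 2 * y < (g 1).im
    linarith
  have hupp : (ν : Measure C(unitInterval, ℂ)) {g | 3 / 2 * y ≤ (g 1).im} ≤ ENNReal.ofReal (topF y) := by
    rcases eq_or_lt_of_le hy with h | h
    · rw [← h, topF_one, ENNReal.ofReal_one]
      exact prob_le_one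
    · have h1 : Tendsto (fun z => ENNReal.ofReal (topF z)) (𝓝[<] y) (𝓝 (ENNReal.ofReal (topF y))) := by
        refine ENNReal.tendsto_ofReal ?_
        have h2 : ContinuousAt topF y := topF_cont.continuousAt (Ici_mem_nhds h)
        exact h2.tendsto.mono_left nhdsWithin_le_nhds
      refine ge_of_tendsto h1 ?_
      filter_upwards [Ioo_mem_nhdsLT h] with z hz
      refine le_trans (measure_mono fun g hg => ?_) (hop z hz.1)
      have h2 : 3 / 2 * y ≤ (g 1).im := hg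
      show 3 / 2 * z < (g 1).im
      linarith [hz.2]
  have hmono : (ν : Measure C(unitInterval, ℂ)) {g | 3 / 2 * y < (g 1).im} ≤
      (ν : Measure C(unitInterval, ℂ)) {g | 3 / 2 * y ≤ (g 1).im} := by
    refine measure_mono fun g hg => ?_
    have h2 : 3 / 2 * y < (g 1).im := hg
    exact h2.le
  exact ⟨le_antisymm (hmono.trans hupp) hlow, le_antisymm hupp (hlow.trans hmono)⟩

lemma jl_top (hX : ∀ T t, ∃ r : unitInterval ≃ₜ unitInterval, Monotone r ∧ ∀ u, X T t u = curve T t (r u)) {T : ℕ}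
    (hT : 1 ≤ T) (y : ℝ) (l : List (ℝ × ℝ)) :
    (jl X T : Measure (C(unitInterval, ℂ) × NC)) {p | p.2 ∈ AvS (gaps l) ∧ 3 / 2 * y < (p.1 1).im} =
      gf {t | ∃ j : ℕ, y * T < j ∧ t ∈ FC T j ∧ cutset T t ∈ AvS (gaps l)} := by
  have hm : MeasurableSet {p : C(unitInterval, ℂ) × NC | p.2 ∈ AvS (gaps l) ∧ 3 / 2 * y < (p.1 1).im} :=
    (measurable_snd (measurableSet_gaps l)).inter (measurable_fst (isOpen_top y).measurableSet)
  rw [jl_apply T hm]
  congr 1
  ext t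
  have hT' : (0 : ℝ) < T := by exact_mod_cast hT
  constructor
  · rintro ⟨⟨j, hj⟩, h, h'⟩
    obtain ⟨r, hr, hXr⟩ := hX T t
    have h1 : 3 / 2 * y < (X T t 1).im := h'
    rw [top_im hj hr hXr] at h1
    have h2 : y < (j : ℝ) / T := by linarith
    exact ⟨j, (lt_div_iff₀ hT').1 h2, hj, h⟩
  · rintro ⟨j, h, hj, h'⟩
    obtain ⟨r, hr, hXr⟩ := hX T t
    refine ⟨⟨j, hj⟩, h', ?_⟩
    show 3 / 2 * y < (X T t 1).im
    rw [top_im hj hr hXr]
    have h2 : y < (j : ℝ) / T := (lt_div_iff₀ hT').2 h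
    linarith

/-- J3, JOINT LAW of the cut levels and of the height of the end point, for every coupled limit -/
theorem joint_top (hX : ∀ T t, ∃ r : unitInterval ≃ₜ unitInterval, Monotone r ∧ ∀ u, X T t u = curve T t (r u))
    (hμ : ∀ T, (μ T : Measure C(unitInterval, ℂ)) = ((lawK T).map (X T)).toMeasure)
    (hφ : Tendsto φ atTop atTop) {π : ProbabilityMeasure (C(unitInterval, ℂ) × NC)}
    (hπ : Tendsto (fun k => jl X (φ k)) atTop (𝓝 π)) (hb : 0 < b)
    (hu : Tendsto (fun n : ℕ => (n : ℝ) ^ (1 / 4 : ℝ) * uu n) atTop (𝓝 b)) {l : List (ℝ × ℝ)} (hl : Adm l 1)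
    {y : ℝ} (hy : 1 ≤ y) :
    ((π : Measure (C(unitInterval, ℂ) × NC)) {p | p.2 ∈ AvS (gaps l) ∧ 3 / 2 * y < (p.1 1).im}).toReal =
      AH ((1, y) :: l) := by
  -- the marginals
  have hfst : Tendsto (fun k => μ (φ k)) atTop (𝓝 (π.map measurable_fst.aemeasurable)) := by
    refine (ProbabilityMeasure.tendsto_map_of_tendsto_of_continuous _ π hπ continuous_fst).congr fun k => ?_
    exact Subtype.ext (jl_fst hμ _)
  have hsnd : Tendsto (fun k => PS (φ k)) atTop (𝓝 (π.map measurable_snd.aemeasurable)) := by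
    refine (ProbabilityMeasure.tendsto_map_of_tendsto_of_continuous _ π hπ continuous_snd).congr fun k => ?_
    exact Subtype.ext (jl_snd _)
  obtain ⟨κ, hκ1, -, hκ2, -⟩ := half_limit hb hu
  have hκ : π.map measurable_snd.aemeasurable = κ := tendsto_nhds_unique hsnd (hκ1.comp hφ)
  have htop := top_law hX hμ hφ hfst hb hu hy
  -- null sets
  have hz1 : (π : Measure (C(unitInterval, ℂ) × NC)) {p | p.2 ∈ AvS (opg l) ∧ p.2 ∉ AvS (clg l)} = 0 := by
    have h1 : (π : Measure (C(unitInterval, ℂ) × NC)) {p | p.2 ∈ AvS (opg l) ∧ p.2 ∉ AvS (clg l)} =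
        (κ : Measure NC) (AvS (opg l) \ AvS (clg l)) := by
      rw [← hκ]
      show _ = (π : Measure (C(unitInterval, ℂ) × NC)).map Prod.snd _
      rw [Measure.map_apply measurable_snd
        ((isClosed_AvS (isOpen_opg l)).measurableSet.diff (isOpen_AvS (isClosed_clg l)).measurableSet)]
      rfl
    have h2 : AvS (clg l) ⊆ AvS (opg l) := AvS_anti ((opg_sub l).trans (gaps_sub l))
    have h3 := hκ2 l hl
    rw [h1, measure_sdiff h2 (isOpen_AvS (isClosed_clg l)).measurableSet.nullMeasurableSet (measure_ne_top _ _),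
      (ENNReal.toReal_eq_toReal_iff' (measure_ne_top _ _) (measure_ne_top _ _)).1 (h3.2.1.trans h3.2.2.symm), tsub_self]
  have hz2 : (π : Measure (C(unitInterval, ℂ) × NC)) {p | 3 / 2 * y ≤ (p.1 1).im ∧ ¬ 3 / 2 * y < (p.1 1).im} = 0 := by
    have h1 : (π : Measure (C(unitInterval, ℂ) × NC)) {p | 3 / 2 * y ≤ (p.1 1).im ∧ ¬ 3 / 2 * y < (p.1 1).im} =
        ((π.map measurable_fst.aemeasurable : ProbabilityMeasure C(unitInterval, ℂ)) : Measure C(unitInterval, ℂ))
          ({g | 3 / 2 * y ≤ (g 1).im} \ {g | 3 / 2 * y < (g 1).im}) := by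
      show _ = (π : Measure (C(unitInterval, ℂ) × NC)).map Prod.fst _
      rw [Measure.map_apply measurable_fst ((isClosed_top y).measurableSet.diff (isOpen_top y).measurableSet)]
      rfl
    have h2 : {g : C(unitInterval, ℂ) | 3 / 2 * y < (g 1).im} ⊆ {g | 3 / 2 * y ≤ (g 1).im} := by
      intro g hg
      have h3 : 3 / 2 * y < (g 1).im := hg
      exact h3.le
    rw [h1, measure_sdiff h2 (isOpen_top y).measurableSet.nullMeasurableSet (measure_ne_top _ _), htop.1, htop.2,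
      tsub_self]
  -- the limit of the weights
  have hlim : Tendsto (fun k => (jl X (φ k) : Measure (C(unitInterval, ℂ) × NC))
      {p | p.2 ∈ AvS (gaps l) ∧ 3 / 2 * y < (p.1 1).im}) atTop (𝓝 (ENNReal.ofReal (AH ((1, y) :: l)))) := by
    have h1 := (ENNReal.tendsto_ofReal (gf_top_lim hb hu hl hy)).comp hφ
    refine h1.congr' ?_
    filter_upwards [hφ.eventually_ge_atTop 1] with k hk
    rw [jl_top hX hk]
    refine ENNReal.ofReal_toReal (ne_top_of_le_ne_top (gf_ne_top' (φ k) y) ?_)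
    exact gf_mono fun t ⟨j, h1, h2, _⟩ => ⟨j, h1, h2⟩
  have hnn : 0 ≤ AH ((1, y) :: l) :=
    ge_of_tendsto' (gf_top_lim hb hu hl hy) fun T => ENNReal.toReal_nonneg
  have hup : (π : Measure (C(unitInterval, ℂ) × NC)) {p | p.2 ∈ AvS (clg l) ∧ 3 / 2 * y < (p.1 1).im} ≤
      ENNReal.ofReal (AH ((1, y) :: l)) := by
    have ho : IsOpen {p : C(unitInterval, ℂ) × NC | p.2 ∈ AvS (clg l) ∧ 3 / 2 * y < (p.1 1).im} :=
      ((isOpen_AvS (isClosed_clg l)).preimage continuous_snd).inter ((isOpen_top y).preimage continuous_fst)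
    rw [← hlim.liminf_eq]
    refine (ProbabilityMeasure.le_liminf_measure_open_of_tendsto hπ ho).trans ?_
    refine liminf_le_liminf (Eventually.of_forall fun k => measure_mono fun p hp => ?_)
    exact ⟨AvS_anti (gaps_sub l) hp.1, hp.2⟩
  have hlo : ENNReal.ofReal (AH ((1, y) :: l)) ≤
      (π : Measure (C(unitInterval, ℂ) × NC)) {p | p.2 ∈ AvS (opg l) ∧ 3 / 2 * y ≤ (p.1 1).im} := by
    have hc : IsClosed {p : C(unitInterval, ℂ) × NC | p.2 ∈ AvS (opg l) ∧ 3 / 2 * y ≤ (p.1 1).im} :=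
      ((isClosed_AvS (isOpen_opg l)).preimage continuous_snd).inter ((isClosed_top y).preimage continuous_fst)
    rw [← hlim.limsup_eq]
    refine le_trans ?_ (ProbabilityMeasure.limsup_measure_closed_le_of_tendsto hπ hc)
    refine limsup_le_limsup (Eventually.of_forall fun k => measure_mono fun p hp => ?_)
    have h3 : 3 / 2 * y < (p.1 1).im := hp.2
    exact ⟨AvS_anti (opg_sub l) hp.1, h3.le⟩
  have h1 : (π : Measure (C(unitInterval, ℂ) × NC)) {p | p.2 ∈ AvS (gaps l) ∧ 3 / 2 * y < (p.1 1).im} ≤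
      ENNReal.ofReal (AH ((1, y) :: l)) := by
    calc (π : Measure (C(unitInterval, ℂ) × NC)) {p | p.2 ∈ AvS (gaps l) ∧ 3 / 2 * y < (p.1 1).im} ≤
        (π : Measure (C(unitInterval, ℂ) × NC)) ({p | p.2 ∈ AvS (clg l) ∧ 3 / 2 * y < (p.1 1).im} ∪
          {p | p.2 ∈ AvS (opg l) ∧ p.2 ∉ AvS (clg l)}) := by
          refine measure_mono fun p hp => ?_
          by_cases h : p.2 ∈ AvS (clg l)
          · exact Or.inl ⟨h, hp.2⟩
          · exact Or.inr ⟨AvS_anti (opg_sub l) hp.1, h⟩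
      _ ≤ _ := (measure_union_le _ _).trans (by rw [hz1, add_zero]; exact hup)
  have h2 : ENNReal.ofReal (AH ((1, y) :: l)) ≤
      (π : Measure (C(unitInterval, ℂ) × NC)) {p | p.2 ∈ AvS (gaps l) ∧ 3 / 2 * y < (p.1 1).im} := by
    refine hlo.trans ?_
    calc (π : Measure (C(unitInterval, ℂ) × NC)) {p | p.2 ∈ AvS (opg l) ∧ 3 / 2 * y ≤ (p.1 1).im} ≤
        (π : Measure (C(unitInterval, ℂ) × NC)) (({p | p.2 ∈ AvS (gaps l) ∧ 3 / 2 * y < (p.1 1).im} ∪
          {p | p.2 ∈ AvS (opg l) ∧ p.2 ∉ AvS (clg l)}) ∪ {p | 3 / 2 * y ≤ (p.1 1).im ∧ ¬ 3 / 2 * y < (p.1 1).im}) := by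
          refine measure_mono fun p hp => ?_
          by_cases h : p.2 ∈ AvS (clg l)
          · by_cases h' : 3 / 2 * y < (p.1 1).im
            · exact Or.inl (Or.inl ⟨AvS_anti (gaps_sub l) h, h'⟩)
            · exact Or.inr ⟨hp.2, h'⟩
          · exact Or.inl (Or.inr ⟨hp.1, h⟩)
      _ ≤ _ := by
          refine (measure_union_le _ _).trans ?_
          rw [hz2, add_zero]
          refine (measure_union_le _ _).trans ?_
          rw [hz1, add_zero]
  rw [le_antisymm h1 h2, ENNReal.toReal_ofReal hnn]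

end

end CutJ
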