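import Pool.Agent.CutLim.F2

/-! CUTJ, J3, generic part: the joint law of a random compact subset K of [0, 1] and of a random number D > 1 from the
probabilities that K avoids gaps and D > y. -/

set_option autoImplicit false

namespace CutJ

open Filter Topology MeasureTheory TopologicalSpace CutLim

open scoped ENNReal

/-- the event: K avoids U and D > y -/
def Ev (U : Set ℝ) (y : ℝ) : Set (NC × ℝ) := AvS U ×ˢ Set.Ioi y

lemma measurable_gaps (l : List (ℝ × ℝ)) : MeasurableSet (AvS (gaps l)) := by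
  induction l with
  | nil =>
    have h1 : AvS (gaps []) = Set.univ := by
      ext K
      refine ⟨fun _ => trivial, fun _ s _ hs => ?_⟩
      obtain ⟨p, hp, -⟩ := hs
      exact List.not_mem_nil hp
    rw [h1]
    exact MeasurableSet.univ
  | cons p l ih =>
    have h1 : AvS (gaps (p :: l)) = AvS (Set.Ioc p.1 p.2) ∩ AvS (gaps l) := by
      rw [← AvS_union]
      congr 1
      ext s
      constructor
      · rintro ⟨q, hq, h1, h2⟩
        rcases List.mem_cons.1 hq with rfl | hq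
        · exact Or.inl ⟨h1, h2⟩
        · exact Or.inr ⟨q, hq, h1, h2⟩
      · rintro (h | ⟨q, hq, h1, h2⟩)
        · exact ⟨p, List.mem_cons_self, h.1, h.2⟩
        · exact ⟨q, List.mem_cons_of_mem _ hq, h1, h2⟩
    rw [h1]
    exact (measurableSet_Ioc _ _).inter ih

lemma AvS_nil : AvS (gaps []) = Set.univ := by
  ext K
  refine ⟨fun _ => trivial, fun _ s _ hs => ?_⟩
  obtain ⟨p, hp, -⟩ := hs
  exact List.not_mem_nil hp

lemma measurable_Ev (l : List (ℝ × ℝ)) (y : ℝ) : MeasurableSet (Ev (gaps l) y) :=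
  (measurable_gaps l).prod measurableSet_Ioi

/-- the first marginal on the event D > y, normalised -/
lemma slice {π π' : Measure (NC × ℝ)} [IsProbabilityMeasure π] [IsProbabilityMeasure π']
    (h1 : ∀ᵐ p : NC × ℝ ∂π, p.1 ∈ Good) (h1' : ∀ᵐ p : NC × ℝ ∂π', p.1 ∈ Good) {y : ℝ}
    (h : ∀ l, Adm l 1 → π (Ev (gaps l) y) = π' (Ev (gaps l) y)) {S : Set NC} (hS : MeasurableSet S) :
    π (S ×ˢ Set.Ioi y) = π' (S ×ˢ Set.Ioi y) := by
  have hU : ∀ m : Measure (NC × ℝ), (m.restrict (Set.univ ×ˢ Set.Ioi y)).map Prod.fst Set.univ =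
      m (Ev (gaps []) y) := by
    intro m
    rw [Measure.map_apply measurable_fst MeasurableSet.univ, Set.preimage_univ, Measure.restrict_apply_univ]
    unfold Ev
    rw [AvS_nil]
  have hval : ∀ (m : Measure (NC × ℝ)) {S : Set NC}, MeasurableSet S →
      (m.restrict (Set.univ ×ˢ Set.Ioi y)).map Prod.fst S = m (S ×ˢ Set.Ioi y) := by
    intro m S hS
    rw [Measure.map_apply measurable_fst hS, Measure.restrict_apply (measurable_fst hS)]
    congr 1
    ext p
    simp only [Set.mem_inter_iff, Set.mem_preimage, Set.mem_prod, Set.mem_univ, true_and]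
  obtain ⟨c, hc⟩ : ∃ c, c = π (Ev (gaps []) y) := ⟨_, rfl⟩
  have hc' : c = π' (Ev (gaps []) y) := by rw [hc, h [] one_pos]
  have hle : ∀ (m : Measure (NC × ℝ)) (S : Set NC), m (S ×ˢ Set.Ioi y) ≤ m (Ev (gaps []) y) := by
    intro m S
    refine measure_mono (Set.prod_mono ?_ le_rfl)
    rw [AvS_nil]
    exact Set.subset_univ _
  by_cases hc0 : c = 0
  · have e1 : π (S ×ˢ Set.Ioi y) = 0 := le_antisymm ((hle π S).trans (by rw [← hc, hc0])) zero_le
    have e2 : π' (S ×ˢ Set.Ioi y) = 0 := le_antisymm ((hle π' S).trans (by rw [← hc', hc0])) zero_le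
    rw [e1, e2]
  have hct : c ≠ ⊤ := by
    rw [hc]
    exact measure_ne_top _ _
  have hprob : ∀ m : Measure (NC × ℝ), c = m (Ev (gaps []) y) →
      IsProbabilityMeasure (c⁻¹ • (m.restrict (Set.univ ×ˢ Set.Ioi y)).map Prod.fst) := by
    intro m hm
    refine ⟨?_⟩
    rw [Measure.smul_apply, hU, ← hm, smul_eq_mul, ENNReal.inv_mul_cancel hc0 hct]
  have hgood : ∀ m : Measure (NC × ℝ), (∀ᵐ p : NC × ℝ ∂m, p.1 ∈ Good) →
      ∀ᵐ K : NC ∂(c⁻¹ • (m.restrict (Set.univ ×ˢ Set.Ioi y)).map Prod.fst), K ∈ GoodZ {0} := by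
    intro m hm
    refine Measure.ae_smul_measure ?_ c⁻¹
    refine (ae_map_iff (p := fun K => K ∈ GoodZ {0}) measurable_fst.aemeasurable
      (isClosed_GoodZ {0}).measurableSet).2 ?_
    refine ae_restrict_of_ae ?_
    filter_upwards [hm] with p hp
    exact ⟨hp.1, Set.singleton_subset_iff.2 hp.2⟩
  have h3 := uniqueZ (Z := {0}) rfl
    (ν := ⟨c⁻¹ • (π.restrict (Set.univ ×ˢ Set.Ioi y)).map Prod.fst, hprob π hc⟩)
    (ν' := ⟨c⁻¹ • (π'.restrict (Set.univ ×ˢ Set.Ioi y)).map Prod.fst, hprob π' hc'⟩) (hgood π h1) (hgood π' h1') (by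
    intro m hm A hA hd
    show (c⁻¹ • (π.restrict (Set.univ ×ˢ Set.Ioi y)).map Prod.fst) (AvC m A) =
      (c⁻¹ • (π'.restrict (Set.univ ×ˢ Set.Ioi y)).map Prod.fst) (AvC m A)
    rw [Measure.smul_apply, Measure.smul_apply, hval π (measurableSet_AvC m A), hval π' (measurableSet_AvC m A),
      AvC_eq_gaps hA]
    have := h _ (adm_cellL (Z := {0}) rfl hm hd)
    unfold Ev at this
    rw [this])
  have h4 : (c⁻¹ • (π.restrict (Set.univ ×ˢ Set.Ioi y)).map Prod.fst) S =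
      (c⁻¹ • (π'.restrict (Set.univ ×ˢ Set.Ioi y)).map Prod.fst) S :=
    congrArg (fun m : ProbabilityMeasure NC => (m : Measure NC) S) h3
  rw [Measure.smul_apply, Measure.smul_apply, hval π hS, hval π' hS, smul_eq_mul, smul_eq_mul] at h4
  have hci : c⁻¹ ≠ 0 := ENNReal.inv_ne_zero.2 hct
  have hci' : c⁻¹ ≠ ⊤ := ENNReal.inv_ne_top.2 hc0
  exact (ENNReal.mul_right_inj hci hci').1 h4

/-- the joint law is determined by the probabilities of the events -/
theorem uniq {π π' : ProbabilityMeasure (NC × ℝ)}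
    (h1 : ∀ᵐ p : NC × ℝ ∂(π : Measure (NC × ℝ)), p.1 ∈ Good ∧ 1 < p.2)
    (h1' : ∀ᵐ p : NC × ℝ ∂(π' : Measure (NC × ℝ)), p.1 ∈ Good ∧ 1 < p.2)
    (h : ∀ l y, Adm l 1 → 1 < y →
      (π : Measure (NC × ℝ)) (Ev (gaps l) y) = (π' : Measure (NC × ℝ)) (Ev (gaps l) y)) : π = π' := by
  have hy : ∀ y, 1 < y → ∀ S : Set NC, MeasurableSet S →
      (π : Measure (NC × ℝ)) (S ×ˢ Set.Ioi y) = (π' : Measure (NC × ℝ)) (S ×ˢ Set.Ioi y) := fun y hy S hS =>
    slice (h1.mono fun p hp => hp.1) (h1'.mono fun p hp => hp.1) (fun l hl => h l y hl hy) hS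
  have hone : ∀ S : Set NC, MeasurableSet S →
      (π : Measure (NC × ℝ)) (S ×ˢ Set.Ioi 1) = (π' : Measure (NC × ℝ)) (S ×ˢ Set.Ioi 1) := by
    intro S hS
    have h2 : S ×ˢ Set.Ioi (1 : ℝ) = ⋃ n : ℕ, S ×ˢ Set.Ioi (1 + 1 / ((n : ℝ) + 1)) := by
      ext p
      simp only [Set.mem_prod, Set.mem_Ioi, Set.mem_iUnion]
      constructor
      · rintro ⟨h3, h4⟩
        obtain ⟨n, hn⟩ := exists_nat_one_div_lt (sub_pos.2 h4)
        exact ⟨n, h3, by linarith⟩
      · rintro ⟨n, h3, h4⟩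
        have : (0 : ℝ) < 1 / ((n : ℝ) + 1) := by positivity
        exact ⟨h3, by linarith⟩
    have hmono : Monotone fun n : ℕ => S ×ˢ Set.Ioi (1 + 1 / ((n : ℝ) + 1)) := by
      intro m n hmn
      refine Set.prod_mono le_rfl (Set.Ioi_subset_Ioi ?_)
      have : 1 / ((n : ℝ) + 1) ≤ 1 / ((m : ℝ) + 1) := by
        have : (m : ℝ) ≤ n := by exact_mod_cast hmn
        gcongr
      linarith
    rw [h2, hmono.measure_iUnion, hmono.measure_iUnion]
    refine iSup_congr fun n => hy _ ?_ S hS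
    have : (0 : ℝ) < 1 / ((n : ℝ) + 1) := by positivity
    linarith
  have hlow : ∀ (m : Measure (NC × ℝ)), (∀ᵐ p : NC × ℝ ∂m, p.1 ∈ Good ∧ 1 < p.2) → ∀ (S : Set NC) (B : Set ℝ),
      Set.Ioi 1 ⊆ B → m (S ×ˢ B) = m (S ×ˢ Set.Ioi 1) := by
    intro m hm S B hB
    refine measure_congr ?_
    filter_upwards [hm] with p hp
    refine propext ⟨fun h3 => ⟨h3.1, hp.2⟩, fun h3 => ⟨h3.1, hB h3.2⟩⟩
  apply Subtype.ext
  show (π : Measure (NC × ℝ)) = (π' : Measure (NC × ℝ))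
  refine Measure.ext_prod ?_
  intro S B hS hB
  have hval : ∀ (m : Measure (NC × ℝ)) (B : Set ℝ), MeasurableSet B →
      (m.restrict (S ×ˢ Set.univ)).map Prod.snd B = m (S ×ˢ B) := by
    intro m B hB
    rw [Measure.map_apply measurable_snd hB, Measure.restrict_apply (measurable_snd hB)]
    congr 1
    ext p
    simp only [Set.mem_inter_iff, Set.mem_preimage, Set.mem_prod, Set.mem_univ, and_true]
    exact and_comm
  have h5 : ((π : Measure (NC × ℝ)).restrict (S ×ˢ Set.univ)).map Prod.snd =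
      ((π' : Measure (NC × ℝ)).restrict (S ×ˢ Set.univ)).map Prod.snd := by
    have htot : (π : Measure (NC × ℝ)) (S ×ˢ Set.univ) = (π' : Measure (NC × ℝ)) (S ×ˢ Set.univ) := by
      rw [hlow _ h1 S Set.univ (Set.subset_univ _), hlow _ h1' S Set.univ (Set.subset_univ _), hone S hS]
    have hIoi : ∀ a : ℝ, (π : Measure (NC × ℝ)) (S ×ˢ Set.Ioi a) = (π' : Measure (NC × ℝ)) (S ×ˢ Set.Ioi a) := by
      intro a
      rcases lt_or_ge 1 a with ha | ha
      · exact hy a ha S hS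
      · rw [hlow _ h1 S _ (Set.Ioi_subset_Ioi ha), hlow _ h1' S _ (Set.Ioi_subset_Ioi ha), hone S hS]
    refine Measure.ext_of_Iic _ _ fun a => ?_
    rw [hval _ _ measurableSet_Iic, hval _ _ measurableSet_Iic]
    have h6 : ∀ m : Measure (NC × ℝ), IsFiniteMeasure m →
        m (S ×ˢ Set.Iic a) = m (S ×ˢ Set.univ) - m (S ×ˢ Set.Ioi a) := by
      intro m hm
      have h7 : S ×ˢ Set.Iic a = (S ×ˢ Set.univ) \ (S ×ˢ Set.Ioi a) := by
        ext p
        simp only [Set.mem_prod, Set.mem_Iic, Set.mem_diff, Set.mem_univ, and_true, Set.mem_Ioi, not_and, not_lt]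
        exact ⟨fun h8 => ⟨h8.1, fun _ => h8.2⟩, fun h8 => ⟨h8.1, h8.2 h8.1⟩⟩
      rw [h7, measure_sdiff (Set.prod_mono le_rfl (Set.subset_univ _)) (hS.prod measurableSet_Ioi).nullMeasurableSet
        (measure_ne_top _ _)]
    rw [h6 _ inferInstance, h6 _ inferInstance, htot, hIoi a]
  have h6 : ((π : Measure (NC × ℝ)).restrict (S ×ˢ Set.univ)).map Prod.snd B =
      ((π' : Measure (NC × ℝ)).restrict (S ×ˢ Set.univ)).map Prod.snd B := by rw [h5]
  rwa [hval _ _ hB, hval _ _ hB] at h6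

/-- the values of the limits -/
lemma val {P : ℕ → ProbabilityMeasure (NC × ℝ)} {π : ProbabilityMeasure (NC × ℝ)} (hπ : Tendsto P atTop (𝓝 π))
    {κ : ProbabilityMeasure NC} (hκ : (π : Measure (NC × ℝ)).map Prod.fst = κ)
    (hκ0 : ∀ l, Adm l 1 → (κ : Measure NC) (AvS (opg l)) ≤ (κ : Measure NC) (AvS (clg l)))
    {A : List (ℝ × ℝ) → ℝ → ℝ}
    (hA : ∀ l, Adm l 1 → ∀ y, 1 < y →
      Tendsto (fun T => (P T : Measure (NC × ℝ)) (Ev (gaps l) y)) atTop (𝓝 (ENNReal.ofReal (A l y))))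
    (hc : ∀ y, 1 < y → ContinuousAt (A []) y) {l : List (ℝ × ℝ)} (hl : Adm l 1) {y : ℝ} (hy : 1 < y) :
    (π : Measure (NC × ℝ)) (Ev (gaps l) y) = ENNReal.ofReal (A l y) := by
  -- upper bound
  have hup : (π : Measure (NC × ℝ)) (Ev (clg l) y) ≤ ENNReal.ofReal (A l y) := by
    have hO : IsOpen (Ev (clg l) y) := (isOpen_AvS (isClosed_clg l)).prod isOpen_Ioi
    refine (ProbabilityMeasure.le_liminf_measure_open_of_tendsto hπ hO).trans ?_
    rw [← (hA l hl y hy).liminf_eq]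
    exact liminf_le_liminf (Eventually.of_forall fun T => measure_mono (Set.prod_mono (AvS_anti (gaps_sub l)) le_rfl))
  -- lower bound
  have hlow' : ∀ y', y < y' → ENNReal.ofReal (A l y') ≤ (π : Measure (NC × ℝ)) (Ev (opg l) y) := by
    intro y' hy'
    have hC : IsClosed (AvS (opg l) ×ˢ Set.Ici y') := (isClosed_AvS (isOpen_opg l)).prod isClosed_Ici
    have h1 := ProbabilityMeasure.limsup_measure_closed_le_of_tendsto hπ hC
    have h2 : ENNReal.ofReal (A l y') ≤ limsup (fun T => (P T : Measure (NC × ℝ)) (AvS (opg l) ×ˢ Set.Ici y')) atTop := by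
      rw [← (hA l hl y' (hy.trans hy')).limsup_eq]
      exact limsup_le_limsup (Eventually.of_forall fun T =>
        measure_mono (Set.prod_mono (AvS_anti (opg_sub l)) Set.Ioi_subset_Ici_self))
    refine (h2.trans h1).trans (measure_mono (Set.prod_mono le_rfl ?_))
    intro z hz
    exact lt_of_lt_of_le hy' hz
  have hdiff : ∀ y', y < y' → ENNReal.ofReal (A l y) + ENNReal.ofReal (A [] y') ≤
      ENNReal.ofReal (A l y') + ENNReal.ofReal (A [] y) := by
    intro y' hy'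
    have h1 := (hA l hl y hy).add (hA [] one_pos y' (hy.trans hy'))
    have h2 := (hA l hl y' (hy.trans hy')).add (hA [] one_pos y hy)
    refine le_of_tendsto_of_tendsto' h1 h2 fun T => ?_
    have h3 : Ev (gaps l) y ⊆ Ev (gaps l) y' ∪ (Set.univ ×ˢ Set.Ioc y y') := by
      rintro p ⟨hp1, hp2⟩
      rcases lt_or_ge y' p.2 with h | h
      · exact Or.inl ⟨hp1, h⟩
      · exact Or.inr ⟨trivial, hp2, h⟩
    have h4 : (P T : Measure (NC × ℝ)) (Ev (gaps []) y) =
        (P T : Measure (NC × ℝ)) (Set.univ ×ˢ Set.Ioc y y') + (P T : Measure (NC × ℝ)) (Ev (gaps []) y') := by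
      have h5 : Ev (gaps []) y = (Set.univ ×ˢ Set.Ioc y y') ∪ Ev (gaps []) y' := by
        unfold Ev
        rw [AvS_nil, ← Set.prod_union, Set.Ioc_union_Ioi_eq_Ioi hy'.le]
      rw [h5, measure_union]
      · unfold Ev
        rw [Set.disjoint_prod]
        exact Or.inr (Set.disjoint_left.2 fun z hz hz' => absurd hz.2 (not_le.2 hz'))
      · exact measurable_Ev [] y'
    rw [h4]
    calc (P T : Measure (NC × ℝ)) (Ev (gaps l) y) + (P T : Measure (NC × ℝ)) (Ev (gaps []) y')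
        ≤ ((P T : Measure (NC × ℝ)) (Ev (gaps l) y') + (P T : Measure (NC × ℝ)) (Set.univ ×ˢ Set.Ioc y y')) +
          (P T : Measure (NC × ℝ)) (Ev (gaps []) y') :=
          add_le_add ((measure_mono h3).trans (measure_union_le _ _)) le_rfl
      _ = _ := by rw [add_assoc]
  have hlow : ENNReal.ofReal (A l y) ≤ (π : Measure (NC × ℝ)) (Ev (opg l) y) := by
    have h1 : Tendsto (fun y' => ENNReal.ofReal (A l y) + ENNReal.ofReal (A [] y')) (𝓝[>] y)
        (𝓝 (ENNReal.ofReal (A l y) + ENNReal.ofReal (A [] y))) :=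
      tendsto_const_nhds.add ((ENNReal.continuous_ofReal.tendsto _).comp ((hc y hy).tendsto.mono_left nhdsWithin_le_nhds))
    have h2 : ENNReal.ofReal (A l y) + ENNReal.ofReal (A [] y) ≤
        (π : Measure (NC × ℝ)) (Ev (opg l) y) + ENNReal.ofReal (A [] y) := by
      refine le_of_tendsto h1 ?_
      filter_upwards [self_mem_nhdsWithin] with y' hy'
      exact (hdiff y' hy').trans (add_le_add (hlow' y' hy') le_rfl)
    exact (ENNReal.add_le_add_iff_right ENNReal.ofReal_ne_top).1 h2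
  -- the difference
  have hnull : (π : Measure (NC × ℝ)) (Ev (opg l) y) ≤ (π : Measure (NC × ℝ)) (Ev (clg l) y) := by
    have h1 : (κ : Measure NC) (AvS (opg l) \ AvS (clg l)) = 0 := by
      have hsub : AvS (clg l) ⊆ AvS (opg l) := AvS_anti ((opg_sub l).trans (gaps_sub l))
      rw [measure_sdiff hsub (isOpen_AvS (isClosed_clg l)).measurableSet.nullMeasurableSet (measure_ne_top _ _)]
      exact tsub_eq_zero_of_le (hκ0 l hl)
    have hm : MeasurableSet (AvS (opg l) \ AvS (clg l)) :=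
      (isClosed_AvS (isOpen_opg l)).measurableSet.diff (isOpen_AvS (isClosed_clg l)).measurableSet
    rw [← hκ, Measure.map_apply measurable_fst hm] at h1
    have h2 : Ev (opg l) y ⊆ Ev (clg l) y ∪ Prod.fst ⁻¹' (AvS (opg l) \ AvS (clg l)) := by
      rintro p ⟨hp1, hp2⟩
      by_cases h : p.1 ∈ AvS (clg l)
      · exact Or.inl ⟨h, hp2⟩
      · exact Or.inr ⟨hp1, h⟩
    calc (π : Measure (NC × ℝ)) (Ev (opg l) y)
        ≤ (π : Measure (NC × ℝ)) (Ev (clg l) y) +
          (π : Measure (NC × ℝ)) (Prod.fst ⁻¹' (AvS (opg l) \ AvS (clg l))) :=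
          (measure_mono h2).trans (measure_union_le _ _)
      _ = _ := by rw [h1, add_zero]
  refine le_antisymm ?_ ?_
  · exact (measure_mono (Set.prod_mono (AvS_anti (opg_sub l)) le_rfl)).trans (hnull.trans hup)
  · exact (hlow.trans hnull).trans (measure_mono (Set.prod_mono (AvS_anti (gaps_sub l)) le_rfl))

/-- THE JOINT LIMIT -/
theorem pair_limit (P : ℕ → ProbabilityMeasure (NC × ℝ))
    (hg : ∀ T, ∀ᵐ p : NC × ℝ ∂(P T : Measure (NC × ℝ)), p.1 ∈ Good ∧ 1 ≤ p.2) {κ : ProbabilityMeasure NC}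
    (hκ : Tendsto (fun T => (P T).map measurable_fst.aemeasurable) atTop (𝓝 κ))
    (hκ0 : ∀ l, Adm l 1 → (κ : Measure NC) (AvS (opg l)) ≤ (κ : Measure NC) (AvS (clg l)))
    {A : List (ℝ × ℝ) → ℝ → ℝ}
    (hA : ∀ l, Adm l 1 → ∀ y, 1 < y →
      Tendsto (fun T => (P T : Measure (NC × ℝ)) (Ev (gaps l) y)) atTop (𝓝 (ENNReal.ofReal (A l y))))
    (hc : ∀ y, 1 < y → ContinuousAt (A []) y) (h1 : Tendsto (A []) (𝓝[>] 1) (𝓝 1))
    (hinf : Tendsto (A []) atTop (𝓝 0)) :
    ∃ π : ProbabilityMeasure (NC × ℝ), Tendsto P atTop (𝓝 π) ∧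
      (∀ᵐ p : NC × ℝ ∂(π : Measure (NC × ℝ)), p.1 ∈ Good ∧ 1 < p.2) ∧
      (∀ l, Adm l 1 → ∀ y, 1 < y → (π : Measure (NC × ℝ)) (Ev (gaps l) y) = ENNReal.ofReal (A l y)) ∧
      (π : Measure (NC × ℝ)).map Prod.fst = κ ∧
      ∀ π' : ProbabilityMeasure (NC × ℝ), (∀ᵐ p : NC × ℝ ∂(π' : Measure (NC × ℝ)), p.1 ∈ Good ∧ 1 < p.2) →
        (∀ l, Adm l 1 → ∀ y, 1 < y → (π' : Measure (NC × ℝ)) (Ev (gaps l) y) = ENNReal.ofReal (A l y)) → π' = π := by
  -- tightness
  have htail : ∀ ε : ℝ≥0∞, 0 < ε → ∃ M : ℝ, ∀ T, (P T : Measure (NC × ℝ)) (Set.univ ×ˢ Set.Ioi M) ≤ ε := by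
    intro ε hε
    have hE : ∀ M : ℝ, (Set.univ ×ˢ Set.Ioi M : Set (NC × ℝ)) = Ev (gaps []) M := fun M => by
      unfold Ev
      rw [AvS_nil]
    have hsingle : ∀ T, ∃ M : ℝ, (P T : Measure (NC × ℝ)) (Set.univ ×ˢ Set.Ioi M) ≤ ε := by
      intro T
      have hanti : Antitone fun n : ℕ => (Set.univ ×ˢ Set.Ioi (n : ℝ) : Set (NC × ℝ)) := by
        intro m n hmn
        exact Set.prod_mono le_rfl (Set.Ioi_subset_Ioi (by exact_mod_cast hmn))
      have h := tendsto_measure_iInter_atTop (μ := (P T : Measure (NC × ℝ)))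
        (fun n => (MeasurableSet.univ.prod measurableSet_Ioi).nullMeasurableSet) hanti ⟨0, measure_ne_top _ _⟩
      have hem : ⋂ n : ℕ, (Set.univ ×ˢ Set.Ioi (n : ℝ) : Set (NC × ℝ)) = ∅ := by
        rw [Set.eq_empty_iff_forall_notMem]
        intro p hp
        obtain ⟨n, hn⟩ := exists_nat_ge p.2
        have h2 : (n : ℝ) < p.2 := (Set.mem_iInter.1 hp n).2
        linarith
      rw [hem, measure_empty] at h
      obtain ⟨n, hn⟩ := (h.eventually (ge_mem_nhds hε)).exists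
      exact ⟨n, hn⟩
    have h2 : Tendsto (fun y => ENNReal.ofReal (A [] y)) atTop (𝓝 0) := by
      have := (ENNReal.continuous_ofReal.tendsto 0).comp hinf
      rwa [ENNReal.ofReal_zero] at this
    obtain ⟨M0, hM0, hM1⟩ := ((h2.eventually (gt_mem_nhds hε)).and (eventually_gt_atTop 1)).exists
    obtain ⟨T0, hT0⟩ := eventually_atTop.1 ((hA [] one_pos M0 hM1).eventually (ge_mem_nhds hM0))
    choose f hf using hsingle
    obtain ⟨M2, hM2⟩ := ((Finset.range T0).image f).exists_le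
    refine ⟨max M0 M2, fun T => ?_⟩
    rcases lt_or_ge T T0 with h | h
    · refine (measure_mono (Set.prod_mono le_rfl (Set.Ioi_subset_Ioi ?_))).trans (hf T)
      exact (hM2 _ (Finset.mem_image_of_mem f (Finset.mem_range.2 h))).trans (le_max_right _ _)
    · refine (measure_mono (Set.prod_mono le_rfl (Set.Ioi_subset_Ioi (le_max_left M0 M2)))).trans ?_
      rw [hE]
      exact hT0 T h
  have ht : IsTightMeasureSet {((σ : ProbabilityMeasure (NC × ℝ)) : Measure (NC × ℝ)) | σ ∈ Set.range P} := by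
    rw [isTightMeasureSet_iff_exists_isCompact_measure_compl_le]
    intro ε hε
    obtain ⟨M, hM⟩ := htail ε hε
    refine ⟨{K : NC | (K : Set ℝ) ⊆ Set.Icc 0 1} ×ˢ Set.Icc 1 M,
      (NonemptyCompacts.isCompact_subsets_of_isCompact isCompact_Icc).prod isCompact_Icc, ?_⟩
    rintro _ ⟨σ, ⟨T, rfl⟩, rfl⟩
    refine (measure_mono_ae ?_).trans (hM T)
    filter_upwards [hg T] with p hp hp'
    refine ⟨trivial, ?_⟩
    by_contra hcon
    exact hp' ⟨hp.1.1, hp.2, not_lt.1 hcon⟩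
  have hcpt := isCompact_closure_of_isTightMeasureSet ht
  have hsub : ∀ ns : ℕ → ℕ, ∃ ms : ℕ → ℕ, StrictMono ms ∧ ∃ π : ProbabilityMeasure (NC × ℝ),
      Tendsto (fun k => P (ns (ms k))) atTop (𝓝 π) := by
    intro ns
    obtain ⟨π, -, ms, hms, hlim⟩ := hcpt.tendsto_subseq (x := fun k => P (ns k)) (fun k => subset_closure ⟨_, rfl⟩)
    exact ⟨ms, hms, π, hlim⟩
  -- properties of the limits
  have hprop : ∀ {ns : ℕ → ℕ} {π : ProbabilityMeasure (NC × ℝ)}, Tendsto ns atTop atTop →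
      Tendsto (fun k => P (ns k)) atTop (𝓝 π) →
      (∀ᵐ p : NC × ℝ ∂(π : Measure (NC × ℝ)), p.1 ∈ Good ∧ 1 < p.2) ∧
      (∀ l, Adm l 1 → ∀ y, 1 < y → (π : Measure (NC × ℝ)) (Ev (gaps l) y) = ENNReal.ofReal (A l y)) ∧
      (π : Measure (NC × ℝ)).map Prod.fst = κ := by
    intro ns π hns hπ
    have e1 : π.map measurable_fst.aemeasurable = κ :=
      tendsto_nhds_unique (ProbabilityMeasure.tendsto_map_of_tendsto_of_continuous _ π hπ continuous_fst)
        (hκ.comp hns)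
    have e2 : (π : Measure (NC × ℝ)).map Prod.fst = κ := congrArg (fun m : ProbabilityMeasure NC => (m : Measure NC)) e1
    have e3 : ∀ l, Adm l 1 → ∀ y, 1 < y → (π : Measure (NC × ℝ)) (Ev (gaps l) y) = ENNReal.ofReal (A l y) :=
      fun l hl y hy => val hπ e2 hκ0 (fun l hl y hy => (hA l hl y hy).comp hns) hc hl hy
    refine ⟨?_, e3, e2⟩
    have e4 : ∀ᵐ p : NC × ℝ ∂(π : Measure (NC × ℝ)), p.1 ∈ Good := by
      have hcl : IsClosed {p : NC × ℝ | p.1 ∈ Good} := isClosed_Good.preimage continuous_fst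
      rw [ae_iff]
      refine le_antisymm ((ProbabilityMeasure.le_liminf_measure_open_of_tendsto hπ hcl.isOpen_compl).trans ?_) zero_le
      refine liminf_le_of_frequently_le' (Eventually.frequently (Eventually.of_forall fun k => le_of_eq ?_))
      exact ae_iff.1 ((hg (ns k)).mono fun p hp => hp.1)
    have e5 : ∀ᵐ p : NC × ℝ ∂(π : Measure (NC × ℝ)), 1 < p.2 := by
      have h2 : Tendsto (fun y => ENNReal.ofReal (A [] y)) (𝓝[>] 1) (𝓝 1) := by
        have := (ENNReal.continuous_ofReal.tendsto 1).comp h1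
        rwa [ENNReal.ofReal_one] at this
      have h3 : (1 : ℝ≥0∞) ≤ (π : Measure (NC × ℝ)) {p : NC × ℝ | 1 < p.2} := by
        refine le_of_tendsto h2 ?_
        filter_upwards [self_mem_nhdsWithin] with y hy
        rw [← e3 [] one_pos y hy]
        refine measure_mono fun p hp => ?_
        have h4 : y < p.2 := hp.2
        have h5 : (1 : ℝ) < y := hy
        exact h5.trans h4
      have hm : MeasurableSet {p : NC × ℝ | 1 < p.2} := measurableSet_lt measurable_const measurable_snd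
      rw [ae_iff]
      have h4 : {p : NC × ℝ | ¬ 1 < p.2} = {p : NC × ℝ | 1 < p.2}ᶜ := rfl
      rw [h4]
      exact (prob_compl_eq_zero_iff hm).2 (le_antisymm prob_le_one h3)
    filter_upwards [e4, e5] with p h4 h5
    exact ⟨h4, h5⟩
  obtain ⟨ms, hms, π, hπ⟩ := hsub (fun n => n)
  have hp := hprop hms.tendsto_atTop hπ
  have huq : ∀ π' : ProbabilityMeasure (NC × ℝ), (∀ᵐ p : NC × ℝ ∂(π' : Measure (NC × ℝ)), p.1 ∈ Good ∧ 1 < p.2) →
        (∀ l, Adm l 1 → ∀ y, 1 < y → (π' : Measure (NC × ℝ)) (Ev (gaps l) y) = ENNReal.ofReal (A l y)) → π' = π := by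
    intro π' h2 h3
    refine uniq h2 hp.1 fun l y hl hy => ?_
    rw [h3 l hl y hy, hp.2.1 l hl y hy]
  refine ⟨π, ?_, hp.1, hp.2.1, hp.2.2, huq⟩
  refine tendsto_of_subseq_tendsto fun ns hns => ?_
  obtain ⟨ms', hms', π', hπ'⟩ := hsub ns
  have hp' := hprop (hns.comp hms'.tendsto_atTop) hπ'
  refine ⟨ms', ?_⟩
  rw [← huq π' hp'.1 hp'.2.1]
  exact hπ'

end CutJ
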