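import Pool.Agent.CutJ.J1
import Pool.Agent.CutJ.J3a

/-! CUTJ, J3: the joint limit law of the rescaled cut levels up to T and of the rescaled last level of the half plane walk;
the law of the height of the end point of every limit curve. -/

set_option autoImplicit false

namespace CutJ

open Filter Topology Finset MeasureTheory TopologicalSpace HexObs CutLim

open CutR3 (fw gp Ad rho)

open scoped ENNReal

/-- the last level divided by T -/
noncomputable def topv (T : ℕ) (t : List Bool) : ℝ := (lev t t.length : ℝ) / 3 / T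

lemma topv_eq {T j : ℕ} {t : List Bool} (ht : t ∈ Brd j) : topv T t = (j : ℝ) / T := by
  unfold topv
  rw [(mem_Brd.1 ht).2.2.2]
  push_cast
  ring

/-- the joint law of the cut levels up to T and of the last level -/
noncomputable def pl (T : ℕ) : ProbabilityMeasure (NC × ℝ) :=
  ⟨((lawK T).map fun t => (cutset T t, topv T t)).toMeasure, inferInstance⟩

lemma pl_apply (T : ℕ) {S : Set (NC × ℝ)} (hS : MeasurableSet S) :
    (pl T : Measure (NC × ℝ)) S = gf {t | t ∈ FCW T ∧ (cutset T t, topv T t) ∈ S} := by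
  show ((lawK T).map fun t => (cutset T t, topv T t)).toMeasure S = _
  rw [PMF.toMeasure_apply_eq_toOuterMeasure_apply _ hS, PMF.toOuterMeasure_map_apply, PMF.toOuterMeasure_apply]
  unfold gf
  rw [tsum_subtype {t | t ∈ FCW T ∧ (cutset T t, topv T t) ∈ S} wE]
  refine tsum_congr fun t => ?_
  show ((fun t => (cutset T t, topv T t)) ⁻¹' S).indicator ((FCW T).indicator wE) t = _
  rw [Set.indicator_indicator]
  have h : (fun t => (cutset T t, topv T t)) ⁻¹' S ∩ FCW T = {t | t ∈ FCW T ∧ (cutset T t, topv T t) ∈ S} := by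
    ext x
    exact and_comm
  rw [h]

lemma pl_fst (T : ℕ) : (pl T : Measure (NC × ℝ)).map Prod.fst = lawS T := by
  ext S hS
  rw [Measure.map_apply measurable_fst hS, pl_apply T (measurable_fst hS), lawS_apply T hS]
  rfl

lemma pl_good {T : ℕ} (hT : 1 ≤ T) : ∀ᵐ p : NC × ℝ ∂(pl T : Measure (NC × ℝ)), p.1 ∈ Good ∧ 1 ≤ p.2 := by
  have hcl : IsClosed {p : NC × ℝ | p.1 ∈ Good ∧ 1 ≤ p.2} :=
    (isClosed_Good.preimage continuous_fst).inter (isClosed_le continuous_const continuous_snd)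
  rw [ae_iff]
  have h0 : {p : NC × ℝ | ¬ (p.1 ∈ Good ∧ 1 ≤ p.2)} = {p : NC × ℝ | p.1 ∈ Good ∧ 1 ≤ p.2}ᶜ := rfl
  rw [h0, pl_apply T hcl.measurableSet.compl]
  have h1 : {t | t ∈ FCW T ∧ (cutset T t, topv T t) ∈ {p : NC × ℝ | p.1 ∈ Good ∧ 1 ≤ p.2}ᶜ} = ∅ := by
    rw [Set.eq_empty_iff_forall_notMem]
    rintro t ⟨⟨j, hj⟩, h2⟩
    apply h2
    refine ⟨cutset_unit t, ?_⟩
    show 1 ≤ topv T t
    have hT' : (0 : ℝ) < T := by exact_mod_cast hT
    rw [topv_eq hj.1, one_le_div hT']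
    exact_mod_cast hj.2.1
  rw [h1]
  unfold gf
  simp

/-- the probabilities of the events -/
lemma pl_Ev {T : ℕ} (hT : 1 ≤ T) {l : List (ℝ × ℝ)} (hl : Adm l 1) {y : ℝ} (hy : 1 < y) :
    (pl T : Measure (NC × ℝ)) (Ev (gaps l) y) =
      ENNReal.ofReal (∑ c ∈ range T, fw kk (gp l T) c * KK kk (⌊y * (T : ℝ)⌋₊ + 1 - c)) := by
  have hT' : (0 : ℝ) < T := by exact_mod_cast hT
  have hfl : T ≤ ⌊y * (T : ℝ)⌋₊ := by
    apply Nat.le_floor
    nlinarith
  rw [pl_apply T (measurable_Ev l y)]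
  have h := gf_FCW_noCut (avs_AvSeq (gp l T)) hT (show T ≤ ⌊y * (T : ℝ)⌋₊ + 1 by omega)
  have h1 : {t | t ∈ FCW T ∧ (cutset T t, topv T t) ∈ Ev (gaps l) y} =
      {t | ∃ j, ⌊y * (T : ℝ)⌋₊ + 1 ≤ j ∧ t ∈ FC T j ∧ NoCut (gp l T) T t} := by
    ext t
    constructor
    · rintro ⟨⟨j, hj⟩, h2, h3⟩
      have h4 : y < topv T t := h3
      rw [topv_eq hj.1, lt_div_iff₀ hT'] at h4
      have h5 := (mem_gaps_iff hT (fun p hp => (adm_mem hl p hp).1) t).1 h2
      exact ⟨j, Nat.succ_le_of_lt ((Nat.floor_lt (by positivity)).2 h4), hj, fun c hc h6 h7 => h5 c h6 h7.le hc⟩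
    · rintro ⟨j, h2, hj, h3⟩
      refine ⟨⟨j, hj⟩, (mem_gaps_iff hT (fun p hp => (adm_mem hl p hp).1) t).2 ?_, ?_⟩
      · intro c hc1 hc2 hc3
        rcases Nat.lt_or_ge c T with h4 | h4
        · exact h3 c hc3 hc1 h4
        · exact hj.2.2 c h4 (by omega)
      · show y < topv T t
        rw [topv_eq hj.1, lt_div_iff₀ hT']
        exact (Nat.floor_lt (by positivity)).1 (by omega)
  rw [h1, h]
  congr 1
  refine Finset.sum_congr rfl fun c _ => ?_
  rw [avs_eq_fw]
  rfl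

section

variable {b : ℝ}

lemma lim_Ev (hb : 0 < b) (hu : Tendsto (fun n : ℕ => (n : ℝ) ^ (1 / 4 : ℝ) * uu n) atTop (𝓝 b)) {l : List (ℝ × ℝ)}
    (hl : Adm l 1) {y : ℝ} (hy : 1 < y) :
    Tendsto (fun T => (pl T : Measure (NC × ℝ)) (Ev (gaps l) y)) atTop (𝓝 (ENNReal.ofReal (AH ((1, y) :: l)))) := by
  have hu' : Tendsto (fun n : ℕ => (n : ℝ) ^ (1 - 3 / 4 : ℝ) * uu n) atTop (𝓝 b) := by
    have he : (1 : ℝ) - 3 / 4 = 1 / 4 := by norm_num
    rw [he]
    exact hu
  have ha : (0 : ℝ) < 3 / 4 := by norm_num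
  have ha1 : (3 / 4 : ℝ) < 1 := by norm_num
  have h1 := CutR3.tail_lim ren_uu ha ha1 (ct_pos ha ha1 hb) hu' (KK_tendsto ren_uu ha ha1 hb hu') (Ad_of_Adm hl)
    hy.le (T := fun n => n) tendsto_id
  have h2 : Avl (3 / 4) b (ct (3 / 4) b) ((1, y) :: l) = AH ((1, y) :: l) := Avl_scale hb.ne' _
  have h3 : (∫ r in (0 : ℝ)..1, rho (3 / 4) b (ct (3 / 4) b) l r * (ct (3 / 4) b * (y - r) ^ (-(3 / 4) : ℝ))) =
      AH ((1, y) :: l) := h2
  rw [h3] at h1
  have hu0 : Tendsto (fun n : ℕ => uu n) atTop (𝓝 0) := by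
    have h4 : Tendsto (fun n : ℕ => (n : ℝ) ^ (-(1 / 4) : ℝ)) atTop (𝓝 0) :=
      (tendsto_rpow_neg_atTop (by norm_num : (0 : ℝ) < 1 / 4)).comp tendsto_natCast_atTop_atTop
    have h5 := h4.mul hu
    rw [zero_mul] at h5
    refine h5.congr' ?_
    filter_upwards [eventually_ge_atTop 1] with n hn
    have hn' : (0 : ℝ) < n := by exact_mod_cast hn
    rw [← mul_assoc, ← Real.rpow_add hn', neg_add_cancel, Real.rpow_zero, one_mul]
  have h4 : Tendsto (fun T : ℕ => fw kk (gp l T) T * KK kk (⌊y * (T : ℝ)⌋₊ + 1 - T)) atTop (𝓝 0) := by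
    refine squeeze_zero (fun T => mul_nonneg (CutR3.fw_nonneg ren_uu _ _) (KK_nonneg ren_uu _)) (fun T => ?_) hu0
    calc fw kk (gp l T) T * KK kk (⌊y * (T : ℝ)⌋₊ + 1 - T) ≤ uu T * 1 :=
          mul_le_mul (CutR3.fw_le ren_uu _ _) (KK_le_one ren_uu _) (KK_nonneg ren_uu _) (u_nonneg ren_uu T)
      _ = uu T := mul_one _
  have h5 : Tendsto (fun T : ℕ => ∑ c ∈ range T, fw kk (gp l T) c * KK kk (⌊y * (T : ℝ)⌋₊ + 1 - c)) atTop
      (𝓝 (AH ((1, y) :: l))) := by
    have h6 := h1.sub h4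
    rw [sub_zero] at h6
    refine h6.congr fun T => ?_
    rw [one_mul, Nat.floor_natCast, Finset.sum_range_succ]
    ring
  refine ((ENNReal.continuous_ofReal.tendsto _).comp h5).congr' ?_
  filter_upwards [eventually_ge_atTop 1] with T hT
  exact (pl_Ev hT hl hy).symm

/-- one gap beyond 1 -/
lemma AH_one (hb : 0 < b) (hu : Tendsto (fun n : ℕ => (n : ℝ) ^ (1 / 4 : ℝ) * uu n) atTop (𝓝 b)) {x y : ℝ}
    (hx : 0 < x) (hxy : x < y) : AH [(x, y)] = hh (x / y) := by
  have hu' : Tendsto (fun n : ℕ => (n : ℝ) ^ (1 - 3 / 4 : ℝ) * uu n) atTop (𝓝 b) := by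
    have he : (1 : ℝ) - 3 / 4 = 1 / 4 := by norm_num
    rw [he]
    exact hu
  have h1 := Avl_one ren_uu (by norm_num : (0 : ℝ) < 3 / 4) (by norm_num) hb hu' hx hxy
  have h2 : Avl (3 / 4) b (ct (3 / 4) b) [(x, y)] = AH [(x, y)] := Avl_scale hb.ne' _
  rw [← h2, h1, gamma_const]
  unfold hh
  have e1 : (3 / 4 : ℝ) - 1 = -(1 / 4) := by norm_num
  rw [e1]

lemma hh_zero : hh 0 = 0 := by
  unfold hh
  rw [intervalIntegral.integral_same, mul_zero]

/-- THE JOINT LIMIT LAW of the cut levels up to T and of the last level -/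
theorem pair (hb : 0 < b) (hu : Tendsto (fun n : ℕ => (n : ℝ) ^ (1 / 4 : ℝ) * uu n) atTop (𝓝 b))
    {κ : ProbabilityMeasure NC} (hκ : Tendsto PS atTop (𝓝 κ))
    (hκ0 : ∀ l, Adm l 1 → ((κ : Measure NC) (AvS (gaps l))).toReal = AH l ∧
        ((κ : Measure NC) (AvS (opg l))).toReal = AH l ∧ ((κ : Measure NC) (AvS (clg l))).toReal = AH l) :
    ∃ π : ProbabilityMeasure (NC × ℝ), Tendsto pl atTop (𝓝 π) ∧
      (∀ᵐ p : NC × ℝ ∂(π : Measure (NC × ℝ)), p.1 ∈ Good ∧ 1 < p.2) ∧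
      (∀ l, Adm l 1 → ∀ y, 1 < y → (π : Measure (NC × ℝ)) (Ev (gaps l) y) = ENNReal.ofReal (AH ((1, y) :: l))) ∧
      (π : Measure (NC × ℝ)).map Prod.fst = κ ∧
      ∀ π' : ProbabilityMeasure (NC × ℝ), (∀ᵐ p : NC × ℝ ∂(π' : Measure (NC × ℝ)), p.1 ∈ Good ∧ 1 < p.2) →
        (∀ l, Adm l 1 → ∀ y, 1 < y → (π' : Measure (NC × ℝ)) (Ev (gaps l) y) = ENNReal.ofReal (AH ((1, y) :: l))) →
        π' = π := by
  have hhc : ∀ z : ℝ, 0 < z → z < 1 → ContinuousAt hh z := fun z h1 h2 =>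
    hh_cont.continuousAt (Icc_mem_nhds h1 h2)
  have hone : Tendsto (fun y : ℝ => AH [(1, y)]) (𝓝[>] 1) (𝓝 1) := by
    have hu' : Tendsto (fun n : ℕ => (n : ℝ) ^ (1 - 3 / 4 : ℝ) * uu n) atTop (𝓝 b) := by
      have he : (1 : ℝ) - 3 / 4 = 1 / 4 := by norm_num
      rw [he]
      exact hu
    have h1 := Avl_cont ren_uu (by norm_num : (0 : ℝ) < 3 / 4) (by norm_num) hb hu' (one_pos : (0 : ℝ) < 1)
      (L := 𝓝[>] (1 : ℝ)) (x := fun _ => 1) (y := fun y => y) tendsto_const_nhds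
      (tendsto_id.mono_left nhdsWithin_le_nhds) (by
        filter_upwards [self_mem_nhdsWithin] with y hy
        exact le_of_lt hy)
    refine h1.congr fun y => ?_
    rw [Avl_scale hb.ne']
    rfl
  obtain ⟨π, h1, h2, h3, h4, h5⟩ := pair_limit (fun T => pl (max T 1)) (fun T => pl_good (le_max_right T 1))
    (κ := κ) (by
      have h1 : ∀ T, (pl (max T 1)).map measurable_fst.aemeasurable = PS (max T 1) := fun T =>
        Subtype.ext (pl_fst _)
      have h2 : Tendsto (fun T : ℕ => max T 1) atTop atTop := tendsto_atTop_mono (fun T => le_max_left T 1) tendsto_id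
      exact (hκ.comp h2).congr fun T => (h1 T).symm) (by
      intro l hl
      have h1 := hκ0 l hl
      refine (ENNReal.toReal_le_toReal (measure_ne_top _ _) (measure_ne_top _ _)).1 ?_
      rw [h1.2.1, h1.2.2]) (A := fun l y => AH ((1, y) :: l)) (by
      intro l hl y hy
      refine (lim_Ev hb hu hl hy).congr' ?_
      filter_upwards [eventually_ge_atTop 1] with T hT
      rw [max_eq_left hT]) (by
      intro y hy
      have h1 : ContinuousAt (fun y : ℝ => hh (1 / y)) y := by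
        refine ContinuousAt.comp (f := fun y : ℝ => 1 / y) (g := hh) (hhc _ (by positivity) ?_) ?_
        · rw [div_lt_one (by linarith)]
          exact hy
        · exact continuousAt_const.div continuousAt_id (by linarith)
      refine h1.congr ?_
      filter_upwards [lt_mem_nhds hy] with z hz
      exact (AH_one hb hu one_pos hz).symm) hone (by
      have h1 : Tendsto (fun y : ℝ => hh (1 / y)) atTop (𝓝 0) := by
        have h2 : Tendsto hh (𝓝[Set.Icc 0 1] 0) (𝓝 (hh 0)) := hh_cont 0 ⟨le_rfl, zero_le_one⟩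
        rw [hh_zero] at h2
        refine h2.comp ?_
        refine tendsto_nhdsWithin_iff.2 ⟨?_, ?_⟩
        · have := tendsto_inv_atTop_zero (𝕜 := ℝ)
          refine this.congr fun y => ?_
          rw [one_div]
        · filter_upwards [eventually_ge_atTop 1] with y hy
          exact ⟨by positivity, by rw [div_le_one (by linarith)]; exact hy⟩
      refine h1.congr' ?_
      filter_upwards [eventually_gt_atTop 1] with z hz
      exact (AH_one hb hu one_pos hz).symm)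
  refine ⟨π, ?_, h2, h3, h4, h5⟩
  refine h1.congr' ?_
  filter_upwards [eventually_ge_atTop 1] with T hT
  rw [max_eq_left hT]

/-- J1 + J3: every limit curve is coupled with the random set K of the limit of the cut levels, such that all points of K
are cut levels of the curve; the pair (K, height of the end point) has the explicit law. -/
theorem joint_top (hb : 0 < b) (hu : Tendsto (fun n : ℕ => (n : ℝ) ^ (1 / 4 : ℝ) * uu n) atTop (𝓝 b))
    {X : ℕ → List Bool → C(unitInterval, ℂ)} {μ : ℕ → ProbabilityMeasure C(unitInterval, ℂ)}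
    {φ : ℕ → ℕ} {ν : ProbabilityMeasure C(unitInterval, ℂ)}
    (hX : ∀ T t, ∃ r : unitInterval ≃ₜ unitInterval, Monotone r ∧ ∀ u, X T t u = curve T t (r u))
    (htight : IsTightMeasureSet {ν : Measure C(unitInterval, ℂ) | ∃ T, 1 ≤ T ∧ ν = μ T})
    (hμ : ∀ T, (μ T : Measure C(unitInterval, ℂ)) = ((lawK T).map (X T)).toMeasure)
    (hφ : Tendsto φ atTop atTop) (hν : Tendsto (fun k => μ (φ k)) atTop (𝓝 ν)) :
    ∃ π : ProbabilityMeasure (C(unitInterval, ℂ) × NC), ∃ ψ : ℕ → ℕ, StrictMono ψ ∧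
      Tendsto (fun k => jl X (φ (ψ k))) atTop (𝓝 π) ∧
      (π : Measure (C(unitInterval, ℂ) × NC)).map Prod.fst = ν ∧
      (∀ᵐ p ∂(π : Measure (C(unitInterval, ℂ) × NC)), ∀ h ∈ p.2, CutLevel p.1 (3 / 2 * h)) ∧
      ∃ ρ : ProbabilityMeasure (NC × ℝ), Tendsto pl atTop (𝓝 ρ) ∧
        (π : Measure (C(unitInterval, ℂ) × NC)).map (fun p => (p.2, 2 / 3 * (p.1 1).im)) = ρ ∧
        (∀ l, Adm l 1 → ∀ y, 1 < y → (ρ : Measure (NC × ℝ)) (Ev (gaps l) y) = ENNReal.ofReal (AH ((1, y) :: l))) := by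
  obtain ⟨κ, k1, k2, k3, -⟩ := half_limit hb hu
  obtain ⟨π, ψ, hψ, h1, h2, h3, h4⟩ := joint hX hμ htight hφ hν k1
  obtain ⟨ρ, r1, r2, r3, r4, -⟩ := pair hb hu k1 k3
  refine ⟨π, ψ, hψ, h1, h2, h4, ρ, r1, ?_, r3⟩
  have hcont : Continuous fun p : C(unitInterval, ℂ) × NC => (p.2, 2 / 3 * (p.1 1).im) :=
    continuous_snd.prodMk (continuous_const.mul (Complex.continuous_im.comp ((continuous_eval_const 1).comp
      continuous_fst)))
  have h5 := ProbabilityMeasure.tendsto_map_of_tendsto_of_continuous _ π h1 hcont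
  have h6 : ∀ T, 1 ≤ T → (jl X T).map hcont.measurable.aemeasurable = pl T := by
    intro T hT
    apply Subtype.ext
    show (jl X T : Measure (C(unitInterval, ℂ) × NC)).map _ = (pl T : Measure (NC × ℝ))
    ext S hS
    rw [Measure.map_apply hcont.measurable hS, jl_apply T (hcont.measurable hS), pl_apply T hS]
    have key : ∀ t j, t ∈ FC T j → 2 / 3 * (X T t 1).im = topv T t := by
      intro t j hj
      obtain ⟨r, hr, hXr⟩ := hX T t
      rw [hXr, Touch.r_one hr]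
      unfold curve
      rw [Tight.poly_one, Touch.im_div, (mem_Brd.1 hj.1).2.2.2, topv_eq hj.1]
      push_cast
      ring
    congr 1
    ext t
    constructor
    · rintro ⟨⟨j, hj⟩, h7⟩
      refine ⟨⟨j, hj⟩, ?_⟩
      have h8 : (cutset T t, 2 / 3 * (X T t 1).im) ∈ S := h7
      rwa [key t j hj] at h8
    · rintro ⟨⟨j, hj⟩, h7⟩
      refine ⟨⟨j, hj⟩, ?_⟩
      show (cutset T t, 2 / 3 * (X T t 1).im) ∈ S
      rwa [key t j hj]
  have h7 : Tendsto (fun k => (jl X (φ (ψ k))).map hcont.measurable.aemeasurable) atTop (𝓝 ρ) := by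
    have h8 := hφ.comp hψ.tendsto_atTop
    refine (r1.comp h8).congr' ?_
    filter_upwards [h8.eventually_ge_atTop 1] with k hk
    exact (h6 _ hk).symm
  exact congrArg (fun m : ProbabilityMeasure (NC × ℝ) => (m : Measure (NC × ℝ))) (tendsto_nhds_unique h5 h7)

/-- J3: the law of the height of the end point of every limit curve -/
theorem top_law (hb : 0 < b) (hu : Tendsto (fun n : ℕ => (n : ℝ) ^ (1 / 4 : ℝ) * uu n) atTop (𝓝 b))
    {X : ℕ → List Bool → C(unitInterval, ℂ)} {μ : ℕ → ProbabilityMeasure C(unitInterval, ℂ)}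
    {φ : ℕ → ℕ} {ν : ProbabilityMeasure C(unitInterval, ℂ)}
    (hX : ∀ T t, ∃ r : unitInterval ≃ₜ unitInterval, Monotone r ∧ ∀ u, X T t u = curve T t (r u))
    (htight : IsTightMeasureSet {ν : Measure C(unitInterval, ℂ) | ∃ T, 1 ≤ T ∧ ν = μ T})
    (hμ : ∀ T, (μ T : Measure C(unitInterval, ℂ)) = ((lawK T).map (X T)).toMeasure)
    (hφ : Tendsto φ atTop atTop) (hν : Tendsto (fun k => μ (φ k)) atTop (𝓝 ν)) {y : ℝ} (hy : 1 < y) :
    (ν : Measure C(unitInterval, ℂ)) {f | 3 / 2 * y < (f 1).im} = ENNReal.ofReal (hh (1 / y)) := by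
  obtain ⟨π, ψ, -, -, h2, -, ρ, -, h4, h5⟩ := joint_top hb hu hX htight hμ hφ hν
  have hcont : Continuous fun p : C(unitInterval, ℂ) × NC => (p.2, 2 / 3 * (p.1 1).im) :=
    continuous_snd.prodMk (continuous_const.mul (Complex.continuous_im.comp ((continuous_eval_const 1).comp
      continuous_fst)))
  have h6 := h5 [] one_pos y hy
  rw [AH_one hb hu one_pos hy, ← h4, Measure.map_apply hcont.measurable (measurable_Ev [] y)] at h6
  rw [← h6, ← h2, Measure.map_apply measurable_fst]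
  · congr 1
    ext p
    unfold Ev
    rw [AvS_nil]
    constructor
    · intro h7
      have h8 : 3 / 2 * y < (p.1 1).im := h7
      refine ⟨trivial, ?_⟩
      show y < 2 / 3 * (p.1 1).im
      linarith
    · rintro ⟨-, h7⟩
      have h8 : y < 2 / 3 * (p.1 1).im := h7
      show 3 / 2 * y < (p.1 1).im
      linarith
  · exact (isOpen_lt continuous_const (Complex.continuous_im.comp (continuous_eval_const 1))).measurableSet

end

end CutJ
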