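import Pool.Agent.CutJ.Lists
import Pool.Agent.CutLim.Dim9

/-! CUTJ: the clauses for the limit curves: every limit curve has a set of cut levels with the properties of the limit set;
in particular the dimension of its cut levels is at least 3/4. -/

set_option autoImplicit false

namespace CutJ

open Filter Topology MeasureTheory TopologicalSpace HexObs CutLim

open scoped ENNReal

/-- almost every first coordinate has a related second coordinate with an almost sure property -/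
theorem ae_exists {E F : Type*} [MetricSpace E] [MeasurableSpace E] [BorelSpace E]
    [MetricSpace F] [MeasurableSpace F] [BorelSpace F] [SecondCountableTopology F] [CompleteSpace F]
    {π : Measure (E × F)} [IsProbabilityMeasure π] {R : Set (E × F)} (hR : IsClosed R) (hπ : ∀ᵐ p ∂π, p ∈ R)
    {D : F → Prop} (hD : ∀ᵐ y ∂(π.map Prod.snd), D y) : ∀ᵐ x ∂(π.map Prod.fst), ∃ y, D y ∧ (x, y) ∈ R := by
  have hprob : IsProbabilityMeasure (π.map Prod.snd) := Measure.isProbabilityMeasure_map measurable_snd.aemeasurable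
  have hprob1 : IsProbabilityMeasure (π.map Prod.fst) := Measure.isProbabilityMeasure_map measurable_fst.aemeasurable
  obtain ⟨N, hN1, hN2, hN3⟩ := exists_measurable_superset (π.map Prod.snd) {y | ¬ D y}
  have hN0 : (π.map Prod.snd) N = 0 := by
    rw [hN3]
    exact ae_iff.1 hD
  have hN4 : (π.map Prod.snd) Nᶜ = 1 := (prob_compl_eq_one_iff hN2).2 hN0
  have hin := innerRegular_isCompact_isClosed_measurableSet_of_finite (π.map Prod.snd)
  have h1 : ∀ n : ℕ, ∃ K : Set F, K ⊆ Nᶜ ∧ IsCompact K ∧ IsClosed K ∧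
      ENNReal.ofReal (1 - 1 / ((n : ℝ) + 2)) < (π.map Prod.snd) K := by
    intro n
    have h2 : ENNReal.ofReal (1 - 1 / ((n : ℝ) + 2)) < (π.map Prod.snd) Nᶜ := by
      rw [hN4, ENNReal.ofReal_lt_one]
      have : (0 : ℝ) < 1 / ((n : ℝ) + 2) := by positivity
      linarith
    obtain ⟨K, hK1, hK2, hK3⟩ := hin hN2.compl _ h2
    exact ⟨K, hK1, hK2.1, hK2.2, hK3⟩
  choose K hK1 hK2 hK3 hK4 using h1
  have hG : ∀ n, IsClosed {x : E | ∃ y ∈ K n, (x, y) ∈ R} := by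
    intro n
    have : CompactSpace (K n) := isCompact_iff_compactSpace.1 (hK2 n)
    have hS : IsClosed {p : E × K n | (p.1, (p.2 : F)) ∈ R} :=
      hR.preimage (continuous_fst.prodMk (continuous_subtype_val.comp continuous_snd))
    have h2 := isClosedMap_fst_of_compactSpace (X := E) (Y := K n) _ hS
    have h3 : {x : E | ∃ y ∈ K n, (x, y) ∈ R} = Prod.fst '' {p : E × K n | (p.1, (p.2 : F)) ∈ R} := by
      ext x
      constructor
      · rintro ⟨y, hy, h4⟩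
        exact ⟨(x, ⟨y, hy⟩), h4, rfl⟩
      · rintro ⟨⟨x', y⟩, h4, rfl⟩
        exact ⟨y, y.2, h4⟩
    rw [h3]
    exact h2
  have hval : ∀ n, (π.map Prod.fst) {x : E | ∃ y ∈ K n, (x, y) ∈ R}ᶜ ≤ ENNReal.ofReal (1 / ((n : ℝ) + 2)) := by
    intro n
    have h2 : ENNReal.ofReal (1 - 1 / ((n : ℝ) + 2)) ≤ (π.map Prod.fst) {x : E | ∃ y ∈ K n, (x, y) ∈ R} := by
      rw [Measure.map_apply measurable_fst (hG n).measurableSet]
      refine (hK4 n).le.trans ?_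
      rw [Measure.map_apply measurable_snd (hK3 n).measurableSet]
      refine measure_mono_ae ?_
      filter_upwards [hπ] with p hp hp2
      exact ⟨p.2, hp2, hp⟩
    rw [prob_compl_eq_one_sub (hG n).measurableSet, tsub_le_iff_right]
    have h3 : (1 : ℝ≥0∞) = ENNReal.ofReal (1 / ((n : ℝ) + 2)) + ENNReal.ofReal (1 - 1 / ((n : ℝ) + 2)) := by
      have h4 : (0 : ℝ) ≤ 1 - 1 / ((n : ℝ) + 2) := by
        rw [sub_nonneg, div_le_one (by positivity)]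
        have : (0 : ℝ) ≤ n := Nat.cast_nonneg n
        linarith
      rw [← ENNReal.ofReal_add (by positivity) h4, ← ENNReal.ofReal_one]
      congr 1
      ring
    calc (1 : ℝ≥0∞) = ENNReal.ofReal (1 / ((n : ℝ) + 2)) + ENNReal.ofReal (1 - 1 / ((n : ℝ) + 2)) := h3
      _ ≤ _ := add_le_add le_rfl h2
  rw [ae_iff]
  have h5 : ∀ n : ℕ, (π.map Prod.fst) {x | ¬ ∃ y, D y ∧ (x, y) ∈ R} ≤ ENNReal.ofReal (1 / ((n : ℝ) + 2)) := by
    intro n
    refine (measure_mono ?_).trans (hval n)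
    intro x hx hx'
    obtain ⟨y, hy1, hy2⟩ := hx'
    refine hx ⟨y, ?_, hy2⟩
    by_contra hcon
    exact hK1 n hy1 (hN1 hcon)
  have h6 : Tendsto (fun n : ℕ => ENNReal.ofReal (1 / ((n : ℝ) + 2))) atTop (𝓝 0) := by
    have h7 : Tendsto (fun n : ℕ => 1 / ((n : ℝ) + 2)) atTop (𝓝 0) := by
      have h8 : Tendsto (fun n : ℕ => (n : ℝ) + 2) atTop atTop := tendsto_atTop_add_const_right _ _ tendsto_natCast_atTop_atTop
      refine h8.inv_tendsto_atTop.congr fun n => ?_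
      rw [Pi.inv_apply, one_div]
    have := (ENNReal.continuous_ofReal.tendsto 0).comp h7
    rwa [ENNReal.ofReal_zero] at this
  exact le_antisymm (ge_of_tendsto' h6 h5) zero_le

lemma dim_scale {K : NC} {f : C(unitInterval, ℂ)} (hK : ∀ h ∈ K, CutLevel f (3 / 2 * h)) {r : ℝ}
    (h : dimH ((K : Set ℝ) ∩ Set.Icc 0 (2 / 3 * r)) = ((3 / 4 : NNReal) : ℝ≥0∞)) :
    ((3 / 4 : NNReal) : ℝ≥0∞) ≤ dimH {h : ℝ | h ∈ Set.Icc 0 r ∧ CutLevel f h} := by
  have h1 : LipschitzWith (2 / 3) (fun x : ℝ => 2 / 3 * x) := by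
    refine LipschitzWith.of_dist_le_mul fun x y => ?_
    rw [Real.dist_eq, Real.dist_eq, ← mul_sub, abs_mul]
    have h2 : |(2 / 3 : ℝ)| = ((2 / 3 : NNReal) : ℝ) := by
      rw [abs_of_pos (by norm_num)]
      push_cast
      rfl
    rw [h2]
  rw [← h]
  refine le_trans (dimH_mono ?_) (h1.dimH_image_le {h : ℝ | h ∈ Set.Icc 0 r ∧ CutLevel f h})
  rintro x ⟨hx1, hx2, hx3⟩
  refine ⟨3 / 2 * x, ⟨⟨by linarith, by linarith⟩, hK x hx1⟩, ?_⟩
  show 2 / 3 * (3 / 2 * x) = x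
  ring

/-- THE CLAUSES FOR THE LIMIT CURVES -/
theorem clauses {b : ℝ} (hb : 0 < b) (hu : Tendsto (fun n : ℕ => (n : ℝ) ^ (1 / 4 : ℝ) * uu n) atTop (𝓝 b)) :
    ∃ κ : Measure (NC × ℝ), IsProbabilityMeasure κ ∧
      (∀ f : BoundedContinuousFunction (NC × ℝ) ℝ,
        Tendsto (fun T => ∫ x, f x ∂(pl T : Measure (NC × ℝ))) atTop (𝓝 (∫ x, f x ∂κ))) ∧
      (∀ᵐ p : NC × ℝ ∂κ, (p.1 : Set ℝ) ⊆ Set.Icc 0 1 ∧ 0 ∈ p.1 ∧ 1 < p.2 ∧
        ∀ r : ℝ, 0 < r → dimH ((p.1 : Set ℝ) ∩ Set.Icc 0 r) = ((3 / 4 : NNReal) : ℝ≥0∞)) ∧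
      (∀ l y, Adm l 1 → 1 < y → κ (Ev (gaps l) y) = ENNReal.ofReal (AH ((1, y) :: l))) ∧
      (∀ κ' : Measure (NC × ℝ), IsProbabilityMeasure κ' →
        (∀ᵐ p : NC × ℝ ∂κ', (p.1 : Set ℝ) ⊆ Set.Icc 0 1 ∧ 0 ∈ p.1 ∧ 1 < p.2) →
        (∀ l y, Adm l 1 → 1 < y → κ' (Ev (gaps l) y) = ENNReal.ofReal (AH ((1, y) :: l))) → κ' = κ) ∧
      ∀ {X : ℕ → List Bool → C(unitInterval, ℂ)} {μ : ℕ → ProbabilityMeasure C(unitInterval, ℂ)}
        {φ : ℕ → ℕ} {ν : ProbabilityMeasure C(unitInterval, ℂ)},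
        (∀ T t, ∃ r : unitInterval ≃ₜ unitInterval, Monotone r ∧ ∀ u, X T t u = curve T t (r u)) →
        (∀ T, (μ T : Measure C(unitInterval, ℂ)) = ((lawK T).map (X T)).toMeasure) →
        IsTightMeasureSet {ν : Measure C(unitInterval, ℂ) | ∃ T, 1 ≤ T ∧ ν = μ T} →
        Tendsto φ atTop atTop → Tendsto (fun k => μ (φ k)) atTop (𝓝 ν) →
        (∃ π : Measure (C(unitInterval, ℂ) × NC), IsProbabilityMeasure π ∧
          π.map Prod.fst = (ν : Measure C(unitInterval, ℂ)) ∧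
          (∀ᵐ p ∂π, ∀ h ∈ p.2, CutLevel p.1 (3 / 2 * h)) ∧
          π.map (fun p => (p.2, 2 / 3 * (p.1 1).im)) = κ) ∧
        (∀ᵐ f ∂(ν : Measure C(unitInterval, ℂ)), ∃ K : NC, ((K : Set ℝ) ⊆ Set.Icc 0 1 ∧ 0 ∈ K ∧
          ∀ r : ℝ, 0 < r → dimH ((K : Set ℝ) ∩ Set.Icc 0 r) = ((3 / 4 : NNReal) : ℝ≥0∞)) ∧
          ∀ h ∈ K, CutLevel f (3 / 2 * h)) ∧
        (∀ᵐ f ∂(ν : Measure C(unitInterval, ℂ)), ∀ r : ℝ, 0 < r →
          ((3 / 4 : NNReal) : ℝ≥0∞) ≤ dimH {h : ℝ | h ∈ Set.Icc 0 r ∧ CutLevel f h}) ∧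
        (∀ l, Adm l 1 → (ν : Measure C(unitInterval, ℂ)) {f | ∀ h, CutLevel f h → ∀ p ∈ l,
          ¬ (3 / 2 * p.1 ≤ h ∧ h ≤ 3 / 2 * p.2)} ≤ ENNReal.ofReal (AH l)) ∧
        ∀ y : ℝ, 1 < y → (ν : Measure C(unitInterval, ℂ)) {f | 3 / 2 * y < (f 1).im} = ENNReal.ofReal (hh (1 / y)) := by
  obtain ⟨κ, k1, k2, k3, -⟩ := half_limit hb hu
  obtain ⟨ρ, p1, p2, p3, p4, p5⟩ := pair hb hu k1 k3
  have hdim : ∀ᵐ p : NC × ℝ ∂(ρ : Measure (NC × ℝ)), (p.1 : Set ℝ) ⊆ Set.Icc 0 1 ∧ 0 ∈ p.1 ∧ 1 < p.2 ∧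
      ∀ r : ℝ, 0 < r → dimH ((p.1 : Set ℝ) ∩ Set.Icc 0 r) = ((3 / 4 : NNReal) : ℝ≥0∞) := by
    have hd := dim_half hb hu k1
    rw [← p4] at hd
    have hd' := ae_of_ae_map measurable_fst.aemeasurable hd
    filter_upwards [p2, hd'] with p h1 h2
    exact ⟨h1.1.1, h1.1.2, h1.2, h2.2⟩
  refine ⟨ρ, inferInstance, ProbabilityMeasure.tendsto_iff_forall_integral_tendsto.1 p1, hdim,
    fun l y hl hy => p3 l hl y hy, ?_, ?_⟩
  · intro κ' hκ' h1 h2
    have h3 := p5 ⟨κ', hκ'⟩ (h1.mono fun p hp => ⟨⟨hp.1, hp.2.1⟩, hp.2.2⟩) (fun l hl y hy => h2 l y hl hy)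
    exact congrArg (fun m : ProbabilityMeasure (NC × ℝ) => (m : Measure (NC × ℝ))) h3
  · intro X μ φ ν hX hμ htight hφ hν
    obtain ⟨π, ψ, -, -, h2, h3, ρ', r1, h4, h5⟩ := joint_top hb hu hX htight hμ hφ hν
    have hρ : ρ' = ρ := tendsto_nhds_unique r1 p1
    rw [hρ] at h4
    have hcont : Continuous fun p : C(unitInterval, ℂ) × NC => (p.2, 2 / 3 * (p.1 1).im) :=
      continuous_snd.prodMk (continuous_const.mul (Complex.continuous_im.comp ((continuous_eval_const 1).comp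
        continuous_fst)))
    have h6 : (π : Measure (C(unitInterval, ℂ) × NC)).map Prod.snd = κ := by
      rw [← p4, ← h4, Measure.map_map measurable_fst hcont.measurable]
      rfl
    have hex : ∀ᵐ f ∂(ν : Measure C(unitInterval, ℂ)), ∃ K : NC, ((K : Set ℝ) ⊆ Set.Icc 0 1 ∧ 0 ∈ K ∧
          ∀ r : ℝ, 0 < r → dimH ((K : Set ℝ) ∩ Set.Icc 0 r) = ((3 / 4 : NNReal) : ℝ≥0∞)) ∧
          ∀ h ∈ K, CutLevel f (3 / 2 * h) := by
      rw [← h2]
      refine ae_exists (R := {p : C(unitInterval, ℂ) × NC | ∀ h ∈ p.2, CutLevel p.1 (3 / 2 * h)}) closed_rel h3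
        (D := fun K : NC => (K : Set ℝ) ⊆ Set.Icc 0 1 ∧ 0 ∈ K ∧
          ∀ r : ℝ, 0 < r → dimH ((K : Set ℝ) ∩ Set.Icc 0 r) = ((3 / 4 : NNReal) : ℝ≥0∞)) ?_
      rw [h6]
      filter_upwards [k2, dim_half hb hu k1] with K h7 h8
      exact ⟨h7.1, h7.2 rfl, h8.2⟩
    refine ⟨⟨π, inferInstance, h2, h3, h4⟩, hex, ?_, ?_, fun y hy => top_law hb hu hX htight hμ hφ hν hy⟩
    · filter_upwards [hex] with f hf r hr
      obtain ⟨K, hK, hK'⟩ := hf
      exact dim_scale hK' (hK.2.2 (2 / 3 * r) (by positivity))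
    · intro l hl
      have hcl : IsClosed (⋃ p ∈ {p | p ∈ l}, {f : C(unitInterval, ℂ) |
          ∃ h ∈ Set.Icc (3 / 2 * p.1) (3 / 2 * p.2), CutLevel f h}) :=
        (List.finite_toSet l).isClosed_biUnion fun p _ => Touch.closed_cut _ _
      have hS : {f : C(unitInterval, ℂ) | ∀ h, CutLevel f h → ∀ p ∈ l, ¬ (3 / 2 * p.1 ≤ h ∧ h ≤ 3 / 2 * p.2)} =
          (⋃ p ∈ {p | p ∈ l}, {f : C(unitInterval, ℂ) |
            ∃ h ∈ Set.Icc (3 / 2 * p.1) (3 / 2 * p.2), CutLevel f h})ᶜ := by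
        ext f
        simp only [Set.mem_ofPred_eq, Set.mem_compl_iff, Set.mem_iUnion, not_exists, not_and, Set.mem_Icc]
        constructor
        · intro h7 p hp h h8 h9
          exact h7 h h9 p hp h8.1 h8.2
        · intro h7 h h9 p hp h10 h11
          exact h7 p hp h ⟨h10, h11⟩ h9
      rw [hS, ← h2, Measure.map_apply measurable_fst hcl.isOpen_compl.measurableSet, ← hS]
      have h7 := (k3 l hl).2.2
      have h8 : (κ : Measure NC) (AvS (clg l)) = ENNReal.ofReal (AH l) := by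
        rw [← h7, ENNReal.ofReal_toReal (measure_ne_top _ _)]
      rw [← h8, ← h6, Measure.map_apply measurable_snd (isOpen_AvS (isClosed_clg l)).measurableSet]
      refine measure_mono_ae ?_
      filter_upwards [h3] with p hp hp2
      intro x hx hx2
      obtain ⟨q, hq, hq1, hq2⟩ := hx2
      have h9 : ∀ h, CutLevel p.1 h → ∀ p' ∈ l, ¬ (3 / 2 * p'.1 ≤ h ∧ h ≤ 3 / 2 * p'.2) := hp2
      exact h9 _ (hp x hx) q hq ⟨by linarith, by linarith⟩

end CutJ
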