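import Pool.Agent.CutJ.J3b
import Pool.Agent.CutLim.I
import Pool.Agent.CutH.Lists

/-! CUTJ: list forms; the explicit recursion for the avoidance probabilities. -/

set_option autoImplicit false

namespace HexObs.CC

open MeasureTheory TopologicalSpace

open scoped ENNReal

/-- the row of the last site -/
def topL (L : List (ℤ × ℤ)) : ℤ := (L.getLast?.getD (0, 0)).2

lemma topL_toL {j : ℕ} (hj : 1 ≤ j) {t : List Bool} (ht : t ∈ Brd j) : topL (toL oo t) = j := by
  obtain ⟨b, hb, -⟩ := crossing_toL hj lv_oo (brd_out.1 ht)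
  have h : (toL oo t).getLast? = some (b, (j : ℤ)) := hb.2.2.2.2.1
  unfold topL
  rw [h]
  exact rfl

/-- the joint law of the cut rows up to T and of the last row, lists -/
theorem pl_lists {T : ℕ} (hT : 1 ≤ T) :
    (Measure.sum fun L : {L : List (ℤ × ℤ) // Stop T L} =>
      wt L.1 • Measure.dirac (cutsL T L.1, (topL L.1 : ℝ) / T)) = (CutJ.pl T : Measure (CutLim.NC × ℝ)) := by
  classical
  ext S hS
  rw [Measure.sum_apply _ hS, CutJ.pl_apply T hS, ← (wordEquiv hT).tsum_eq]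
  unfold gf
  rw [tsum_subtype {t | t ∈ FCW T ∧ (CutLim.cutset T t, CutJ.topv T t) ∈ S} wE]
  have e : ∀ t : {t : List Bool // t ∈ FCW T},
      (wt (wordEquiv hT t).1 • Measure.dirac (cutsL T (wordEquiv hT t).1, (topL (wordEquiv hT t).1 : ℝ) / T)) S =
      (fun t : List Bool => if (CutLim.cutset T t, CutJ.topv T t) ∈ S then wE t else 0) t.1 := by
    intro t
    obtain ⟨j, hj⟩ := t.2
    rw [wordEquiv_coe, wt_toL, ← cutset_toL hT hj.2.1 hj.1, topL_toL (hT.trans hj.2.1) hj.1, Measure.smul_apply,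
      Measure.dirac_apply' _ hS, smul_eq_mul]
    have h1 : (((j : ℕ) : ℤ) : ℝ) / T = CutJ.topv T t.1 := by
      rw [CutJ.topv_eq hj.1]
      push_cast
      rfl
    rw [h1]
    by_cases hx : (CutLim.cutset T t.1, CutJ.topv T t.1) ∈ S
    · rw [Set.indicator_of_mem hx, Pi.one_apply, mul_one]
      exact (if_pos hx).symm
    · rw [Set.indicator_of_notMem hx, mul_zero]
      exact (if_neg hx).symm
  rw [tsum_congr e]
  rw [tsum_subtype (FCW T) (fun t : List Bool => if (CutLim.cutset T t, CutJ.topv T t) ∈ S then wE t else 0)]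
  refine tsum_congr fun t => ?_
  by_cases h1 : t ∈ FCW T
  · rw [Set.indicator_of_mem h1]
    by_cases h2 : (CutLim.cutset T t, CutJ.topv T t) ∈ S
    · rw [if_pos h2, Set.indicator_of_mem (show t ∈ {t | t ∈ FCW T ∧ (CutLim.cutset T t, CutJ.topv T t) ∈ S} from ⟨h1, h2⟩)]
    · rw [if_neg h2, Set.indicator_of_notMem
        (fun h3 : t ∈ {t | t ∈ FCW T ∧ (CutLim.cutset T t, CutJ.topv T t) ∈ S} => h2 h3.2)]
  · rw [Set.indicator_of_notMem h1, Set.indicator_of_notMem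
      (fun h3 : t ∈ {t | t ∈ FCW T ∧ (CutLim.cutset T t, CutJ.topv T t) ∈ S} => h1 h3.1)]

end HexObs.CC

namespace CutJ

open Filter Topology MeasureTheory CutLim

open CutR3 (Ad rho)

/-- the explicit density: the head of the list is the rightmost gap -/
noncomputable def dens : List (ℝ × ℝ) → ℝ → ℝ
  | [], s => s ^ (-(1 / 4) : ℝ)
  | p :: l, s => if s ≤ p.1 then dens l s else if s ≤ p.2 then 0 else
      1 / (Real.pi * Real.sqrt 2) * ∫ r in (0 : ℝ)..p.1, dens l r * (((s - p.2) / (p.2 - r)) ^ (3 / 4 : ℝ) / (s - r))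

/-- the explicit avoidance probability, half plane -/
noncomputable def avH : List (ℝ × ℝ) → ℝ
  | [] => 1
  | p :: l => 1 / (Real.pi * Real.sqrt 2) * ∫ r in (0 : ℝ)..p.1, dens l r * (p.2 - r) ^ (-(3 / 4) : ℝ)

lemma ct_val : ct (3 / 4) 1 = 1 / (Real.pi * Real.sqrt 2) := by
  rw [ct_one, ← gamma_const, Real.Gamma_mul_Gamma_one_sub, inv_div]

theorem dens_eq : ∀ (l : List (ℝ × ℝ)), (∃ r, Ad l r) → ∀ s, dens l s = rh (3 / 4) l s
  | [], _, s => by
    show s ^ (-(1 / 4) : ℝ) = 1 * s ^ ((3 / 4 : ℝ) - 1)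
    rw [one_mul, show ((3 / 4 : ℝ) - 1) = -(1 / 4) by norm_num]
  | p :: l, ⟨r0, hr0⟩, s => by
    have ih := dens_eq l ⟨p.1, hr0.2.2⟩
    have hm := rho_main (a := 3 / 4) (by norm_num) (by norm_num) (p :: l) ⟨r0, hr0⟩
    show (if s ≤ p.1 then dens l s else if s ≤ p.2 then 0 else
      1 / (Real.pi * Real.sqrt 2) * ∫ r in (0 : ℝ)..p.1, dens l r * (((s - p.2) / (p.2 - r)) ^ (3 / 4 : ℝ) / (s - r))) = _
    by_cases h1 : s ≤ p.1
    · rw [if_pos h1, ih]
      exact (if_pos h1).symm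
    · rw [if_neg h1]
      by_cases h2 : s ≤ p.2
      · rw [if_pos h2]
        show 0 = (if s ≤ p.1 then rh (3 / 4) l s else if s ≤ p.2 then 0 else _)
        rw [if_neg h1, if_pos h2]
      · rw [if_neg h2, hm.2.2.2 p l rfl s (not_le.1 h2), ← intervalIntegral.integral_const_mul]
        refine intervalIntegral.integral_congr fun r _ => ?_
        show 1 / (Real.pi * Real.sqrt 2) * (dens l r * (((s - p.2) / (p.2 - r)) ^ (3 / 4 : ℝ) / (s - r))) =
          rh (3 / 4) l r * KJ (3 / 4) r s p.2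
        rw [ih]
        unfold KJ
        rw [ct_val]
        ring

theorem avH_eq {l : List (ℝ × ℝ)} (hl : ∃ r, Ad l r) : avH l = AH l := by
  cases l with
  | nil => rfl
  | cons p l =>
    obtain ⟨r0, hr0⟩ := hl
    show 1 / (Real.pi * Real.sqrt 2) * (∫ r in (0 : ℝ)..p.1, dens l r * (p.2 - r) ^ (-(3 / 4) : ℝ)) =
      ∫ r in (0 : ℝ)..p.1, rho (3 / 4) 1 (ct (3 / 4) 1) l r * (ct (3 / 4) 1 * (p.2 - r) ^ (-(3 / 4) : ℝ))
    rw [← intervalIntegral.integral_const_mul]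
    refine intervalIntegral.integral_congr fun r _ => ?_
    show 1 / (Real.pi * Real.sqrt 2) * (dens l r * (p.2 - r) ^ (-(3 / 4) : ℝ)) =
      rho (3 / 4) 1 (ct (3 / 4) 1) l r * (ct (3 / 4) 1 * (p.2 - r) ^ (-(3 / 4) : ℝ))
    rw [dens_eq l ⟨p.1, hr0.2.2⟩, ← ct_val]
    show ct (3 / 4) 1 * (rho (3 / 4) 1 (ct (3 / 4) 1) l r * (p.2 - r) ^ (-(3 / 4) : ℝ)) = _
    ring

theorem AB_eq {l : List (ℝ × ℝ)} (hl : ∃ r, Ad l r) : AB l = dens l 1 := (dens_eq l hl 1).symm

end CutJ
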