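import Pool.Agent.CutJ.ZDefs

/-!
CUTJ, J4, module Z4: only countably many cut levels of a continuous curve are not simple.
-/

set_option autoImplicit false

namespace CutJ

open HexObs TopologicalSpace

/-- deterministic: only countably many cut levels are not simple -/
theorem not_simple_countable (f : C(unitInterval, ℂ)) : {h : ℝ | CutLevel f h ∧ ¬ Simple f h}.Countable := by
  obtain ⟨Q, hQc, hQd⟩ := exists_countable_dense unitInterval
  -- running maxima and future minima at the points of Q
  have h1 : {h : ℝ | CutLevel f h ∧ ¬ Simple f h} ⊆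
      (fun q : unitInterval => sSup ((fun u => (f u).im) '' Set.Iic q)) '' Q ∪
      (fun q : unitInterval => sInf ((fun u => (f u).im) '' Set.Ici q)) '' Q := by
    rintro h ⟨hc, hs⟩
    have hcont : Continuous fun u => (f u).im := Complex.continuous_im.comp f.continuous
    unfold Simple at hs
    push Not at hs
    obtain ⟨u, v, w, huv, hvw, hu, hw, hv⟩ := hs hc
    obtain ⟨u0, hlo, hhi⟩ := hc
    rcases lt_or_gt_of_ne hv with hlt | hgt
    · left
      have hv0 : v < u0 := by
        by_contra hcon
        exact absurd (hhi v (not_lt.1 hcon)) (not_le.2 hlt)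
      have huv' : u < v := by
        rcases huv.lt_or_eq with h' | h'
        · exact h'
        · rw [h'] at hu
          exact absurd hu hv
      have hopen : IsOpen ({x | (f x).im < h} ∩ Set.Ioo u u0) :=
        (isOpen_lt hcont continuous_const).inter isOpen_Ioo
      obtain ⟨q, hqQ, hq1, hq2⟩ := hQd.exists_mem_open hopen ⟨v, hlt, huv', hv0⟩
      refine ⟨q, hqQ, ?_⟩
      apply le_antisymm
      · refine csSup_le (Set.Nonempty.image _ ⟨u, hq2.1.le⟩) ?_
        rintro _ ⟨x, hx, rfl⟩
        exact hlo x (le_trans hx hq2.2.le)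
      · apply le_csSup
        · refine ⟨h, ?_⟩
          rintro _ ⟨x, hx, rfl⟩
          exact hlo x (le_trans hx hq2.2.le)
        · exact ⟨u, hq2.1.le, hu⟩
    · right
      have hv0 : u0 < v := by
        by_contra hcon
        exact absurd (hlo v (not_lt.1 hcon)) (not_le.2 hgt)
      have hvw' : v < w := by
        rcases hvw.lt_or_eq with h' | h'
        · exact h'
        · rw [← h'] at hw
          exact absurd hw hv
      have hopen : IsOpen ({x | h < (f x).im} ∩ Set.Ioo u0 w) :=
        (isOpen_lt continuous_const hcont).inter isOpen_Ioo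
      obtain ⟨q, hqQ, hq1, hq2⟩ := hQd.exists_mem_open hopen ⟨v, hgt, hv0, hvw'⟩
      refine ⟨q, hqQ, ?_⟩
      apply le_antisymm
      · apply csInf_le
        · refine ⟨h, ?_⟩
          rintro _ ⟨x, hx, rfl⟩
          exact hhi x (le_trans hq2.1.le hx)
        · exact ⟨w, hq2.2.le, hw⟩
      · refine le_csInf (Set.Nonempty.image _ ⟨w, hq2.2.le⟩) ?_
        rintro _ ⟨x, hx, rfl⟩
        exact hhi x (le_trans hq2.1.le hx)
  exact ((hQc.image _).union (hQc.image _)).mono h1

end CutJ
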