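import Pool.Agent.CutJ.J1
import Pool.Agent.SDN.Dim1Defs

/-!
CUTJ, J4 (the cut levels of the limit curves): definitions.
-/

set_option autoImplicit false

namespace CutJ

open HexObs TS SDN

/-- the cut level h is simple: the curve is below h, then on the height h, then above h -/
def Simple (f : C(unitInterval, ℂ)) (h : ℝ) : Prop :=
  CutLevel f h ∧ ∀ u v w : unitInterval, u ≤ v → v ≤ w → (f u).im = h → (f w).im = h → (f v).im = h

/-- half plane walks with a zig-zag A, D, C: the depth d of the zig-zag is less than 2 ^ k, there is no cut at less than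
2 ^ e rows under or over the zig-zag: A ends with a piece I of height more than 2 ^ e and a bridge M of height at most d, C
starts with a bridge X of height at most d and a piece P of height more than 2 ^ e; Z is the rest of the walk -/
def ZS (T N k e : ℕ) : Set (List Bool) := {t | ∃ (A I M D X P Z : List Bool) (a i m d x p : ℕ),
  A ∈ Brd a ∧ a ≤ N ∧ I ∈ Irr i ∧ 2 ^ e < i ∧ M ∈ Brd m ∧ m ≤ d ∧ D ∈ Brd d ∧ 1 ≤ d ∧ d < 2 ^ k ∧
  X ∈ Brd x ∧ x ≤ d ∧ P ∈ Irr p ∧ 2 ^ e < p ∧ p ≤ N ∧ Z ∈ FCW (T + d - (a + i + m + x + p)) ∧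
  LFold (A ++ (I ++ M)) D ∧ LFold D (X ++ (P ++ Z)) ∧ t = unf [A ++ (I ++ M), D, X ++ (P ++ Z)]}

/-- the walk t is pinched between the times i0 ≤ i1 around the level 3 a: up to i1 it is below 3 a + w, from i0 on above
3 a - w; once it has reached the level 3 a - w it stays above 3 a - w' up to i0; it is below 3 a + w' from i1 on until it
leaves the levels below 3 a + w -/
structure Pinch (t : List Bool) (a w w' : ℤ) (i0 i1 : ℕ) : Prop where
  le : i0 ≤ i1
  len : i1 ≤ t.length
  hi : ∀ s, s ≤ i1 → lev t s < 3 * a + w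
  lo : ∀ s, i0 ≤ s → s ≤ t.length → 3 * a - w < lev t s
  dn : ∀ s s', s ≤ s' → s' ≤ i0 → lev t s ≤ 3 * a - w ∨ 3 * a - w' < lev t s'
  up : ∀ s s', i1 ≤ s' → s' ≤ s → s ≤ t.length → 3 * a + w ≤ lev t s ∨ lev t s' < 3 * a + w'

end CutJ
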