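import Pool.Agent.CutJ.ZNormB
import Pool.Agent.CutJ.ZDefs
import Pool.Agent.SDN.TvLaw
import Pool.Agent.SDN.CleanFin
import Pool.Agent.SDN.ZigZag
import Pool.Agent.Tight.Touch0

/-!
CUTJ, J4, module Z2, part C: the walks with a small zig-zag between two giants.
-/

set_option autoImplicit false

namespace CutJ

open HexObs Finset TS SDN

open scoped ENNReal

open Classical in
lemma tn {Y : Type*} (A : Set (List Bool)) (F : List Bool → Y → ℝ≥0∞) :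
    (∑' x : List Bool × Y, (if x.1 ∈ A then wE x.1 * F x.1 x.2 else 0)) = Rec8.sw A (fun a => ∑' y, F a y) := by
  rw [ENNReal.tsum_prod', Rec8.sw_ind]
  refine tsum_congr fun a => ?_
  by_cases ha : a ∈ A
  · simp only [if_pos ha]
    rw [ENNReal.tsum_mul_left]
  · simp only [if_neg ha]
    exact tsum_zero

/-- chains of three leaves and the rest of the walk -/
lemma cov4 (S A : Set (List Bool)) (B : List Bool → Set (List Bool)) (E : List Bool → List Bool → Set (List Bool))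
    (Z : List Bool → List Bool → List Bool → Set (List Bool)) (G : List Bool → ℝ≥0∞)
    (h : ∀ t ∈ S, ∃ a ∈ A, ∃ b ∈ B a, ∃ c ∈ E a b, ∃ z ∈ Z a b c, t = unf [a, b, c ++ z] ∧ a ≠ [] ∧ b ≠ [] ∧ c ≠ [] ∧
      1 ≤ G c) :
    gf S ≤ Rec8.sw A (fun a => Rec8.sw (B a) (fun b => Rec8.sw (E a b) (fun c => G c * gf (Z a b c)))) := by
  classical
  have e1 : ∀ a b c : List Bool, G c * gf (Z a b c) =
      ∑' z : List Bool, (if z ∈ Z a b c then wE z * G c else 0) := by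
    intro a b c
    rw [← Rec8.sw_ind, SDN.NX_const, mul_comm]
  simp only [e1]
  simp only [← tn]
  rw [← Rec8.sw_one]
  refine Rec8.sw_cover S (fun _ => 1) _ (fun x => unf [x.1, x.2.1, x.2.2.1 ++ x.2.2.2]) ?_
  intro t ht
  obtain ⟨a, ha, b, hb, c, hc, z, hz, rfl, na, nb', nc, hG⟩ := h t ht
  refine ⟨(a, (b, (c, z))), rfl, ?_⟩
  simp only [ha, hb, hc, hz, if_true, mul_one]
  refine (TvL.wE_unf_le (gs := [a, b, c ++ z]) (by simp) ?_).trans ?_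
  · intro g hg
    simp only [List.mem_cons, List.not_mem_nil, or_false] at hg
    rcases hg with rfl | rfl | rfl
    · exact na
    · exact nb'
    · intro h0
      exact nc (List.append_eq_nil_iff.1 h0).1
  · unfold SDN.wl
    simp only [List.map_cons, List.map_nil, List.prod_cons, List.prod_nil, mul_one]
    rw [wE_append]
    calc wE a * (wE b * (wE c * wE z)) ≤ wE a * (wE b * (wE c * (wE z * G c))) := by
          gcongr
          calc wE z = wE z * 1 := (mul_one _).symm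
            _ ≤ _ := mul_le_mul_right hG _
      _ = _ := rfl

/-- the walks with a zig-zag of depth in [lo, hi) between two giants -/
def ZD (T N e lo hi : ℕ) : Set (List Bool) := {t | ∃ (A I M D X P Z : List Bool) (a i m d x p : ℕ),
  A ∈ Brd a ∧ a ≤ N ∧ I ∈ Irr i ∧ 2 ^ e < i ∧ M ∈ Brd m ∧ m ≤ d ∧ D ∈ Brd d ∧ 1 ≤ d ∧ lo ≤ d ∧ d < hi ∧
  X ∈ Brd x ∧ x ≤ d ∧ P ∈ Irr p ∧ 2 ^ e < p ∧ p ≤ N ∧ Z ∈ FCW (T + d - (a + i + m + x + p)) ∧
  LFold (A ++ (I ++ M)) D ∧ LFold D (X ++ (P ++ Z)) ∧ t = unf [A ++ (I ++ M), D, X ++ (P ++ Z)]}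

lemma ne_of_Brd {n : ℕ} {t : List Bool} (h : t ∈ Brd n) (hn : 1 ≤ n) : t ≠ [] := by
  rintro rfl
  have := Brd_height h nil_mem_Brd
  omega

/-- one scale -/
lemma zd_le : ∃ K : ℝ, 1 ≤ K ∧ ∀ T N e i : ℕ, i ≤ e → 2 ^ (i + 4) ≤ 2 ^ e →
    gf (ZD T N e (2 ^ (i + 4)) (2 ^ (i + 5))) ≤
      ENNReal.ofReal (K * (UU N / (Ub e * Ub e)) * (Ub i * (2 : ℝ) ^ (kap0 / 4 * ((e : ℝ) - i)))) := by
  obtain ⟨C, δ, hI⟩ := inp_exists
  obtain ⟨K1, hK1, h1⟩ := firstG hI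
  obtain ⟨K2, hK2, h2⟩ := two_scale
  obtain ⟨K3, hK3, h3⟩ := lastG hI
  refine ⟨32 * K1 * K2 * K3, by nlinarith [mul_nonneg (by linarith : (0:ℝ) ≤ K1) (by linarith : (0:ℝ) ≤ K2),
    one_le_mul_of_one_le_of_one_le (one_le_mul_of_one_le_of_one_le hK1 hK2) hK3], fun T N e i hie hie4 => ?_⟩
  have hUe := Ub_pos e
  have hUi := Ub_pos i
  have hUN : 0 < UU N := Num2Aux.UU_pos N
  obtain ⟨D0, hD0⟩ : ∃ D0, D0 = 2 ^ (i + 4) := ⟨_, rfl⟩
  have hD1 : 1 ≤ D0 := by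
    rw [hD0]
    exact Nat.one_le_two_pow
  obtain ⟨Ψ, hΨ⟩ : ∃ Ψ, Ψ = vA D0 (BrR D0 (2 ^ (i + 5))) (vA D0 (BrR D0 (2 ^ (i + 5) + N)) (GI (i + 5) e)) := ⟨_, rfl⟩
  have hcov := cov4 (ZD T N e (2 ^ (i + 4)) (2 ^ (i + 5)))
    {t | ∃ A I M : List Bool, ∃ a : ℕ, A ∈ Brd a ∧ a ≤ N ∧ I ∈ GG e ∧ M ∈ LB (i + 5) ∧ t = A ++ (I ++ M)}
    (fun a => {D | D ∈ BrR D0 (2 ^ (i + 5)) ∧ RT D0 LFold a D})
    (fun _ b => {g | g ∈ BrR D0 (2 ^ (i + 5) + N) ∧ RT D0 LFold b g})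
    (fun a b c => FCW (T + hgt b - (hgt a + hgt c))) (GI (i + 5) e) ?_
  · refine hcov.trans ?_
    simp only [Touch.gf_FCW, mul_one]
    have e1 : (Rec8.sw {t | ∃ A I M : List Bool, ∃ a : ℕ, A ∈ Brd a ∧ a ≤ N ∧ I ∈ GG e ∧ M ∈ LB (i + 5) ∧ t = A ++ (I ++ M)}
        fun a => Rec8.sw {D | D ∈ BrR D0 (2 ^ (i + 5)) ∧ RT D0 LFold a D} fun b =>
          Rec8.sw {g | g ∈ BrR D0 (2 ^ (i + 5) + N) ∧ RT D0 LFold b g} fun c => GI (i + 5) e c) =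
        Rec8.sw {t | ∃ A I M : List Bool, ∃ a : ℕ, A ∈ Brd a ∧ a ≤ N ∧ I ∈ GG e ∧ M ∈ LB (i + 5) ∧ t = A ++ (I ++ M)} Ψ := by
      rw [hΨ]
      rfl
    rw [e1]
    have f1 := h1 D0 i (i + 5) e N Ψ (by rw [hΨ]; exact CN.hered_vA _ _ _) (by rw [hD0]) hie le_rfl
    have f2 := h2 D0 i D0 i D0 (2 ^ (i + 5)) (vA D0 (BrR D0 (2 ^ (i + 5) + N)) (GI (i + 5) e)) (CN.hered_vA _ _ _)
      (by rw [hD0]) (by rw [hD0]) le_rfl le_rfl (by rw [hD0]; exact Nat.pow_le_pow_right (by norm_num) (by omega))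
    rw [← hΨ] at f2
    have f3 := h3 D0 i (i + 5) e (2 ^ (i + 5) + N) (by rw [hD0]) hie le_rfl
    have g1 : UU (2 ^ (i + 5)) / Ub i ≤ 32 := by
      rw [div_le_iff₀ hUi]
      have a1 := Ub_succ i
      have a2 := Ub_succ (i + 1)
      have a3 := Ub_succ (i + 2)
      have a4 := Ub_succ (i + 3)
      have a5 := Ub_succ (i + 4)
      have h4 : UU (2 ^ (i + 5)) = Ub (i + 5) := rfl
      rw [h4]
      linarith
    refine f1.trans ?_
    obtain ⟨W, hW⟩ : ∃ W, W = (2 : ℝ) ^ (kap0 / 8 * ((e : ℝ) - i)) := ⟨_, rfl⟩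
    have hW0 : 0 < W := by
      rw [hW]
      exact TK.p_pos _
    rw [← hW] at f3 ⊢
    calc ENNReal.ofReal (K1 * UU N * (Ub i / Ub e * W)) * xT D0 i Ψ
        ≤ ENNReal.ofReal (K1 * UU N * (Ub i / Ub e * W)) * (ENNReal.ofReal (K2 * 32) *
            ENNReal.ofReal (K3 * (W / Ub e))) := by
          refine mul_le_mul_right (f2.trans (mul_le_mul' (ENNReal.ofReal_le_ofReal ?_) f3)) _
          exact mul_le_mul_of_nonneg_left g1 (by linarith)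
      _ = ENNReal.ofReal (32 * K1 * K2 * K3 * (UU N / (Ub e * Ub e)) * (Ub i * (2 : ℝ) ^ (kap0 / 4 * ((e : ℝ) - i)))) := by
          rw [← ENNReal.ofReal_mul (by positivity), ← ENNReal.ofReal_mul (by positivity)]
          congr 1
          have e2 : (2 : ℝ) ^ (kap0 / 4 * ((e : ℝ) - i)) = W * W := by
            rw [hW, ← Real.rpow_add two_pos]
            congr 1
            ring
          rw [e2]
          field_simp
  · rintro t ⟨A, I, M, D, X, P, Z, a, i', m, d, x, p, hA, ha, hIi, hi', hM, hm, hD, hd1, hlo, hhi, hX, hx, hP, hp, hpN, hZ,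
      hf1, hf2, rfl⟩
    have hG1 : A ++ (I ++ M) ∈ Brd (a + (i' + m)) := Brd_append hA (Brd_append hIi.1 hM)
    have hg3 : X ++ P ∈ Brd (x + p) := Brd_append hX hP.1
    have hpos : 0 < 2 ^ e := by positivity
    refine ⟨A ++ (I ++ M), ⟨A, I, M, a, hA, ha, ⟨i', hi', hIi⟩, ⟨m, by omega, hM⟩, rfl⟩, D, ⟨⟨d, by omega, by omega, hD⟩,
      RT_of ⟨_, by omega, hG1⟩ hf1⟩, X ++ P, ⟨⟨x + p, by omega, by omega, hg3⟩, RT_of ⟨d, by omega, hD⟩ ?_⟩, Z, ?_, ?_,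
      ne_of_Brd hG1 (by omega), ne_of_Brd hD (by omega), ne_of_Brd hg3 (by omega), ?_⟩
    · rw [← List.append_assoc] at hf2
      exact LFold_pre hf2
    · rw [hgt_eq hG1, hgt_eq hg3, hgt_eq hD]
      have e3 : T + d - (a + (i' + m) + (x + p)) = T + d - (a + i' + m + x + p) := by omega
      rw [e3]
      exact hZ
    · rw [List.append_assoc X P Z]
    · unfold GI
      rw [if_pos]
      exact ⟨[], X, P, 0, x, p, nil_mem_Brd, hX, by omega, hP, hp, rfl⟩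

/-- the smallest zig-zags -/
lemma zm_le : ∃ K : ℝ, 1 ≤ K ∧ ∀ T N e : ℕ, gf (ZD T N e 0 (2 ^ 4)) ≤
      ENNReal.ofReal (K * (UU N / (Ub e * Ub e)) * (Ub 0 * (2 : ℝ) ^ (kap0 / 4 * ((e : ℝ) - (0 : ℕ))))) := by
  obtain ⟨C, δ, hI⟩ := inp_exists
  obtain ⟨K1, hK1, h1⟩ := firstG hI
  obtain ⟨K3, hK3, h3⟩ := gf_GG
  have hk := kap0_pos
  have hU4 := Ub_pos 4
  have hKK : 0 ≤ 2 * K1 * K3 * (Ub 4 * Ub 4) := by positivity
  refine ⟨1 + 2 * K1 * K3 * (Ub 4 * Ub 4), by linarith, fun T N e => ?_⟩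
  have hUe := Ub_pos e
  have hU0 := Ub_pos 0
  have hUN : 0 < UU N := Num2Aux.UU_pos N
  have hcov := cov4 (ZD T N e 0 (2 ^ 4))
    {t | ∃ A I M : List Bool, ∃ a : ℕ, A ∈ Brd a ∧ a ≤ N ∧ I ∈ GG e ∧ M ∈ LB 4 ∧ t = A ++ (I ++ M)}
    (fun _ => LB 4) (fun _ _ => {g | ∃ X ∈ LB 4, ∃ P ∈ GG e, g = X ++ P})
    (fun a b c => FCW (T + hgt b - (hgt a + hgt c))) (fun _ => 1) ?_
  · refine hcov.trans ?_
    simp only [Touch.gf_FCW, mul_one]
    obtain ⟨c, hc⟩ : ∃ c, c = ENNReal.ofReal (Ub 4) * (ENNReal.ofReal (Ub 4) * ENNReal.ofReal (K3 / Ub e)) := ⟨_, rfl⟩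
    have e1 : (Rec8.sw {t | ∃ A I M : List Bool, ∃ a : ℕ, A ∈ Brd a ∧ a ≤ N ∧ I ∈ GG e ∧ M ∈ LB 4 ∧ t = A ++ (I ++ M)}
        fun _ => Rec8.sw (LB 4) fun _ => Rec8.sw {g | ∃ X ∈ LB 4, ∃ P ∈ GG e, g = X ++ P} fun _ => (1 : ℝ≥0∞)) ≤
        Rec8.sw {t | ∃ A I M : List Bool, ∃ a : ℕ, A ∈ Brd a ∧ a ≤ N ∧ I ∈ GG e ∧ M ∈ LB 4 ∧ t = A ++ (I ++ M)}
          (fun _ => c) := by
      refine Rec8.sw_mono' fun _ _ => ?_
      rw [SDN.NX_const, hc]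
      refine mul_le_mul' (gf_LB 4) ?_
      refine (cov2 _ (LB 4) (fun _ => GG e) (fun _ => 1) fun t ht => ht).trans ?_
      rw [Rec8.sw_one, SDN.NX_const]
      exact mul_le_mul' (gf_LB 4) (h3 e)
    refine e1.trans ?_
    have f1 := h1 (2 ^ 4) 0 4 e N (fun _ => c) (fun _ _ _ => le_rfl) le_rfl (Nat.zero_le e) (by norm_num)
    refine f1.trans ?_
    have hW1 : (2 : ℝ) ^ (kap0 / 8 * ((e : ℝ) - (0 : ℕ))) ≤ (2 : ℝ) ^ (kap0 / 4 * ((e : ℝ) - (0 : ℕ))) := by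
      apply TK.p_mono
      have : (0 : ℝ) ≤ e := Nat.cast_nonneg e
      push_cast
      nlinarith
    have hp4 := TK.p_pos (kap0 / 4 * ((e : ℝ) - (0 : ℕ)))
    calc ENNReal.ofReal (K1 * UU N * (Ub 0 / Ub e * (2 : ℝ) ^ (kap0 / 8 * ((e : ℝ) - (0 : ℕ))))) * xT (2 ^ 4) 0 (fun _ => c)
        ≤ ENNReal.ofReal (K1 * UU N * (Ub 0 / Ub e * (2 : ℝ) ^ (kap0 / 4 * ((e : ℝ) - (0 : ℕ))))) * (2 * c) := by
          refine mul_le_mul' (ENNReal.ofReal_le_ofReal ?_) (CN.xT_const _ _ c)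
          gcongr
      _ = ENNReal.ofReal (2 * K1 * K3 * (Ub 4 * Ub 4) * (UU N / (Ub e * Ub e)) *
            (Ub 0 * (2 : ℝ) ^ (kap0 / 4 * ((e : ℝ) - (0 : ℕ))))) := by
          have e2 : (2 : ℝ≥0∞) = ENNReal.ofReal 2 := by simp
          rw [hc, e2, ← ENNReal.ofReal_mul hU4.le, ← ENNReal.ofReal_mul hU4.le, ← ENNReal.ofReal_mul (by norm_num),
            ← ENNReal.ofReal_mul (by positivity)]
          congr 1
          field_simp
      _ ≤ _ := by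
          apply ENNReal.ofReal_le_ofReal
          have h5 : 0 ≤ (UU N / (Ub e * Ub e)) * (Ub 0 * (2 : ℝ) ^ (kap0 / 4 * ((e : ℝ) - (0 : ℕ)))) := by positivity
          nlinarith
  · rintro t ⟨A, I, M, D, X, P, Z, a, i', m, d, x, p, hA, ha, hIi, hi', hM, hm, hD, hd1, hlo, hhi, hX, hx, hP, hp, hpN, hZ,
      hf1, hf2, rfl⟩
    have hG1 : A ++ (I ++ M) ∈ Brd (a + (i' + m)) := Brd_append hA (Brd_append hIi.1 hM)
    have hg3 : X ++ P ∈ Brd (x + p) := Brd_append hX hP.1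
    have hpos : 0 < 2 ^ e := by positivity
    refine ⟨A ++ (I ++ M), ⟨A, I, M, a, hA, ha, ⟨i', hi', hIi⟩, ⟨m, by omega, hM⟩, rfl⟩, D, ⟨d, hhi, hD⟩,
      X ++ P, ⟨X, ⟨x, by omega, hX⟩, P, ⟨p, hp, hP⟩, rfl⟩, Z, ?_, ?_,
      ne_of_Brd hG1 (by omega), ne_of_Brd hD (by omega), ne_of_Brd hg3 (by omega), le_rfl⟩
    · rw [hgt_eq hG1, hgt_eq hg3, hgt_eq hD]
      have e3 : T + d - (a + (i' + m) + (x + p)) = T + d - (a + i' + m + x + p) := by omega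
      rw [e3]
      exact hZ
    · rw [List.append_assoc X P Z]

lemma gf_fin (S : Finset ℕ) (B : ℕ → Set (List Bool)) : gf (⋃ i ∈ S, B i) ≤ ∑ i ∈ S, gf (B i) := by
  classical
  induction S using Finset.induction_on with
  | empty =>
    simp only [Finset.notMem_empty, Set.iUnion_of_empty, Set.iUnion_empty, Finset.sum_empty]
    unfold gf
    simp
  | insert i S hi ih =>
    rw [Finset.sum_insert hi]
    have h1 : (⋃ j ∈ insert i S, B j) ⊆ B i ∪ ⋃ j ∈ S, B j := by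
      intro t ht
      simp only [Set.mem_iUnion, Finset.mem_insert] at ht
      obtain ⟨j, hj, ht⟩ := ht
      rcases hj with rfl | hj
      · exact Or.inl ht
      · exact Or.inr (Set.mem_biUnion hj ht)
    have h2 := TN5b_sw_union h1 (fun _ => 1)
    rw [Rec8.sw_one, Rec8.sw_one, Rec8.sw_one] at h2
    exact h2.trans (add_le_add le_rfl ih)

/-- Z2: small zig-zags between two giants are unlikely -/
theorem zs_le : ∃ K c : ℝ, 1 ≤ K ∧ 0 < c ∧ ∀ T N k e : ℕ, k ≤ e →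
    gf (ZS T N k e) ≤ ENNReal.ofReal (K * (UU N / Ub e) * (2 : ℝ) ^ (-(c * ((e : ℝ) - k)))) := by
  obtain ⟨K1, hK1, h1⟩ := zd_le
  obtain ⟨K2, hK2, h2⟩ := zm_le
  have hk := kap0_pos
  obtain ⟨K4, hK4, h4⟩ := geo_Ub (η := kap0 / 4) (by linarith)
  refine ⟨2 * (K1 + K2) * K4, 3 / 4 * kap0, by nlinarith, by linarith, fun T N k e hke => ?_⟩
  have hUe := Ub_pos e
  have hUk := Ub_pos k
  have hUN : 0 < UU N := Num2Aux.UU_pos N
  have hsub : ZS T N k e ⊆ ZD T N e 0 (2 ^ 4) ∪ ⋃ i ∈ (range k).filter (fun i => i + 4 ≤ e),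
      ZD T N e (2 ^ (i + 4)) (2 ^ (i + 5)) := by
    rintro t ⟨A, I, M, D, X, P, Z, a, i', m, d, x, p, hA, ha, hIi, hi', hM, hm, hD, hd1, hdk, hX, hx, hP, hp, hpN, hZ,
      hf1, hf2, rfl⟩
    rcases Nat.lt_or_ge d (2 ^ 4) with hd | hd
    · left
      exact ⟨A, I, M, D, X, P, Z, a, i', m, d, x, p, hA, ha, hIi, hi', hM, hm, hD, hd1, Nat.zero_le _, hd, hX, hx, hP, hp,
        hpN, hZ, hf1, hf2, rfl⟩
    · right
      have hd0 : d ≠ 0 := by omega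
      have g1 : 2 ^ Nat.log 2 d ≤ d := Nat.pow_log_le_self 2 hd0
      have g2 : d < 2 ^ (Nat.log 2 d + 1) := Nat.lt_pow_succ_log_self (by norm_num) d
      have g3 : 4 ≤ Nat.log 2 d := by
        have := Nat.log_mono_right (b := 2) hd
        rwa [Nat.log_pow (by norm_num)] at this
      have g4 : Nat.log 2 d < k := Nat.log_lt_of_lt_pow hd0 hdk
      obtain ⟨i, hi⟩ : ∃ i, Nat.log 2 d = i + 4 := ⟨Nat.log 2 d - 4, by omega⟩
      rw [hi] at g1 g2 g4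
      refine Set.mem_biUnion (x := i) (Finset.mem_filter.2 ⟨Finset.mem_range.2 (by omega), by omega⟩) ?_
      exact ⟨A, I, M, D, X, P, Z, a, i', m, d, x, p, hA, ha, hIi, hi', hM, hm, hD, hd1, g1, g2, hX, hx, hP, hp,
        hpN, hZ, hf1, hf2, rfl⟩
  have hbd : gf (ZS T N k e) ≤ ∑ i ∈ range (k + 1), ENNReal.ofReal ((K1 + K2) * (UU N / (Ub e * Ub e)) *
      (Ub i * (2 : ℝ) ^ (kap0 / 4 * ((e : ℝ) - i)))) := by
    have hpos : ∀ i : ℕ, 0 ≤ (UU N / (Ub e * Ub e)) * (Ub i * (2 : ℝ) ^ (kap0 / 4 * ((e : ℝ) - i))) := by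
      intro i
      have := Ub_pos i
      positivity
    have h5 : gf (ZS T N k e) ≤ gf (ZD T N e 0 (2 ^ 4)) + ∑ i ∈ (range k).filter (fun i => i + 4 ≤ e),
        gf (ZD T N e (2 ^ (i + 4)) (2 ^ (i + 5))) := by
      have h6 := TN5b_sw_union hsub (fun _ => 1)
      rw [Rec8.sw_one, Rec8.sw_one, Rec8.sw_one] at h6
      exact h6.trans (add_le_add le_rfl (gf_fin _ _))
    refine h5.trans ?_
    have h7 : gf (ZD T N e 0 (2 ^ 4)) ≤ ENNReal.ofReal (K2 * (UU N / (Ub e * Ub e)) *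
        (Ub 0 * (2 : ℝ) ^ (kap0 / 4 * ((e : ℝ) - (0 : ℕ))))) := h2 T N e
    have h8 : ∑ i ∈ (range k).filter (fun i => i + 4 ≤ e), gf (ZD T N e (2 ^ (i + 4)) (2 ^ (i + 5))) ≤
        ∑ i ∈ range (k + 1), ENNReal.ofReal (K1 * (UU N / (Ub e * Ub e)) *
        (Ub i * (2 : ℝ) ^ (kap0 / 4 * ((e : ℝ) - i)))) := by
      refine (Finset.sum_le_sum fun i hi => ?_).trans (Finset.sum_le_sum_of_subset ?_)
      · rw [Finset.mem_filter, Finset.mem_range] at hi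
        exact h1 T N e i (by omega) (Nat.pow_le_pow_right (by norm_num) hi.2)
      · intro i hi
        rw [Finset.mem_filter, Finset.mem_range] at hi
        rw [Finset.mem_range]
        omega
    have h9 : ENNReal.ofReal (K2 * (UU N / (Ub e * Ub e)) * (Ub 0 * (2 : ℝ) ^ (kap0 / 4 * ((e : ℝ) - (0 : ℕ))))) ≤
        ∑ i ∈ range (k + 1), ENNReal.ofReal (K2 * (UU N / (Ub e * Ub e)) *
        (Ub i * (2 : ℝ) ^ (kap0 / 4 * ((e : ℝ) - i)))) :=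
      Finset.single_le_sum (f := fun i : ℕ => ENNReal.ofReal (K2 * (UU N / (Ub e * Ub e)) *
        (Ub i * (2 : ℝ) ^ (kap0 / 4 * ((e : ℝ) - i))))) (fun _ _ => zero_le) (Finset.mem_range.2 (by omega : 0 < k + 1))
    refine (add_le_add (h7.trans h9) h8).trans (le_of_eq ?_)
    rw [← Finset.sum_add_distrib]
    refine Finset.sum_congr rfl fun i _ => ?_
    have hp := hpos i
    rw [← ENNReal.ofReal_add (by rw [mul_assoc]; exact mul_nonneg (by linarith) hp)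
      (by rw [mul_assoc]; exact mul_nonneg (by linarith) hp)]
    congr 1
    ring
  refine hbd.trans ?_
  have hnn : ∀ i ∈ range (k + 1), 0 ≤ (K1 + K2) * (UU N / (Ub e * Ub e)) *
      (Ub i * (2 : ℝ) ^ (kap0 / 4 * ((e : ℝ) - i))) := by
    intro i _
    have := Ub_pos i
    positivity
  rw [← ENNReal.ofReal_sum_of_nonneg hnn]
  apply ENNReal.ofReal_le_ofReal
  have e1 : ∑ i ∈ range (k + 1), (K1 + K2) * (UU N / (Ub e * Ub e)) * (Ub i * (2 : ℝ) ^ (kap0 / 4 * ((e : ℝ) - i))) =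
      (K1 + K2) * (UU N / (Ub e * Ub e)) * (2 : ℝ) ^ (kap0 / 4 * ((e : ℝ) - k)) *
        ∑ i ∈ range (k + 1), (2 : ℝ) ^ (kap0 / 4 * ((k : ℝ) - i)) * Ub i := by
    rw [Finset.mul_sum]
    refine Finset.sum_congr rfl fun i _ => ?_
    have e2 : (2 : ℝ) ^ (kap0 / 4 * ((e : ℝ) - i)) = (2 : ℝ) ^ (kap0 / 4 * ((e : ℝ) - k)) *
        (2 : ℝ) ^ (kap0 / 4 * ((k : ℝ) - i)) := by
      rw [← Real.rpow_add two_pos]
      congr 1
      ring
    rw [e2]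
    ring
  rw [e1]
  have h10 := h4 k
  have h11 := Ub_growth hke
  have e3 : (2 : ℝ) ^ (kap0 * ((e : ℝ) - k)) = ((2 : ℝ) ^ (-(3 / 4 * kap0 * ((e : ℝ) - k))))⁻¹ *
      (2 : ℝ) ^ (kap0 / 4 * ((e : ℝ) - k)) := by
    rw [← Real.rpow_neg two_pos.le, ← Real.rpow_add two_pos]
    congr 1
    ring
  obtain ⟨Q, hQ⟩ : ∃ Q, Q = (2 : ℝ) ^ (-(3 / 4 * kap0 * ((e : ℝ) - k))) := ⟨_, rfl⟩
  obtain ⟨R, hR⟩ : ∃ R, R = (2 : ℝ) ^ (kap0 / 4 * ((e : ℝ) - k)) := ⟨_, rfl⟩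
  have hQ0 : 0 < Q := by
    rw [hQ]
    exact TK.p_pos _
  have hR0 : 0 < R := by
    rw [hR]
    exact TK.p_pos _
  rw [e3, ← hQ, ← hR] at h11
  rw [← hQ, ← hR]
  have h12 : Ub k * R ≤ 2 * Ub e * Q := by
    have : Ub k * (Q⁻¹ * R) * Q ≤ 2 * Ub e * Q := mul_le_mul_of_nonneg_right h11 hQ0.le
    calc Ub k * R = Ub k * (Q⁻¹ * R) * Q := by field_simp
      _ ≤ _ := this
  calc (K1 + K2) * (UU N / (Ub e * Ub e)) * R * ∑ i ∈ range (k + 1), (2 : ℝ) ^ (kap0 / 4 * ((k : ℝ) - i)) * Ub i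
      ≤ (K1 + K2) * (UU N / (Ub e * Ub e)) * R * (K4 * Ub k) := by gcongr
    _ = (K1 + K2) * K4 * (UU N / (Ub e * Ub e)) * (Ub k * R) := by ring
    _ ≤ (K1 + K2) * K4 * (UU N / (Ub e * Ub e)) * (2 * Ub e * Q) := by gcongr
    _ = _ := by
      field_simp

end CutJ
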