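import Pool.Agent.CutJ.ZGeo
import Pool.Agent.CutJ.ZNormC
import Pool.Agent.CutJ.J1

/-!
CUTJ, J4, module Z3: the simple cut levels of a limit curve are in the limit of the cut levels of the walks.
-/

set_option autoImplicit false

namespace CutJ

open HexObs TS SDN Filter Topology MeasureTheory TopologicalSpace CutLim

open scoped ENNReal

section disc

variable {T j : ℕ} {t : List Bool} {f : C(unitInterval, ℂ)} {r : unitInterval ≃ₜ unitInterval}

lemma vertex (hn : 1 ≤ t.length) (hf : ∀ u, f u = curve T t (r u)) {i : ℕ} (hi : i ≤ t.length) :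
    ∃ v : unitInterval, (r v : ℝ) * t.length = i ∧ (f v).im = (lev t i : ℝ) / 2 / T := by
  have hn0 : (0 : ℝ) < t.length := by exact_mod_cast hn
  have hv0 : ((i : ℝ) / t.length) ∈ Set.Icc (0 : ℝ) 1 := by
    refine ⟨by positivity, ?_⟩
    rw [div_le_one hn0]
    exact_mod_cast hi
  obtain ⟨v, hv⟩ := r.surjective ⟨(i : ℝ) / t.length, hv0⟩
  have h1 : (r v : ℝ) * t.length = i := by
    rw [hv]
    exact div_mul_cancel₀ _ hn0.ne'
  refine ⟨v, h1, ?_⟩
  obtain ⟨i', x, hi', hx0, hx1, hx, him, -⟩ := Touch.pts (T := T) hn (r v)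
  rw [h1] at hx
  rw [hf, him, Touch.im_div, Touch.im_div]
  have h2 : i' ≤ i := by
    have : (i' : ℝ) ≤ i := by linarith
    exact_mod_cast this
  have h3 : i ≤ i' + 1 := by
    have : (i : ℝ) ≤ ((i' + 1 : ℕ) : ℝ) := by push_cast; linarith
    exact_mod_cast this
  rcases Nat.eq_or_lt_of_le h2 with h4 | h4
  · have h5 : x = 0 := by
      rw [h4] at hx
      linarith
    rw [h5, h4]
    ring
  · have h6 : i = i' + 1 := by omega
    have h5 : x = 1 := by
      rw [h6] at hx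
      push_cast at hx
      linarith
    rw [h5, h6]
    ring

lemma lev_step (hT : 1 ≤ T) (i : ℕ) : |(lev t i : ℝ) - lev t (i + 1)| ≤ 2 := by
  have hT' : (0 : ℝ) < T := by exact_mod_cast hT
  have h := Touch.im_step t hT i
  rw [Touch.im_div, Touch.im_div] at h
  have e : (lev t i : ℝ) / 2 / T - (lev t (i + 1) : ℝ) / 2 / T = ((lev t i : ℝ) - lev t (i + 1)) / (2 * T) := by
    field_simp
  rw [e, abs_div, abs_of_pos (by positivity : (0 : ℝ) < 2 * T), div_le_div_iff₀ (by positivity) hT'] at h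
  nlinarith

/-- a curve pinched around y: the walk is pinched -/
lemma pinch_of (hT : 1 ≤ T) (ht : t ∈ FC T j) (hr : Monotone r) (hf : ∀ u, f u = curve T t (r u))
    {u0 u1 : unitInterval} (hu : u0 ≤ u1) {y δ δ' : ℝ} {a w w' : ℤ}
    (h1 : ∀ s, s ≤ u1 → (f s).im < y + δ) (h2 : ∀ s, u0 ≤ s → y - δ < (f s).im)
    (h3 : ∀ s s', s ≤ s' → s' ≤ u0 → (f s).im < y - 2 * δ ∨ y - δ' < (f s').im)
    (h4 : ∀ s s', u1 ≤ s' → s' ≤ s → y + 2 * δ < (f s).im ∨ (f s').im < y + δ')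
    (ha1 : 3 * (a : ℝ) ≤ 2 * T * y) (ha2 : 2 * T * y < 3 * a + 3) (hw1 : 2 * T * δ + 3 ≤ w) (hw2 : w ≤ 4 * T * δ - 3)
    (hw' : 2 * T * δ' + 3 ≤ w') (hww : w ≤ w') : ∃ i0 i1, Pinch t a w w' i0 i1 := by
  have hn := Touch.len_pos hT ht
  have hn0 : (0 : ℝ) < t.length := by exact_mod_cast hn
  have hT' : (0 : ℝ) < T := by exact_mod_cast hT
  have hrs := hr.strictMono_of_injective r.injective
  have hord : ∀ u v : unitInterval, (r u : ℝ) * t.length ≤ (r v : ℝ) * t.length → u ≤ v := by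
    intro u v huv
    have : (r u : ℝ) ≤ r v := le_of_mul_le_mul_right huv hn0
    exact hrs.le_iff_le.1 this
  -- levels of the vertices
  have hlt : ∀ {x c : ℝ}, x / 2 / T < c → x < 2 * T * c := by
    intro x c hx
    rw [div_div, div_lt_iff₀ (by positivity)] at hx
    linarith
  have hgt : ∀ {x c : ℝ}, c < x / 2 / T → 2 * T * c < x := by
    intro x c hx
    rw [div_div, lt_div_iff₀ (by positivity)] at hx
    linarith
  have hfl : ∀ u : unitInterval, ⌊(r u : ℝ) * t.length⌋₊ ≤ t.length ∧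
      ((⌊(r u : ℝ) * t.length⌋₊ : ℕ) : ℝ) ≤ (r u : ℝ) * t.length ∧
      (r u : ℝ) * t.length < ((⌊(r u : ℝ) * t.length⌋₊ : ℕ) : ℝ) + 1 := by
    intro u
    have h0 : 0 ≤ (r u : ℝ) * t.length := mul_nonneg (r u).2.1 hn0.le
    refine ⟨?_, Nat.floor_le h0, Nat.lt_floor_add_one _⟩
    have h5 : (r u : ℝ) * t.length ≤ t.length := by
      have := mul_le_mul_of_nonneg_right (r u).2.2 hn0.le
      linarith
    exact Nat.floor_le_of_le h5
  obtain ⟨i0, hi0⟩ : ∃ i0, i0 = ⌊(r u0 : ℝ) * t.length⌋₊ := ⟨_, rfl⟩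
  obtain ⟨i1, hi1⟩ : ∃ i1, i1 = ⌊(r u1 : ℝ) * t.length⌋₊ := ⟨_, rfl⟩
  obtain ⟨a1, a2, a3⟩ := hfl u0
  obtain ⟨b1, b2, b3⟩ := hfl u1
  rw [← hi0] at a1 a2 a3
  rw [← hi1] at b1 b2 b3
  have hle : i0 ≤ i1 := by
    rw [hi0, hi1]
    apply Nat.floor_le_floor
    exact mul_le_mul_of_nonneg_right (hr hu) hn0.le
  -- under u1
  have hhi : ∀ s, s ≤ i1 → (lev t s : ℝ) < 2 * T * y + 2 * T * δ := by
    intro s hs
    obtain ⟨v, v1, v2⟩ := vertex hn hf (hs.trans b1)
    have hv : v ≤ u1 := hord _ _ (by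
      rw [v1]
      have : (s : ℝ) ≤ i1 := by exact_mod_cast hs
      linarith)
    have h5 := h1 v hv
    rw [v2] at h5
    have := hlt h5
    linarith
  have hlo : ∀ s, i0 < s → s ≤ t.length → 2 * T * y - 2 * T * δ < (lev t s : ℝ) := by
    intro s hs hs2
    obtain ⟨v, v1, v2⟩ := vertex hn hf hs2
    have hv : u0 ≤ v := hord _ _ (by
      rw [v1]
      have : ((i0 + 1 : ℕ) : ℝ) ≤ s := by exact_mod_cast hs
      push_cast at this
      linarith)
    have h5 := h2 v hv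
    rw [v2] at h5
    have := hgt h5
    linarith
  refine ⟨i0, i1, hle, b1, ?_, ?_, ?_, ?_⟩
  · intro s hs
    have h5 := hhi s hs
    have h6 : (lev t s : ℝ) < ((3 * a + w : ℤ) : ℝ) := by
      push_cast
      linarith
    exact_mod_cast h6
  · intro s hs hs2
    have h6 : ((3 * a - w : ℤ) : ℝ) < (lev t s : ℝ) := by
      push_cast
      rcases Nat.eq_or_lt_of_le hs with h7 | h7
      · rcases Nat.eq_or_lt_of_le hs2 with h8 | h8
        · -- the last vertex
          obtain ⟨v, v1, v2⟩ := vertex hn hf hs2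
          have hv : u0 ≤ v := hord _ _ (by
            rw [v1, h8]
            have := mul_le_mul_of_nonneg_right (r u0).2.2 hn0.le
            linarith)
          have h5 := h2 v hv
          rw [v2] at h5
          have := hgt h5
          linarith
        · have h9 := hlo (s + 1) (by omega) h8
          have h10 := lev_step (t := t) hT s
          rw [abs_le] at h10
          linarith [h10.1, h10.2]
      · have h9 := hlo s h7 hs2
        linarith
    exact_mod_cast h6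
  · intro s s' hs hs'
    obtain ⟨v, v1, v2⟩ := vertex hn hf (hs.trans (hs'.trans a1))
    obtain ⟨v', v1', v2'⟩ := vertex hn hf (hs'.trans a1)
    have hv : v ≤ v' := hord _ _ (by
      rw [v1, v1']
      exact_mod_cast hs)
    have hv' : v' ≤ u0 := hord _ _ (by
      rw [v1']
      have : (s' : ℝ) ≤ i0 := by exact_mod_cast hs'
      linarith)
    rcases h3 v v' hv hv' with h5 | h5
    · left
      rw [v2] at h5
      have h6 := hlt h5
      have h7 : (lev t s : ℝ) ≤ ((3 * a - w : ℤ) : ℝ) := by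
        push_cast
        linarith
      exact_mod_cast h7
    · right
      rw [v2'] at h5
      have h6 := hgt h5
      have h7 : ((3 * a - w' : ℤ) : ℝ) < (lev t s' : ℝ) := by
        push_cast
        linarith
      exact_mod_cast h7
  · intro s s' hs hs' hsn
    rcases Nat.eq_or_lt_of_le hs with h7 | h7
    · right
      have h8 := hhi s' h7.symm.le
      have h9 : (lev t s' : ℝ) < ((3 * a + w' : ℤ) : ℝ) := by
        push_cast
        have : (w : ℝ) ≤ w' := by exact_mod_cast hww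
        linarith
      exact_mod_cast h9
    · obtain ⟨v, v1, v2⟩ := vertex hn hf hsn
      obtain ⟨v', v1', v2'⟩ := vertex hn hf (hs'.trans hsn)
      have hv : v' ≤ v := hord _ _ (by
        rw [v1, v1']
        exact_mod_cast hs')
      have hv' : u1 ≤ v' := hord _ _ (by
        rw [v1']
        have : ((i1 + 1 : ℕ) : ℝ) ≤ s' := by exact_mod_cast h7
        push_cast at this
        linarith)
      rcases h4 v v' hv' hv with h5 | h5
      · left
        rw [v2] at h5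
        have h6 := hgt h5
        have h8 : ((3 * a + w : ℤ) : ℝ) ≤ (lev t s : ℝ) := by
          push_cast
          linarith
        exact_mod_cast h8
      · right
        rw [v2'] at h5
        have h6 := hlt h5
        have h8 : (lev t s' : ℝ) < ((3 * a + w' : ℤ) : ℝ) := by
          push_cast
          linarith
        exact_mod_cast h8

end disc

/-- the curve is pinched around y between the times u0 and u1, at the scales δ < δ' -/
def PinC (u0 u1 : unitInterval) (y δ δ' : ℝ) : Set C(unitInterval, ℂ) :=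
  {f | (∀ s ∈ Set.Iic u1, (f s).im < y + δ) ∧ (∀ s ∈ Set.Ici u0, y - δ < (f s).im) ∧
    (∀ q ∈ {q : unitInterval × unitInterval | q.1 ≤ q.2 ∧ q.2 ≤ u0}, (f q.1).im < y - 2 * δ ∨ y - δ' < (f q.2).im) ∧
    (∀ q ∈ {q : unitInterval × unitInterval | u1 ≤ q.2 ∧ q.2 ≤ q.1}, y + 2 * δ < (f q.1).im ∨ (f q.2).im < y + δ')}

lemma open_forall {α β : Type*} [TopologicalSpace α] [TopologicalSpace β] {K : Set β} (hK : IsCompact K)
    {P : α → β → Prop} (h : IsOpen {z : α × β | P z.1 z.2}) : IsOpen {x | ∀ y ∈ K, P x y} := by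
  rw [isOpen_iff_eventually]
  intro x hx
  exact hK.eventually_forall_of_forall_eventually fun y hy => h.mem_nhds (hx y hy)

lemma open_PinC (u0 u1 : unitInterval) (y δ δ' : ℝ) : IsOpen (PinC u0 u1 y δ δ') := by
  have hc : Continuous fun z : C(unitInterval, ℂ) × unitInterval => (z.1 z.2).im :=
    Complex.continuous_im.comp (continuous_fst.eval continuous_snd)
  have hc1 : Continuous fun z : C(unitInterval, ℂ) × (unitInterval × unitInterval) => (z.1 z.2.1).im :=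
    Complex.continuous_im.comp (continuous_fst.eval (continuous_fst.comp continuous_snd))
  have hc2 : Continuous fun z : C(unitInterval, ℂ) × (unitInterval × unitInterval) => (z.1 z.2.2).im :=
    Complex.continuous_im.comp (continuous_fst.eval (continuous_snd.comp continuous_snd))
  refine IsOpen.inter ?_ (IsOpen.inter ?_ (IsOpen.inter ?_ ?_))
  · exact open_forall isClosed_Iic.isCompact (isOpen_lt hc continuous_const)
  · exact open_forall isClosed_Ici.isCompact (isOpen_lt continuous_const hc)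
  · refine open_forall (IsClosed.isCompact ?_) ((isOpen_lt hc1 continuous_const).union (isOpen_lt continuous_const hc2))
    have g1 : IsClosed {q : unitInterval × unitInterval | q.1 ≤ q.2} := isClosed_le continuous_fst continuous_snd
    have g2 : IsClosed {q : unitInterval × unitInterval | q.2 ≤ u0} := isClosed_le continuous_snd continuous_const
    exact g1.inter g2
  · refine open_forall (IsClosed.isCompact ?_) ((isOpen_lt continuous_const hc1).union (isOpen_lt hc2 continuous_const))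
    have g1 : IsClosed {q : unitInterval × unitInterval | u1 ≤ q.2} := isClosed_le continuous_const continuous_snd
    have g2 : IsClosed {q : unitInterval × unitInterval | q.2 ≤ q.1} := isClosed_le continuous_snd continuous_fst
    exact g1.inter g2

/-- curves pinched around some level far from the set K and from the last level -/
def Fs (ρ δ' δ : ℝ) (A : ℕ) : Set (C(unitInterval, ℂ) × NC) :=
  {p | ‖p.1‖ < A ∧ ∃ u0 u1 : unitInterval, u0 ≤ u1 ∧ ∃ y : ℝ, p.1 ∈ PinC u0 u1 y δ δ' ∧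
    p.2 ∈ AvS (Metric.closedBall (2 / 3 * y) ρ) ∧ y + 3 / 2 * ρ < (p.1 1).im}

lemma open_Fs (ρ δ' δ : ℝ) (A : ℕ) : IsOpen (Fs ρ δ' δ A) := by
  have h : Fs ρ δ' δ A = {p | ‖p.1‖ < A} ∩ ⋃ u0 : unitInterval, ⋃ u1 : unitInterval, ⋃ _ : u0 ≤ u1, ⋃ y : ℝ,
      (Prod.fst ⁻¹' PinC u0 u1 y δ δ' ∩ (Prod.snd ⁻¹' AvS (Metric.closedBall (2 / 3 * y) ρ) ∩
        {p | y + 3 / 2 * ρ < (p.1 1).im})) := by
    ext p
    simp only [Fs, Set.mem_ofPred_eq, Set.mem_inter_iff, Set.mem_iUnion, exists_prop, Set.mem_preimage]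
  rw [h]
  refine IsOpen.inter (isOpen_lt (continuous_norm.comp continuous_fst) continuous_const) ?_
  refine isOpen_iUnion fun u0 => isOpen_iUnion fun u1 => isOpen_iUnion fun _ => isOpen_iUnion fun y => ?_
  refine ((open_PinC u0 u1 y δ δ').preimage continuous_fst).inter
    (((isOpen_AvS Metric.isClosed_closedBall).preimage continuous_snd).inter ?_)
  exact isOpen_lt continuous_const (Complex.continuous_im.comp ((continuous_eval_const 1).comp continuous_fst))

/-- the walks of the curves in Fs -/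
lemma disc {X : ℕ → List Bool → C(unitInterval, ℂ)}
    (hX : ∀ T t, ∃ r : unitInterval ≃ₜ unitInterval, Monotone r ∧ ∀ u, X T t u = curve T t (r u))
    {T A k e : ℕ} {ρ δ' δ : ℝ} (hT : 1 ≤ T) (hδ : 0 < δ) (hδ' : 2 * δ ≤ δ') (hρ' : δ' ≤ ρ / 88)
    (h7 : 7 ≤ 2 * T * δ) (h8 : 8 ≤ T * δ') (h2 : 2 ≤ T * ρ) (hk : 5 * (T * δ') ≤ 2 ^ k) (hk2 : k ≤ e)
    (he : (2 : ℝ) ^ e ≤ ρ * T / 8) {t : List Bool} (ht : t ∈ FCW T) (hF : (X T t, cutset T t) ∈ Fs ρ δ' δ A) :
    t ∈ ZS T (A * T) k e := by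
  obtain ⟨j, hj⟩ := ht
  obtain ⟨hA, u0, u1, hu, y, ⟨c1, c2, c3, c4⟩, hK, hy⟩ := hF
  obtain ⟨r, hr, hXr⟩ := hX T t
  have hT' : (0 : ℝ) < T := by exact_mod_cast hT
  have hn := Touch.len_pos hT hj
  obtain ⟨f, hf⟩ : ∃ f, f = X T t := ⟨_, rfl⟩
  have hfr : ∀ u, f u = curve T t (r u) := by
    intro u
    rw [hf]
    exact hXr u
  -- y is positive
  have hy0 : 3 / 2 * ρ < y := by
    have g1 : (0 : ℝ) ∈ (cutset T t : Set ℝ) := mem_cutset.2 ⟨0, Nat.zero_le _, Or.inl rfl, by simp⟩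
    have g2 := hK 0 g1
    rw [Metric.mem_closedBall, Real.dist_eq, not_le, zero_sub, abs_neg, abs_mul, abs_of_pos (by norm_num : (0 : ℝ) < 2 / 3)]
      at g2
    have g3 := c1 0 unitInterval.nonneg'
    have g4 : (X T t 0).im = 0 := by
      rw [hXr, Touch.r_zero hr]
      unfold curve
      rw [Tight.poly_zero, zp_zero, zero_div, Complex.zero_im]
    simp only at g3
    rw [g4] at g3
    rcases abs_cases y with ⟨g5, -⟩ | ⟨g5, -⟩
    · rw [g5] at g2
      linarith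
    · rw [g5] at g2
      linarith
  -- the last level
  have htop : (X T t 1).im = (3 * j : ℝ) / 2 / T := by
    rw [hXr, Touch.r_one hr]
    unfold curve
    rw [Tight.poly_one, Touch.im_div, (mem_Brd.1 hj.1).2.2.2]
    push_cast
    ring
  have hjA : (3 * j : ℝ) / 2 / T < A := by
    rw [← htop]
    have g1 : |(X T t 1).im| ≤ ‖X T t‖ := (Complex.abs_im_le_norm _).trans ((X T t).norm_coe_le_norm 1)
    have g2 := le_abs_self (X T t 1).im
    have g3 : ‖X T t‖ < A := hA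
    linarith
  have hjN : j ≤ A * T := by
    have g1 : (j : ℝ) ≤ ((A * T : ℕ) : ℝ) := by
      push_cast
      rw [div_div, div_lt_iff₀ (by positivity)] at hjA
      have : (0 : ℝ) ≤ j := Nat.cast_nonneg j
      linarith
    exact_mod_cast g1
  simp only at hy
  rw [htop] at hy
  have hy' : 2 * (T * y) + 3 * (ρ * T) < 3 * j := by
    have e1 : (3 * j : ℝ) / 2 / T = (3 * j) / (2 * T) := by rw [div_div]
    rw [e1, lt_div_iff₀ (by positivity)] at hy
    linarith
  -- the parameters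
  have hTy : 0 < T * y := mul_pos hT' (by linarith)
  obtain ⟨a, ha⟩ : ∃ a, a = ⌊2 / 3 * (T * y)⌋₊ := ⟨_, rfl⟩
  have ha1 : (a : ℝ) ≤ 2 / 3 * (T * y) := by rw [ha]; exact Nat.floor_le (by positivity)
  have ha2 : 2 / 3 * (T * y) < (a : ℝ) + 1 := by rw [ha]; exact Nat.lt_floor_add_one _
  obtain ⟨w, hw⟩ : ∃ w, w = ⌈2 * (T * δ)⌉ + 3 := ⟨_, rfl⟩
  obtain ⟨w', hw'⟩ : ∃ w', w' = ⌈2 * (T * δ')⌉ + 3 := ⟨_, rfl⟩
  have hTδ : 0 < T * δ := mul_pos hT' hδ
  have hw1 : 2 * (T * δ) + 3 ≤ (w : ℝ) := by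
    rw [hw]
    push_cast
    linarith [Int.le_ceil (2 * (T * δ))]
  have hw2 : (w : ℝ) < 2 * (T * δ) + 4 := by
    rw [hw]
    push_cast
    linarith [Int.ceil_lt_add_one (2 * (T * δ))]
  have hw3 : 2 * (T * δ') + 3 ≤ (w' : ℝ) := by
    rw [hw']
    push_cast
    linarith [Int.le_ceil (2 * (T * δ'))]
  have hw4 : (w' : ℝ) < 2 * (T * δ') + 4 := by
    rw [hw']
    push_cast
    linarith [Int.ceil_lt_add_one (2 * (T * δ'))]
  have hmul : T * (2 * δ) ≤ T * δ' := mul_le_mul_of_nonneg_left hδ' hT'.le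
  have hww : w ≤ w' := by
    rw [hw, hw']
    have : ⌈2 * (T * δ)⌉ ≤ ⌈2 * (T * δ')⌉ := Int.ceil_le_ceil (by linarith)
    linarith
  obtain ⟨i0, i1, hp⟩ := pinch_of (f := f) (r := r) (a := (a : ℤ)) (w := w) (w' := w') hT hj hr hfr hu (y := y) (δ := δ)
    (δ' := δ') (by rw [hf]; exact c1) (by rw [hf]; exact c2) (by
      intro s s' hs hs'
      rw [hf]
      exact c3 (s, s') ⟨hs, hs'⟩) (by
      intro s s' hs hs'
      rw [hf]
      exact c4 (s, s') ⟨hs, hs'⟩) (by push_cast; linarith) (by push_cast; linarith) (by linarith) (by linarith)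
      (by linarith) hww
  have he4 : (2 : ℝ) ^ (e + 2) ≤ ρ * T / 2 := by
    rw [pow_add]
    linarith
  refine zs_of_pinch hj hjN hp ?_ hww ?_ hk2 ?_ ?_
  · have : (0 : ℝ) < w := by linarith
    exact_mod_cast this
  · have : ((2 * w' : ℤ) : ℝ) ≤ ((2 ^ k : ℤ) : ℝ) := by
      push_cast
      linarith
    exact_mod_cast this
  · have : ((a + 2 ^ (e + 2) : ℕ) : ℝ) ≤ (j : ℝ) := by
      push_cast
      linarith
    exact_mod_cast this
  · intro c d1 d2 d3 d4
    rcases Nat.lt_or_ge c T with d5 | d5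
    · have g1 : (c : ℝ) / T ∈ (cutset T t : Set ℝ) := mem_cutset.2 ⟨c, d5.le, Or.inr d4, rfl⟩
      refine hK _ g1 ?_
      rw [Metric.mem_closedBall, Real.dist_eq]
      have e1 : (c : ℝ) / T - 2 / 3 * y = (c - 2 / 3 * (T * y)) / T := by
        field_simp
      rw [e1, abs_div, abs_of_pos hT', div_le_iff₀ hT', abs_le]
      have d1' : ((a : ℕ) : ℝ) ≤ ((c + 2 ^ (e + 2) : ℕ) : ℝ) := by exact_mod_cast d1
      have d2' : ((c : ℕ) : ℝ) ≤ ((a + 2 ^ (e + 2) : ℕ) : ℝ) := by exact_mod_cast d2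
      push_cast at d1' d2'
      constructor <;> linarith
    · exact hj.2.2 c d5 d3 d4

/-- the mass of the curves in Fs -/
lemma mass_Fs : ∃ K c : ℝ, 1 ≤ K ∧ 0 < c ∧ ∀ (X : ℕ → List Bool → C(unitInterval, ℂ)),
    (∀ T t, ∃ r : unitInterval ≃ₜ unitInterval, Monotone r ∧ ∀ u, X T t u = curve T t (r u)) →
    ∀ (ρ δ' δ : ℝ) (A l : ℕ), 0 < ρ → ρ ≤ 1 → 0 < δ → 2 * δ ≤ δ' → δ' ≤ ρ / 176 → 16 * (A : ℝ) ≤ ρ * 2 ^ l →
    ∀ᶠ T in atTop, gf {t | t ∈ FCW T ∧ (X T t, cutset T t) ∈ Fs ρ δ' δ A} ≤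
      ENNReal.ofReal (K * 2 ^ l * (176 * δ' / ρ) ^ c) := by
  obtain ⟨K, c, hK, hc, h⟩ := zs_le
  refine ⟨K, c, hK, hc, fun X hX ρ δ' δ A l hρ hρ1 hδ hδ' hδρ hl => ?_⟩
  have hδ'0 : 0 < δ' := by linarith
  filter_upwards [eventually_ge_atTop (max 1 (⌈4 / δ⌉₊ + ⌈16 / ρ⌉₊))] with T hT
  have hT1 : 1 ≤ T := le_trans (le_max_left _ _) hT
  have hT' : (0 : ℝ) < T := by exact_mod_cast hT1
  have hT2 : ⌈4 / δ⌉₊ + ⌈16 / ρ⌉₊ ≤ T := le_trans (le_max_right _ _) hT
  have g1 : 4 ≤ T * δ := by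
    have : 4 / δ ≤ (T : ℝ) := (Nat.le_ceil _).trans (by exact_mod_cast (by omega : ⌈4 / δ⌉₊ ≤ T))
    rw [div_le_iff₀ hδ] at this
    exact this
  have g2 : 16 ≤ T * ρ := by
    have : 16 / ρ ≤ (T : ℝ) := (Nat.le_ceil _).trans (by exact_mod_cast (by omega : ⌈16 / ρ⌉₊ ≤ T))
    rw [div_le_iff₀ hρ] at this
    exact this
  have hmul : T * (2 * δ) ≤ T * δ' := mul_le_mul_of_nonneg_left hδ' hT'.le
  have hmul2 : T * δ' ≤ T * (ρ / 176) := mul_le_mul_of_nonneg_left hδρ hT'.le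
  -- the scale of the giants
  obtain ⟨e, he1, he2⟩ : ∃ e : ℕ, (2 : ℝ) ^ e ≤ ρ * T / 8 ∧ ρ * T / 8 < (2 : ℝ) ^ (e + 1) :=
    exists_nat_pow_near (by linarith) (by norm_num)
  obtain ⟨k', hk1, hk2⟩ : ∃ k' : ℕ, (2 : ℝ) ^ k' ≤ 5 * (T * δ') ∧ 5 * (T * δ') < (2 : ℝ) ^ (k' + 1) :=
    exists_nat_pow_near (by linarith) (by norm_num)
  have hke : k' + 1 ≤ e := by
    have g3 : (2 : ℝ) ^ (k' + 1) < (2 : ℝ) ^ (e + 1) := by
      rw [pow_succ]
      have : (2 : ℝ) ^ k' * 2 ≤ 10 * (T * (ρ / 176)) := by linarith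
      have g4 : 0 < T * ρ := by positivity
      linarith
    have := (pow_lt_pow_iff_right₀ (by norm_num : (1 : ℝ) < 2)).1 g3
    omega
  have hsub : {t | t ∈ FCW T ∧ (X T t, cutset T t) ∈ Fs ρ δ' δ A} ⊆ ZS T (A * T) (k' + 1) e := by
    rintro t ⟨t1, t2⟩
    exact disc hX hT1 hδ hδ' (by linarith) (by linarith) (by linarith) (by linarith) hk2.le hke he1 t1 t2
  refine (gf_mono hsub).trans ((h T (A * T) (k' + 1) e hke).trans (ENNReal.ofReal_le_ofReal ?_))
  have hUe := Ub_pos e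
  have hN : HexObs.UU (A * T) ≤ 2 ^ l * Ub e := by
    have g3 : A * T ≤ 2 ^ (e + l) := by
      have g4 : ((A * T : ℕ) : ℝ) ≤ ((2 ^ (e + l) : ℕ) : ℝ) := by
        push_cast
        rw [pow_add]
        have g5 : 16 * (A : ℝ) * T ≤ ρ * 2 ^ l * T := mul_le_mul_of_nonneg_right hl hT'.le
        have g6 : ρ * T / 8 * 2 ^ l ≤ (2 : ℝ) ^ (e + 1) * 2 ^ l := mul_le_mul_of_nonneg_right he2.le (by positivity)
        rw [pow_succ] at g6
        linarith
      exact_mod_cast g4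
    exact (Num2Aux.UU_mono g3).trans (Ub_add e l)
  have hq : HexObs.UU (A * T) / Ub e ≤ 2 ^ l := by
    rw [div_le_iff₀ hUe]
    exact hN
  have hp : (2 : ℝ) ^ (-(c * ((e : ℝ) - (k' + 1 : ℕ)))) ≤ (176 * δ' / ρ) ^ c := by
    have e1 : (2 : ℝ) ^ (-(c * ((e : ℝ) - (k' + 1 : ℕ)))) = ((2 : ℝ) ^ (k' + 1) / 2 ^ e) ^ c := by
      rw [← Real.rpow_natCast, ← Real.rpow_natCast, ← Real.rpow_sub two_pos, ← Real.rpow_mul two_pos.le]
      congr 1
      ring
    rw [e1]
    apply Real.rpow_le_rpow (by positivity) _ hc.le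
    rw [div_le_div_iff₀ (by positivity) hρ]
    rw [pow_succ] at he2 ⊢
    have g3 : (2 : ℝ) ^ k' * 2 * ρ ≤ 10 * (T * δ') * ρ := mul_le_mul_of_nonneg_right (by linarith) hρ.le
    have g4 : 176 * δ' * (ρ * T / 16) ≤ 176 * δ' * 2 ^ e := mul_le_mul_of_nonneg_left (by linarith) (by positivity)
    have g5 : 0 < T * δ' * ρ := by positivity
    linarith
  calc K * (HexObs.UU (A * T) / Ub e) * (2 : ℝ) ^ (-(c * ((e : ℝ) - (k' + 1 : ℕ))))
      ≤ K * 2 ^ l * (176 * δ' / ρ) ^ c := by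
        apply mul_le_mul _ hp (TK.p_pos _).le (by positivity)
        exact mul_le_mul_of_nonneg_left hq (by linarith)

/-- a simple cut level: the curve is pinched -/
lemma simple_PinC {f : C(unitInterval, ℂ)} {y : ℝ} (hs : Simple f y) : ∃ u0 u1 : unitInterval, u0 ≤ u1 ∧
    ∀ δ' : ℝ, 0 < δ' → ∃ δ0 : ℝ, 0 < δ0 ∧ ∀ δ : ℝ, 0 < δ → δ < δ0 → f ∈ PinC u0 u1 y δ δ' := by
  obtain ⟨⟨uc, hlo, hhi⟩, hs⟩ := hs
  have hcont : Continuous fun u => (f u).im := Complex.continuous_im.comp f.continuous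
  have hZ : IsCompact {u : unitInterval | (f u).im = y} := (isClosed_eq hcont continuous_const).isCompact
  have hne : {u : unitInterval | (f u).im = y}.Nonempty := ⟨uc, le_antisymm (hlo uc le_rfl) (hhi uc le_rfl)⟩
  obtain ⟨u0, hu0, hmin⟩ := hZ.exists_isLeast hne
  obtain ⟨u1, hu1, hmax⟩ := hZ.exists_isGreatest hne
  have h0c : u0 ≤ uc := hmin (le_antisymm (hlo uc le_rfl) (hhi uc le_rfl))
  have hc1 : uc ≤ u1 := hmax (le_antisymm (hlo uc le_rfl) (hhi uc le_rfl))
  refine ⟨u0, u1, h0c.trans hc1, fun δ' hδ' => ?_⟩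
  -- up to u0
  have hB : ∃ d : ℝ, 0 < d ∧ ∀ q ∈ {q : unitInterval × unitInterval | q.1 ≤ q.2 ∧ q.2 ≤ u0}, (f q.2).im ≤ y - δ' →
      (f q.1).im ≤ y - d := by
    have hcl : IsClosed {q : unitInterval × unitInterval | (q.1 ≤ q.2 ∧ q.2 ≤ u0) ∧ (f q.2).im ≤ y - δ'} := by
      have g1 : IsClosed {q : unitInterval × unitInterval | q.1 ≤ q.2} := isClosed_le continuous_fst continuous_snd
      have g2 : IsClosed {q : unitInterval × unitInterval | q.2 ≤ u0} := isClosed_le continuous_snd continuous_const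
      have g3 : IsClosed {q : unitInterval × unitInterval | (f q.2).im ≤ y - δ'} :=
        isClosed_le (hcont.comp continuous_snd) continuous_const
      exact (g1.inter g2).inter g3
    rcases Set.eq_empty_or_nonempty {q : unitInterval × unitInterval | (q.1 ≤ q.2 ∧ q.2 ≤ u0) ∧ (f q.2).im ≤ y - δ'}
      with h | h
    · refine ⟨1, one_pos, fun q hq1 hq2 => ?_⟩
      have : q ∈ (∅ : Set (unitInterval × unitInterval)) := by
        rw [← h]
        exact ⟨hq1, hq2⟩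
      exact this.elim
    · obtain ⟨q, hq, hqm⟩ := hcl.isCompact.exists_isMaxOn h (f := fun q => (f q.1).im)
        (hcont.comp continuous_fst).continuousOn
      have hq1 : (f q.1).im < y := by
        have a1 : q.2 < u0 := by
          rcases hq.1.2.lt_or_eq with h' | h'
          · exact h'
          · exfalso
            have a2 := hq.2
            rw [h'] at a2
            have a3 : (f u0).im = y := hu0
            linarith
        have a2 : q.1 < u0 := lt_of_le_of_lt hq.1.1 a1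
        rcases (hlo q.1 (a2.le.trans h0c)).lt_or_eq with h' | h'
        · exact h'
        · exact absurd (hmin h') (not_le.2 a2)
      refine ⟨y - (f q.1).im, by linarith, fun p hp1 hp2 => ?_⟩
      have := hqm (show p ∈ {q : unitInterval × unitInterval | (q.1 ≤ q.2 ∧ q.2 ≤ u0) ∧ (f q.2).im ≤ y - δ'} from
        ⟨hp1, hp2⟩)
      simp only [Set.mem_ofPred_eq] at this
      linarith
  -- from u1 on
  have hC : ∃ d : ℝ, 0 < d ∧ ∀ q ∈ {q : unitInterval × unitInterval | u1 ≤ q.2 ∧ q.2 ≤ q.1}, y + δ' ≤ (f q.2).im →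
      y + d ≤ (f q.1).im := by
    have hcl : IsClosed {q : unitInterval × unitInterval | (u1 ≤ q.2 ∧ q.2 ≤ q.1) ∧ y + δ' ≤ (f q.2).im} := by
      have g1 : IsClosed {q : unitInterval × unitInterval | u1 ≤ q.2} := isClosed_le continuous_const continuous_snd
      have g2 : IsClosed {q : unitInterval × unitInterval | q.2 ≤ q.1} := isClosed_le continuous_snd continuous_fst
      have g3 : IsClosed {q : unitInterval × unitInterval | y + δ' ≤ (f q.2).im} :=
        isClosed_le continuous_const (hcont.comp continuous_snd)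
      exact (g1.inter g2).inter g3
    rcases Set.eq_empty_or_nonempty {q : unitInterval × unitInterval | (u1 ≤ q.2 ∧ q.2 ≤ q.1) ∧ y + δ' ≤ (f q.2).im}
      with h | h
    · refine ⟨1, one_pos, fun q hq1 hq2 => ?_⟩
      have : q ∈ (∅ : Set (unitInterval × unitInterval)) := by
        rw [← h]
        exact ⟨hq1, hq2⟩
      exact this.elim
    · obtain ⟨q, hq, hqm⟩ := hcl.isCompact.exists_isMinOn h (f := fun q => (f q.1).im)
        (hcont.comp continuous_fst).continuousOn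
      have hq1 : y < (f q.1).im := by
        have a1 : u1 < q.2 := by
          rcases hq.1.1.lt_or_eq with h' | h'
          · exact h'
          · exfalso
            have a2 := hq.2
            rw [← h'] at a2
            have a3 : (f u1).im = y := hu1
            linarith
        have a2 : u1 < q.1 := lt_of_lt_of_le a1 hq.1.2
        rcases (hhi q.1 (hc1.trans a2.le)).lt_or_eq with h' | h'
        · exact h'
        · exact absurd (hmax h'.symm) (not_le.2 a2)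
      refine ⟨(f q.1).im - y, by linarith, fun p hp1 hp2 => ?_⟩
      have := hqm (show p ∈ {q : unitInterval × unitInterval | (u1 ≤ q.2 ∧ q.2 ≤ q.1) ∧ y + δ' ≤ (f q.2).im} from
        ⟨hp1, hp2⟩)
      simp only [Set.mem_ofPred_eq] at this
      linarith
  obtain ⟨d1, hd1, hd1'⟩ := hB
  obtain ⟨d2, hd2, hd2'⟩ := hC
  refine ⟨min d1 d2 / 2, by positivity, fun δ hδ hδd => ?_⟩
  have e1 : 2 * δ < d1 := by
    have := min_le_left d1 d2
    linarith
  have e2 : 2 * δ < d2 := by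
    have := min_le_right d1 d2
    linarith
  refine ⟨fun s hsu => ?_, fun s hsu => ?_, fun q hq => ?_, fun q hq => ?_⟩
  · rcases le_total s uc with h | h
    · have := hlo s h
      linarith
    · have := hs u0 s u1 (h0c.trans h) hsu hu0 hu1
      linarith
  · rcases le_total s uc with h | h
    · have := hs u0 s u1 hsu (h.trans hc1) hu0 hu1
      linarith
    · have := hhi s h
      linarith
  · by_contra hcon
    push Not at hcon
    have := hd1' q hq hcon.2
    linarith [hcon.1]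
  · by_contra hcon
    push Not at hcon
    have := hd2' q hq hcon.2
    linarith [hcon.1]

/-- J4: the simple cut levels of a limit curve are in the limit of the cut levels of the walks -/
theorem simple_mem {X : ℕ → List Bool → C(unitInterval, ℂ)} {φ : ℕ → ℕ} {π : ProbabilityMeasure (C(unitInterval, ℂ) × CutLim.NC)}
    (hX : ∀ T t, ∃ r : unitInterval ≃ₜ unitInterval, Monotone r ∧ ∀ u, X T t u = curve T t (r u))
    (hφ : Tendsto φ atTop atTop) (hπ : Tendsto (fun k => jl X (φ k)) atTop (𝓝 π)) :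
    ∀ᵐ p ∂(π : Measure (C(unitInterval, ℂ) × CutLim.NC)), ∀ h : ℝ, Simple p.1 (3 / 2 * h) →
      h ∈ p.2 ∨ 3 / 2 * h = (p.1 1).im := by
  obtain ⟨K, c, hK, hc, hmass⟩ := mass_Fs
  -- the mass of Fs in the limit
  have h1 : ∀ (ρ δ' δ : ℝ) (A l : ℕ), 0 < ρ → ρ ≤ 1 → 0 < δ → 2 * δ ≤ δ' → δ' ≤ ρ / 176 → 16 * (A : ℝ) ≤ ρ * 2 ^ l →
      (π : Measure (C(unitInterval, ℂ) × NC)) (Fs ρ δ' δ A) ≤ ENNReal.ofReal (K * 2 ^ l * (176 * δ' / ρ) ^ c) := by
    intro ρ δ' δ A l a1 a2 a3 a4 a5 a6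
    refine (ProbabilityMeasure.le_liminf_measure_open_of_tendsto hπ (open_Fs ρ δ' δ A)).trans ?_
    refine liminf_le_of_frequently_le' (Eventually.frequently ?_)
    filter_upwards [hφ.eventually (hmass X hX ρ δ' δ A l a1 a2 a3 a4 a5 a6)] with k hk
    rw [jl_apply _ (open_Fs ρ δ' δ A).measurableSet]
    exact hk
  -- the scale δ tends to 0
  have h2 : ∀ (ρ δ' : ℝ) (A l : ℕ), 0 < ρ → ρ ≤ 1 → 0 < δ' → δ' ≤ ρ / 176 → 16 * (A : ℝ) ≤ ρ * 2 ^ l →
      (π : Measure (C(unitInterval, ℂ) × NC)) {p | ∃ δ0 : ℝ, 0 < δ0 ∧ ∀ δ, 0 < δ → δ < δ0 → p ∈ Fs ρ δ' δ A} ≤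
        ENNReal.ofReal (K * 2 ^ l * (176 * δ' / ρ) ^ c) := by
    intro ρ δ' A l a1 a2 a3 a4 a5
    have hsub : {p | ∃ δ0 : ℝ, 0 < δ0 ∧ ∀ δ, 0 < δ → δ < δ0 → p ∈ Fs ρ δ' δ A} ⊆
        ⋃ n0 : ℕ, ⋂ n : ℕ, ⋂ _ : n0 ≤ n, Fs ρ δ' (δ' / 2 / ((n : ℝ) + 1)) A := by
      rintro p ⟨δ0, b1, b2⟩
      obtain ⟨n0, hn0⟩ := exists_nat_gt (δ' / 2 / δ0)
      refine Set.mem_iUnion.2 ⟨n0, Set.mem_iInter₂.2 fun n hn => b2 _ (by positivity) ?_⟩
      rw [div_lt_iff₀ b1] at hn0
      rw [div_lt_iff₀ (by positivity)]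
      have hn' : (n0 : ℝ) ≤ n := by exact_mod_cast hn
      have : (n0 : ℝ) * δ0 ≤ n * δ0 := mul_le_mul_of_nonneg_right hn' b1.le
      linarith
    refine (measure_mono hsub).trans ?_
    rw [Monotone.measure_iUnion]
    · refine iSup_le fun n0 => ?_
      refine (measure_mono (Set.iInter₂_subset n0 le_rfl)).trans (h1 ρ δ' _ A l a1 a2 (by positivity) ?_ a4 a5)
      have h3 : δ' / 2 / ((n0 : ℝ) + 1) ≤ δ' / 2 := div_le_self (by positivity) (by
        have : (0 : ℝ) ≤ n0 := Nat.cast_nonneg n0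
        linarith)
      linarith
    · intro m n hmn p hp
      rw [Set.mem_iInter₂] at hp ⊢
      exact fun i hi => hp i (hmn.trans hi)
  -- δ' tends to 0
  have h3 : ∀ (ρ : ℝ) (A : ℕ), 0 < ρ → ρ ≤ 1 → (π : Measure (C(unitInterval, ℂ) × NC))
      {p | ∀ δ' : ℝ, 0 < δ' → ∃ δ0 : ℝ, 0 < δ0 ∧ ∀ δ, 0 < δ → δ < δ0 → p ∈ Fs ρ δ' δ A} = 0 := by
    intro ρ A a1 a2
    obtain ⟨l, hl⟩ : ∃ l : ℕ, 16 * (A : ℝ) ≤ ρ * 2 ^ l := by
      obtain ⟨l, hl⟩ := pow_unbounded_of_one_lt (16 * (A : ℝ) / ρ) (by norm_num : (1 : ℝ) < 2)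
      rw [div_lt_iff₀ a1] at hl
      exact ⟨l, by linarith⟩
    refine Touch.zero_of_le (Touch.pow_tendsto hc (K * 2 ^ l) (176 / ρ)) (a := ρ / 176) (by positivity) fun η hη hη1 => ?_
    refine (measure_mono (t := {p | ∃ δ0 : ℝ, 0 < δ0 ∧ ∀ δ, 0 < δ → δ < δ0 → p ∈ Fs ρ η δ A}) fun p hp => ?_).trans
      ((h2 ρ η A l a1 a2 hη hη1 hl).trans (le_of_eq ?_))
    · exact (show ∀ δ' : ℝ, 0 < δ' → ∃ δ0 : ℝ, 0 < δ0 ∧ ∀ δ, 0 < δ → δ < δ0 → p ∈ Fs ρ δ' δ A from hp) η hη
    congr 3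
    ring
  -- all exceptional points
  have h4 : ∀ᵐ p ∂(π : Measure (C(unitInterval, ℂ) × NC)), ∀ m A : ℕ,
      ¬ ∀ δ' : ℝ, 0 < δ' → ∃ δ0 : ℝ, 0 < δ0 ∧ ∀ δ, 0 < δ → δ < δ0 → p ∈ Fs (1 / ((m : ℝ) + 1)) δ' δ A := by
    rw [ae_all_iff]
    intro m
    rw [ae_all_iff]
    intro A
    rw [ae_iff]
    simp only [not_not]
    refine h3 _ A (by positivity) ?_
    rw [div_le_one (by positivity)]
    have : (0 : ℝ) ≤ m := Nat.cast_nonneg m
    linarith
  filter_upwards [h4] with p hp h hs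
  by_contra hcon
  push Not at hcon
  obtain ⟨hK1, htop⟩ := hcon
  obtain ⟨u0, u1, hu, hpin⟩ := simple_PinC hs
  have htop' : 3 / 2 * h < (p.1 1).im := by
    obtain ⟨⟨uc, -, hhi⟩, -⟩ := hs
    rcases (hhi 1 unitInterval.le_one').lt_or_eq with h' | h'
    · exact h'
    · exact absurd h' htop
  -- far from K
  have hd : 0 < Metric.infDist h (p.2 : Set ℝ) :=
    (p.2.isCompact.isClosed.notMem_iff_infDist_pos p.2.nonempty).1 hK1
  obtain ⟨m, hm⟩ := exists_nat_one_div_lt (lt_min hd (show 0 < ((p.1 1).im - 3 / 2 * h) / 2 by linarith))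
  have hm1 := hm.trans_le (min_le_left _ _)
  have hm2 := hm.trans_le (min_le_right _ _)
  obtain ⟨A, hA⟩ := exists_nat_gt ‖p.1‖
  refine hp m A fun δ' hδ' => ?_
  obtain ⟨δ0, hδ0, hδ⟩ := hpin δ' hδ'
  refine ⟨δ0, hδ0, fun δ a1 a2 => ⟨hA, u0, u1, hu, 3 / 2 * h, hδ δ a1 a2, ?_, ?_⟩⟩
  · intro s hs hs'
    rw [Metric.mem_closedBall, show 2 / 3 * (3 / 2 * h) = h by ring, dist_comm] at hs'
    have := Metric.infDist_le_dist_of_mem (x := h) hs
    linarith
  · linarith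

end CutJ
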