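import Pool.Agent.CutJ.JL
import Pool.Agent.CutJ.ZLim
import Pool.Agent.CutJ.ZDet

/-! CUTJ, J4: the cut levels of the limit curves are the points of the limit set, up to a countable set; the dimension of
the set of the cut levels is 3/4. -/

set_option autoImplicit false

namespace CutJ

open Filter Topology MeasureTheory TopologicalSpace HexObs CutLim

open scoped ENNReal

/-- almost every first coordinate has a second coordinate such that an almost sure property holds -/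
theorem ae_fst {E F : Type*} [MetricSpace E] [MeasurableSpace E] [BorelSpace E] [SecondCountableTopology E]
    [CompleteSpace E] [MetricSpace F] [MeasurableSpace F] [BorelSpace F] [SecondCountableTopology F] [CompleteSpace F]
    {π : Measure (E × F)} [IsProbabilityMeasure π] {Q : E × F → Prop} (hQ : ∀ᵐ p ∂π, Q p) :
    ∀ᵐ x ∂(π.map Prod.fst), ∃ y, Q (x, y) := by
  obtain ⟨N, hN1, hN2, hN3⟩ := exists_measurable_superset π {p | ¬ Q p}
  have hN0 : π N = 0 := by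
    rw [hN3]
    exact ae_iff.1 hQ
  have hN4 : π Nᶜ = 1 := (prob_compl_eq_one_iff hN2).2 hN0
  have hin := innerRegular_isCompact_isClosed_measurableSet_of_finite π
  have h1 : ∀ n : ℕ, ∃ K : Set (E × F), K ⊆ Nᶜ ∧ IsCompact K ∧ ENNReal.ofReal (1 - 1 / ((n : ℝ) + 2)) < π K := by
    intro n
    have h2 : ENNReal.ofReal (1 - 1 / ((n : ℝ) + 2)) < π Nᶜ := by
      rw [hN4, ENNReal.ofReal_lt_one]
      have : (0 : ℝ) < 1 / ((n : ℝ) + 2) := by positivity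
      linarith
    obtain ⟨K, hK1, hK2, hK3⟩ := hin hN2.compl _ h2
    exact ⟨K, hK1, hK2.1, hK3⟩
  choose K hK1 hK2 hK4 using h1
  have hprob1 : IsProbabilityMeasure (π.map Prod.fst) := Measure.isProbabilityMeasure_map measurable_fst.aemeasurable
  have hG : ∀ n, MeasurableSet (Prod.fst '' K n) := fun n => ((hK2 n).image continuous_fst).isClosed.measurableSet
  have hval : ∀ n, (π.map Prod.fst) (Prod.fst '' K n)ᶜ ≤ ENNReal.ofReal (1 / ((n : ℝ) + 2)) := by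
    intro n
    have h2 : ENNReal.ofReal (1 - 1 / ((n : ℝ) + 2)) ≤ (π.map Prod.fst) (Prod.fst '' K n) := by
      rw [Measure.map_apply measurable_fst (hG n)]
      exact (hK4 n).le.trans (measure_mono fun p hp => ⟨p, hp, rfl⟩)
    rw [prob_compl_eq_one_sub (hG n), tsub_le_iff_right]
    have h3 : (1 : ℝ≥0∞) = ENNReal.ofReal (1 / ((n : ℝ) + 2)) + ENNReal.ofReal (1 - 1 / ((n : ℝ) + 2)) := by
      have h4 : (0 : ℝ) ≤ 1 - 1 / ((n : ℝ) + 2) := by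
        rw [sub_nonneg, div_le_one (by positivity)]
        have : (0 : ℝ) ≤ n := Nat.cast_nonneg n
        linarith
      rw [← ENNReal.ofReal_add (by positivity) h4, ← ENNReal.ofReal_one]
      congr 1
      ring
    calc (1 : ℝ≥0∞) = ENNReal.ofReal (1 / ((n : ℝ) + 2)) + ENNReal.ofReal (1 - 1 / ((n : ℝ) + 2)) := h3
      _ ≤ _ := add_le_add le_rfl h2
  rw [ae_iff]
  have h5 : ∀ n : ℕ, (π.map Prod.fst) {x | ¬ ∃ y, Q (x, y)} ≤ ENNReal.ofReal (1 / ((n : ℝ) + 2)) := by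
    intro n
    refine (measure_mono ?_).trans (hval n)
    rintro x hx ⟨p, hp, rfl⟩
    refine hx ⟨p.2, ?_⟩
    by_contra hcon
    exact hK1 n hp (hN1 hcon)
  have h6 : Tendsto (fun n : ℕ => ENNReal.ofReal (1 / ((n : ℝ) + 2))) atTop (𝓝 0) := by
    have h7 : Tendsto (fun n : ℕ => 1 / ((n : ℝ) + 2)) atTop (𝓝 0) := by
      have h8 : Tendsto (fun n : ℕ => (n : ℝ) + 2) atTop atTop := tendsto_atTop_add_const_right _ _ tendsto_natCast_atTop_atTop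
      refine h8.inv_tendsto_atTop.congr fun n => ?_
      rw [Pi.inv_apply, one_div]
    have := (ENNReal.continuous_ofReal.tendsto 0).comp h7
    rwa [ENNReal.ofReal_zero] at this
  exact le_antisymm (ge_of_tendsto' h6 h5) zero_le

/-- up to a countable set all cut levels of the limit curve are in the limit set -/
theorem levels_countable {X : ℕ → List Bool → C(unitInterval, ℂ)} {φ : ℕ → ℕ}
    {π : ProbabilityMeasure (C(unitInterval, ℂ) × CutLim.NC)}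
    (hX : ∀ T t, ∃ r : unitInterval ≃ₜ unitInterval, Monotone r ∧ ∀ u, X T t u = curve T t (r u))
    (hφ : Tendsto φ atTop atTop) (hπ : Tendsto (fun k => jl X (φ k)) atTop (𝓝 π)) :
    ∀ᵐ p ∂(π : Measure (C(unitInterval, ℂ) × CutLim.NC)), {h : ℝ | CutLevel p.1 (3 / 2 * h) ∧ h ∉ p.2}.Countable := by
  filter_upwards [simple_mem hX hφ hπ] with p hp
  have h1 : {h : ℝ | CutLevel p.1 (3 / 2 * h) ∧ h ∉ p.2} ⊆
      (fun h : ℝ => 3 / 2 * h) ⁻¹' {h | CutLevel p.1 h ∧ ¬ Simple p.1 h} ∪ {2 / 3 * (p.1 1).im} := by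
    rintro h ⟨h1, h2⟩
    by_cases h3 : Simple p.1 (3 / 2 * h)
    · right
      rcases hp h h3 with h4 | h4
      · exact absurd h4 h2
      · show h = 2 / 3 * (p.1 1).im
        rw [← h4]
        ring
    · left
      exact ⟨h1, h3⟩
  refine Set.Countable.mono h1 (Set.Countable.union ?_ (Set.countable_singleton _))
  exact (not_simple_countable p.1).preimage (fun a b hab => by
    have : (3 : ℝ) / 2 * a = 3 / 2 * b := hab
    linarith)

lemma dim_exact {K : NC} {f : C(unitInterval, ℂ)} (hK : ∀ h ∈ K, CutLevel f (3 / 2 * h))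
    (hc : {h : ℝ | CutLevel f (3 / 2 * h) ∧ h ∉ K}.Countable)
    {r : ℝ} (h : dimH ((K : Set ℝ) ∩ Set.Icc 0 (2 / 3 * r)) = ((3 / 4 : NNReal) : ℝ≥0∞)) :
    dimH {h : ℝ | h ∈ Set.Icc 0 r ∧ CutLevel f h} = ((3 / 4 : NNReal) : ℝ≥0∞) := by
  refine le_antisymm ?_ (dim_scale hK h)
  have h1 : LipschitzWith (3 / 2) (fun x : ℝ => 3 / 2 * x) := by
    refine LipschitzWith.of_dist_le_mul fun x y => ?_
    rw [Real.dist_eq, Real.dist_eq, ← mul_sub, abs_mul]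
    have h2 : |(3 / 2 : ℝ)| = ((3 / 2 : NNReal) : ℝ) := by
      rw [abs_of_pos (by norm_num)]
      push_cast
      rfl
    rw [h2]
  have h2 : {h : ℝ | h ∈ Set.Icc 0 r ∧ CutLevel f h} ⊆ (fun x : ℝ => 3 / 2 * x) ''
      (((K : Set ℝ) ∩ Set.Icc 0 (2 / 3 * r)) ∪ {h : ℝ | CutLevel f (3 / 2 * h) ∧ h ∉ K}) := by
    rintro x ⟨⟨h3, h4⟩, h5⟩
    have e : 3 / 2 * (2 / 3 * x) = x := by ring
    refine ⟨2 / 3 * x, ?_, e⟩
    by_cases h6 : 2 / 3 * x ∈ K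
    · left
      exact ⟨h6, by linarith, by linarith⟩
    · right
      exact ⟨by rw [e]; exact h5, h6⟩
  refine (dimH_mono h2).trans ((h1.dimH_image_le _).trans ?_)
  rw [dimH_union, h, hc.dimH_zero]
  simp

/-- THE CUT LEVELS OF THE LIMIT CURVES -/
theorem cut_structure {b : ℝ} (hb : 0 < b) (hu : Tendsto (fun n : ℕ => (n : ℝ) ^ (1 / 4 : ℝ) * uu n) atTop (𝓝 b))
    {X : ℕ → List Bool → C(unitInterval, ℂ)} {μ : ℕ → ProbabilityMeasure C(unitInterval, ℂ)}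
    {φ : ℕ → ℕ} {ν : ProbabilityMeasure C(unitInterval, ℂ)} {κ : ProbabilityMeasure (NC × ℝ)}
    (hκ : Tendsto pl atTop (𝓝 κ))
    (hX : ∀ T t, ∃ r : unitInterval ≃ₜ unitInterval, Monotone r ∧ ∀ u, X T t u = curve T t (r u))
    (hμ : ∀ T, (μ T : Measure C(unitInterval, ℂ)) = ((lawK T).map (X T)).toMeasure)
    (htight : IsTightMeasureSet {ν : Measure C(unitInterval, ℂ) | ∃ T, 1 ≤ T ∧ ν = μ T})
    (hφ : Tendsto φ atTop atTop) (hν : Tendsto (fun k => μ (φ k)) atTop (𝓝 ν)) :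
    (∃ π : Measure (C(unitInterval, ℂ) × NC), IsProbabilityMeasure π ∧
      π.map Prod.fst = (ν : Measure C(unitInterval, ℂ)) ∧
      π.map (fun p => (p.2, 2 / 3 * (p.1 1).im)) = κ ∧
      ∀ᵐ p ∂π, (∀ h ∈ p.2, CutLevel p.1 (3 / 2 * h)) ∧ {h : ℝ | CutLevel p.1 (3 / 2 * h) ∧ h ∉ p.2}.Countable) ∧
    (∀ᵐ f ∂(ν : Measure C(unitInterval, ℂ)), ∃ K : NC, ((K : Set ℝ) ⊆ Set.Icc 0 1 ∧ 0 ∈ K ∧
      ∀ r : ℝ, 0 < r → dimH ((K : Set ℝ) ∩ Set.Icc 0 r) = ((3 / 4 : NNReal) : ℝ≥0∞)) ∧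
      (∀ h ∈ K, CutLevel f (3 / 2 * h)) ∧ {h : ℝ | CutLevel f (3 / 2 * h) ∧ h ∉ K}.Countable) ∧
    ∀ᵐ f ∂(ν : Measure C(unitInterval, ℂ)), ∀ r : ℝ, 0 < r →
      dimH {h : ℝ | h ∈ Set.Icc 0 r ∧ CutLevel f h} = ((3 / 4 : NNReal) : ℝ≥0∞) := by
  obtain ⟨κ1, k1, k2, k3, -⟩ := half_limit hb hu
  obtain ⟨ρ, p1, p2, p3, p4, p5⟩ := pair hb hu k1 k3
  obtain ⟨π, ψ, hψ, h1, h2, h3, ρ', r1, h4, h5⟩ := joint_top hb hu hX htight hμ hφ hν
  have hρ : ρ' = κ := tendsto_nhds_unique r1 hκ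
  have hρ2 : ρ' = ρ := tendsto_nhds_unique r1 p1
  have hcont : Continuous fun p : C(unitInterval, ℂ) × NC => (p.2, 2 / 3 * (p.1 1).im) :=
    continuous_snd.prodMk (continuous_const.mul (Complex.continuous_im.comp ((continuous_eval_const 1).comp
      continuous_fst)))
  have h6 : (π : Measure (C(unitInterval, ℂ) × NC)).map Prod.snd = κ1 := by
    rw [← p4, ← hρ2, ← h4, Measure.map_map measurable_fst hcont.measurable]
    rfl
  have h7 := levels_countable hX (hφ.comp hψ.tendsto_atTop) h1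
  have h8 : ∀ᵐ p ∂(π : Measure (C(unitInterval, ℂ) × NC)), (p.2 : Set ℝ) ⊆ Set.Icc 0 1 ∧ 0 ∈ p.2 ∧
      ∀ r : ℝ, 0 < r → dimH ((p.2 : Set ℝ) ∩ Set.Icc 0 r) = ((3 / 4 : NNReal) : ℝ≥0∞) := by
    have h9 : ∀ᵐ K : NC ∂(κ1 : Measure NC), (K : Set ℝ) ⊆ Set.Icc 0 1 ∧ 0 ∈ K ∧
        ∀ r : ℝ, 0 < r → dimH ((K : Set ℝ) ∩ Set.Icc 0 r) = ((3 / 4 : NNReal) : ℝ≥0∞) := by
      filter_upwards [k2, dim_half hb hu k1] with K h7 h8
      exact ⟨h7.1, h7.2 rfl, h8.2⟩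
    rw [← h6] at h9
    exact ae_of_ae_map measurable_snd.aemeasurable h9
  have h9 : ∀ᵐ f ∂(ν : Measure C(unitInterval, ℂ)), ∃ K : NC, ((K : Set ℝ) ⊆ Set.Icc 0 1 ∧ 0 ∈ K ∧
      ∀ r : ℝ, 0 < r → dimH ((K : Set ℝ) ∩ Set.Icc 0 r) = ((3 / 4 : NNReal) : ℝ≥0∞)) ∧
      (∀ h ∈ K, CutLevel f (3 / 2 * h)) ∧ {h : ℝ | CutLevel f (3 / 2 * h) ∧ h ∉ K}.Countable := by
    rw [← h2]
    refine ae_fst (Q := fun p : C(unitInterval, ℂ) × NC => ((p.2 : Set ℝ) ⊆ Set.Icc 0 1 ∧ 0 ∈ p.2 ∧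
      ∀ r : ℝ, 0 < r → dimH ((p.2 : Set ℝ) ∩ Set.Icc 0 r) = ((3 / 4 : NNReal) : ℝ≥0∞)) ∧
      (∀ h ∈ p.2, CutLevel p.1 (3 / 2 * h)) ∧ {h : ℝ | CutLevel p.1 (3 / 2 * h) ∧ h ∉ p.2}.Countable) ?_
    filter_upwards [h3, h7, h8] with p g1 g2 g3
    exact ⟨g3, g1, g2⟩
  refine ⟨⟨π, inferInstance, h2, by rw [h4, hρ], ?_⟩, h9, ?_⟩
  · filter_upwards [h3, h7] with p g1 g2
    exact ⟨g1, g2⟩
  · filter_upwards [h9] with f hf r hr
    obtain ⟨K, g1, g2, g3⟩ := hf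
    exact dim_exact g2 g3 (g1.2.2 (2 / 3 * r) (by positivity))

end CutJ
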