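import Pool.Agent.CutJ.ZPerf
import Pool.Agent.CutJ.ZFin
import Mathlib.Topology.MetricSpace.Perfect

/-! CUTJ, J4: the limit set is the set of the condensation points of the cut levels. -/

set_option autoImplicit false

namespace CutJ

open Filter Topology MeasureTheory TopologicalSpace HexObs CutLim

open scoped ENNReal

/-- the condensation points of a set -/
def Cond (S : Set ℝ) : Set ℝ := {x | ∀ ε : ℝ, 0 < ε → ¬ (S ∩ Metric.ball x ε).Countable}

lemma cond_eq {K S : Set ℝ} (hK : IsClosed K) (hiso : ∀ x ∈ K, ∀ ε : ℝ, 0 < ε → ∃ y ∈ K, y ≠ x ∧ |y - x| < ε)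
    (hKS : K ⊆ S) (hc : (S \ K).Countable) : Cond S = K := by
  have hacc : Preperfect K := by
    intro x hx
    rw [accPt_iff_nhds]
    intro U hU
    obtain ⟨ε, hε, hεU⟩ := Metric.mem_nhds_iff.1 hU
    obtain ⟨y, hy, hyx, hd⟩ := hiso x hx ε hε
    exact ⟨y, ⟨hεU (by rwa [Metric.mem_ball, Real.dist_eq]), hy⟩, hyx⟩
  ext x
  constructor
  · intro hx
    by_contra hcon
    obtain ⟨ε, hε, hεK⟩ := Metric.isOpen_iff.1 hK.isOpen_compl x hcon
    refine hx ε hε (hc.mono ?_)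
    rintro y ⟨hy1, hy2⟩
    exact ⟨hy1, hεK hy2⟩
  · intro hx ε hε hcount
    have h1 := (⟨hK, hacc⟩ : Perfect K).closure_nhds_inter (U := Metric.ball x (ε / 2)) x hx
      (Metric.mem_ball_self (by linarith)) Metric.isOpen_ball
    obtain ⟨f, hf, -, hinj⟩ := h1.1.exists_nat_bool_injection h1.2
    have h2 : closure (Metric.ball x (ε / 2) ∩ K) ⊆ S ∩ Metric.ball x ε := by
      intro y hy
      have h3 : closure (Metric.ball x (ε / 2) ∩ K) ⊆ Metric.closedBall x (ε / 2) ∩ K :=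
        closure_minimal (fun z hz => ⟨Metric.ball_subset_closedBall hz.1, hz.2⟩)
          (Metric.isClosed_closedBall.inter hK)
      obtain ⟨h4, h5⟩ := h3 hy
      have h6 : dist y x ≤ ε / 2 := h4
      refine ⟨hKS h5, ?_⟩
      rw [Metric.mem_ball]
      linarith
    have h3 : (Set.range f).Countable := hcount.mono (hf.trans h2)
    have h4 : Countable (ℕ → Bool) := by
      have h5 : Countable (Set.range f) := h3.to_subtype
      exact (Set.rangeFactorization_injective.2 hinj).countable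
    obtain ⟨g, hg⟩ := exists_surjective_nat (ℕ → Bool)
    obtain ⟨n, hn⟩ := hg fun n => !(g n n)
    have h5 := congrFun hn n
    simp at h5

/-- the level 1 is not in the limit set -/
theorem one_notMem {b : ℝ} (hb : 0 < b) (hu : Tendsto (fun n : ℕ => (n : ℝ) ^ (1 / 4 : ℝ) * uu n) atTop (𝓝 b))
    {κ : ProbabilityMeasure NC} (hκ : ∀ l, Adm l 1 → ((κ : Measure NC) (AvS (clg l))).toReal = AH l) :
    ∀ᵐ K : NC ∂(κ : Measure NC), (1 : ℝ) ∉ K := by
  have hu' : Tendsto (fun n : ℕ => (n : ℝ) ^ (1 - 3 / 4 : ℝ) * uu n) atTop (𝓝 b) := by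
    have he : (1 : ℝ) - 3 / 4 = 1 / 4 := by norm_num
    rw [he]
    exact hu
  have h1 := Avl_cont ren_uu (by norm_num : (0 : ℝ) < 3 / 4) (by norm_num) hb hu' (one_pos : (0 : ℝ) < 1)
    (L := 𝓝[<] (1 : ℝ)) (x := fun x => x) (y := fun _ => 1) (tendsto_id.mono_left nhdsWithin_le_nhds)
    tendsto_const_nhds (by
      filter_upwards [self_mem_nhdsWithin] with y hy
      exact le_of_lt hy)
  have h2 : Tendsto (fun x : ℝ => ENNReal.ofReal (1 - AH [(x, 1)])) (𝓝[<] 1) (𝓝 (ENNReal.ofReal (1 - 1))) := by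
    refine (ENNReal.continuous_ofReal.tendsto _).comp (tendsto_const_nhds.sub ?_)
    refine h1.congr fun y => ?_
    rw [Avl_scale hb.ne']
    rfl
  rw [sub_self, ENNReal.ofReal_zero] at h2
  rw [ae_iff]
  simp only [not_not]
  refine le_antisymm (ge_of_tendsto h2 ?_) zero_le
  filter_upwards [Ioo_mem_nhdsLT (zero_lt_one' ℝ)] with x hx
  have h3 : {K : NC | (1 : ℝ) ∈ K} ⊆ (AvS (clg [(x, 1)]))ᶜ := by
    intro K hK hK2
    exact hK2 1 hK ⟨(x, 1), List.mem_singleton.2 rfl, hx.2.le, le_rfl⟩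
  refine (measure_mono h3).trans ?_
  have hm : MeasurableSet (AvS (clg [(x, 1)])) := (isOpen_AvS (isClosed_clg _)).measurableSet
  rw [prob_compl_eq_one_sub hm]
  have h4 := hκ [(x, 1)] ⟨hx.2, le_rfl, hx.1⟩
  have h5 : (κ : Measure NC) (AvS (clg [(x, 1)])) = ENNReal.ofReal (AH [(x, 1)]) := by
    rw [← h4, ENNReal.ofReal_toReal (measure_ne_top _ _)]
  have h6 : 0 ≤ AH [(x, 1)] := by
    rw [← h4]
    exact ENNReal.toReal_nonneg
  rw [h5, ENNReal.ofReal_sub 1 h6, ENNReal.ofReal_one]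

/-- a coupling concentrated on the graph of a function -/
theorem graph {E F : Type*} [MeasurableSpace E] [StandardBorelSpace E] [MeasurableSpace F] [StandardBorelSpace F] [Nonempty F]
    {π : Measure (E × F)} {k : E → F} (h : ∀ᵐ p ∂π, p.2 = k p.1) :
    AEMeasurable k (π.map Prod.fst) ∧ ∀ {G : Type*} [MeasurableSpace G] {g : E × F → G}, Measurable g →
      (π.map Prod.fst).map (fun x => g (x, k x)) = π.map g := by
  classical
  obtain ⟨N, hN1, hN2, hN3⟩ := exists_measurable_superset π {p | ¬ p.2 = k p.1}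
  have hN0 : π N = 0 := by
    rw [hN3]
    exact ae_iff.1 h
  have hG : ∀ p ∈ Nᶜ, p.2 = k p.1 := by
    intro p hp
    by_contra hcon
    exact hp (hN1 hcon)
  have hinj : Set.InjOn (Prod.fst : E × F → E) Nᶜ := by
    intro p hp q hq hpq
    refine Prod.ext hpq ?_
    rw [hG p hp, hG q hq, hpq]
  have hA : MeasurableSet (Prod.fst '' Nᶜ) := hN2.compl.image_of_measurable_injOn measurable_fst hinj
  obtain ⟨y0⟩ := (inferInstance : Nonempty F)
  have hk' : Measurable ((Prod.fst '' Nᶜ).piecewise k fun _ => y0) := by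
    intro S hS
    have h1 : MeasurableSet (Prod.fst '' (Nᶜ ∩ Prod.snd ⁻¹' S)) :=
      (hN2.compl.inter (measurable_snd hS)).image_of_measurable_injOn measurable_fst (hinj.mono Set.inter_subset_left)
    have h2 : ((Prod.fst '' Nᶜ).piecewise k fun _ => y0) ⁻¹' S =
        (Prod.fst '' (Nᶜ ∩ Prod.snd ⁻¹' S)) ∪ ((Prod.fst '' Nᶜ)ᶜ ∩ (if y0 ∈ S then Set.univ else ∅)) := by
      ext x
      by_cases hx : x ∈ Prod.fst '' Nᶜ
      · rw [Set.mem_preimage, Set.piecewise_eq_of_mem _ _ _ hx]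
        constructor
        · intro h3
          obtain ⟨p, hp, rfl⟩ := hx
          left
          refine ⟨p, ⟨hp, ?_⟩, rfl⟩
          rw [Set.mem_preimage, hG p hp]
          exact h3
        · rintro (⟨p, ⟨hp, hpS⟩, rfl⟩ | h3)
          · rw [← hG p hp]
            exact hpS
          · exact absurd hx h3.1
      · rw [Set.mem_preimage, Set.piecewise_eq_of_notMem _ _ _ hx]
        constructor
        · intro h3
          right
          rw [if_pos h3]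
          exact ⟨hx, trivial⟩
        · rintro (⟨p, ⟨hp, hpS⟩, rfl⟩ | h3)
          · exact absurd ⟨p, hp, rfl⟩ hx
          · by_contra hcon
            rw [if_neg hcon] at h3
            exact h3.2
    rw [h2]
    refine h1.union (hA.compl.inter ?_)
    split_ifs
    · exact MeasurableSet.univ
    · exact MeasurableSet.empty
  have hae : ∀ᵐ p ∂π, p ∈ Nᶜ := by
    rw [ae_iff]
    simpa using hN0
  have hae2 : ∀ᵐ x ∂(π.map Prod.fst), x ∈ Prod.fst '' Nᶜ := by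
    have h5 : ∀ᵐ x ∂(π.map Prod.fst), x ∈ Prod.fst '' Nᶜ ↔ True := by
      rw [ae_iff]
      have e : {x | ¬ (x ∈ Prod.fst '' Nᶜ ↔ True)} = (Prod.fst '' Nᶜ)ᶜ := by
        ext x
        simp only [iff_true, Set.mem_ofPred_eq, Set.mem_compl_iff]
      rw [e, Measure.map_apply measurable_fst hA.compl]
      refine measure_mono_null ?_ hN0
      intro p hp
      by_contra hcon
      exact hp ⟨p, hcon, rfl⟩
    filter_upwards [h5] with x hx
    exact hx.2 trivial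
  have heq : k =ᵐ[π.map Prod.fst] (Prod.fst '' Nᶜ).piecewise k fun _ => y0 := by
    filter_upwards [hae2] with x hx
    rw [Set.piecewise_eq_of_mem _ _ _ hx]
  refine ⟨⟨_, hk', heq⟩, ?_⟩
  intro G _ g hg
  have h1 : (π.map Prod.fst).map (fun x => g (x, k x)) =
      (π.map Prod.fst).map (fun x => g (x, (Prod.fst '' Nᶜ).piecewise k (fun _ => y0) x)) := by
    apply Measure.map_congr
    filter_upwards [heq] with x hx
    rw [hx]
  have h2 : Measurable fun x => g (x, (Prod.fst '' Nᶜ).piecewise k (fun _ => y0) x) := hg.comp (measurable_id.prodMk hk')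
  rw [h1, Measure.map_map h2 measurable_fst]
  apply Measure.map_congr
  filter_upwards [hae] with p hp
  have h3 : p.1 ∈ Prod.fst '' Nᶜ := ⟨p, hp, rfl⟩
  show g (p.1, (Prod.fst '' Nᶜ).piecewise k (fun _ => y0) p.1) = g p
  rw [Set.piecewise_eq_of_mem _ _ _ h3, ← hG p hp]

/-- the rescaled cut levels of a curve -/
def Lev (g : C(unitInterval, ℂ)) : Set ℝ := {h | CutLevel g (3 / 2 * h)}

open Classical in
/-- the set of the condensation points of the rescaled cut levels, as a nonempty compact set -/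
noncomputable def Kc (g : C(unitInterval, ℂ)) : NC :=
  if h : ∃ K : NC, (K : Set ℝ) = Cond (Lev g) then h.choose else {0}

lemma Kc_eq {g : C(unitInterval, ℂ)} {K : NC} (h : (K : Set ℝ) = Cond (Lev g)) : K = Kc g := by
  have h1 : ∃ K : NC, (K : Set ℝ) = Cond (Lev g) := ⟨K, h⟩
  unfold Kc
  rw [dif_pos h1]
  apply SetLike.coe_injective
  rw [h, h1.choose_spec]

/-- THE CUT LEVELS OF THE LIMIT CURVES: the set Kc of the condensation points of the cut levels has the law of the limit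
set, jointly with the last level; all its points are cut levels; all other cut levels are a countable set -/
theorem cut_law {b : ℝ} (hb : 0 < b) (hu : Tendsto (fun n : ℕ => (n : ℝ) ^ (1 / 4 : ℝ) * uu n) atTop (𝓝 b))
    {X : ℕ → List Bool → C(unitInterval, ℂ)} {μ : ℕ → ProbabilityMeasure C(unitInterval, ℂ)}
    {φ : ℕ → ℕ} {ν : ProbabilityMeasure C(unitInterval, ℂ)} {κ : ProbabilityMeasure (NC × ℝ)}
    (hκ : Tendsto pl atTop (𝓝 κ))
    (hX : ∀ T t, ∃ r : unitInterval ≃ₜ unitInterval, Monotone r ∧ ∀ u, X T t u = curve T t (r u))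
    (hμ : ∀ T, (μ T : Measure C(unitInterval, ℂ)) = ((lawK T).map (X T)).toMeasure)
    (htight : IsTightMeasureSet {ν : Measure C(unitInterval, ℂ) | ∃ T, 1 ≤ T ∧ ν = μ T})
    (hφ : Tendsto φ atTop atTop) (hν : Tendsto (fun k => μ (φ k)) atTop (𝓝 ν)) :
    AEMeasurable Kc (ν : Measure C(unitInterval, ℂ)) ∧
    (ν : Measure C(unitInterval, ℂ)).map (fun g => (Kc g, 2 / 3 * (g 1).im)) = κ ∧
    ∀ᵐ g ∂(ν : Measure C(unitInterval, ℂ)), (Kc g : Set ℝ) = Cond (Lev g) ∧ (Kc g : Set ℝ) ⊆ Lev g ∧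
      (Lev g \ Kc g).Countable ∧ (Kc g : Set ℝ) ⊆ Set.Ico 0 1 ∧ 0 ∈ Kc g ∧
      (∀ x ∈ Kc g, ∀ ε : ℝ, 0 < ε → ∃ y ∈ Kc g, y ≠ x ∧ |y - x| < ε) ∧
      (∀ r : ℝ, 0 < r → dimH (Lev g ∩ Set.Icc 0 r) = ((3 / 4 : NNReal) : ℝ≥0∞)) ∧
      ∀ r : ℝ, 0 < r → dimH {h : ℝ | h ∈ Set.Icc 0 r ∧ CutLevel g h} = ((3 / 4 : NNReal) : ℝ≥0∞) := by
  obtain ⟨κ1, k1, k2, k3, -⟩ := half_limit hb hu
  obtain ⟨ρ, p1, p2, p3, p4, p5⟩ := pair hb hu k1 k3
  obtain ⟨π, ψ, hψ, h1, h2, h3, ρ', r1, h4, h5⟩ := joint_top hb hu hX htight hμ hφ hν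
  have hρ : ρ' = κ := tendsto_nhds_unique r1 hκ
  have hρ2 : ρ' = ρ := tendsto_nhds_unique r1 p1
  have hcont : Continuous fun p : C(unitInterval, ℂ) × NC => (p.2, 2 / 3 * (p.1 1).im) :=
    continuous_snd.prodMk (continuous_const.mul (Complex.continuous_im.comp ((continuous_eval_const 1).comp
      continuous_fst)))
  have h6 : (π : Measure (C(unitInterval, ℂ) × NC)).map Prod.snd = κ1 := by
    rw [← p4, ← hρ2, ← h4, Measure.map_map measurable_fst hcont.measurable]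
    rfl
  have hφψ := hφ.comp hψ.tendsto_atTop
  have h7 := levels_countable hX hφψ h1
  have h8 : ∀ᵐ p ∂(π : Measure (C(unitInterval, ℂ) × NC)), ((p.2 : Set ℝ) ⊆ Set.Icc 0 1 ∧ 0 ∈ p.2 ∧
      ∀ r : ℝ, 0 < r → dimH ((p.2 : Set ℝ) ∩ Set.Icc 0 r) = ((3 / 4 : NNReal) : ℝ≥0∞)) ∧ (1 : ℝ) ∉ p.2 := by
    have h9 : ∀ᵐ K : NC ∂(κ1 : Measure NC), ((K : Set ℝ) ⊆ Set.Icc 0 1 ∧ 0 ∈ K ∧
        ∀ r : ℝ, 0 < r → dimH ((K : Set ℝ) ∩ Set.Icc 0 r) = ((3 / 4 : NNReal) : ℝ≥0∞)) ∧ (1 : ℝ) ∉ K := by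
      filter_upwards [k2, dim_half hb hu k1, one_notMem hb hu (fun l hl => (k3 l hl).2.2)] with K h7 h8 h9
      exact ⟨⟨h7.1, h7.2 rfl, h8.2⟩, h9⟩
    rw [← h6] at h9
    exact ae_of_ae_map measurable_snd.aemeasurable h9
  have h9 : ∀ᵐ p ∂(π : Measure (C(unitInterval, ℂ) × NC)), ((p.2 : Set ℝ) = Cond (Lev p.1) ∧ (p.2 : Set ℝ) ⊆ Lev p.1 ∧
      (Lev p.1 \ p.2).Countable ∧ (p.2 : Set ℝ) ⊆ Set.Ico 0 1 ∧ 0 ∈ p.2 ∧
      (∀ x ∈ p.2, ∀ ε : ℝ, 0 < ε → ∃ y ∈ p.2, y ≠ x ∧ |y - x| < ε) ∧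
      ∀ r : ℝ, 0 < r → dimH ((p.2 : Set ℝ) ∩ Set.Icc 0 r) = ((3 / 4 : NNReal) : ℝ≥0∞)) := by
    filter_upwards [h3, h7, h8, no_iso hφψ h1] with p g1 g2 g3 g4
    have hlt : ∀ x ∈ p.2, x < 1 := by
      intro x hx
      rcases (g3.1.1 hx).2.lt_or_eq with h | h
      · exact h
      · rw [h] at hx
        exact absurd hx g3.2
    have hiso : ∀ x ∈ p.2, ∀ ε : ℝ, 0 < ε → ∃ y ∈ p.2, y ≠ x ∧ |y - x| < ε := fun x hx => g4 x hx (hlt x hx)
    have hsub : (p.2 : Set ℝ) ⊆ Lev p.1 := fun x hx => g1 x hx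
    have hc : (Lev p.1 \ p.2).Countable := by
      refine g2.mono ?_
      rintro x ⟨hx1, hx2⟩
      exact ⟨hx1, hx2⟩
    exact ⟨(cond_eq p.2.isCompact.isClosed hiso hsub hc).symm, hsub, hc, fun x hx => ⟨(g3.1.1 hx).1, hlt x hx⟩, g3.1.2.1,
      hiso, g3.1.2.2⟩
  have h10 : ∀ᵐ p ∂(π : Measure (C(unitInterval, ℂ) × NC)), p.2 = Kc p.1 := by
    filter_upwards [h9] with p hp
    exact Kc_eq hp.1
  obtain ⟨h11, h12⟩ := graph h10
  have h13 : ∀ᵐ p ∂(π : Measure (C(unitInterval, ℂ) × NC)), ((Kc p.1 : Set ℝ) = Cond (Lev p.1) ∧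
      (Kc p.1 : Set ℝ) ⊆ Lev p.1 ∧ (Lev p.1 \ Kc p.1).Countable ∧ (Kc p.1 : Set ℝ) ⊆ Set.Ico 0 1 ∧ 0 ∈ Kc p.1 ∧
      (∀ x ∈ Kc p.1, ∀ ε : ℝ, 0 < ε → ∃ y ∈ Kc p.1, y ≠ x ∧ |y - x| < ε) ∧
      ∀ r : ℝ, 0 < r → dimH ((Kc p.1 : Set ℝ) ∩ Set.Icc 0 r) = ((3 / 4 : NNReal) : ℝ≥0∞)) := by
    filter_upwards [h9, h10] with p g1 g2
    rw [← g2]
    exact g1
  have h14 := ae_fst (Q := fun p : C(unitInterval, ℂ) × NC => ((Kc p.1 : Set ℝ) = Cond (Lev p.1) ∧
      (Kc p.1 : Set ℝ) ⊆ Lev p.1 ∧ (Lev p.1 \ Kc p.1).Countable ∧ (Kc p.1 : Set ℝ) ⊆ Set.Ico 0 1 ∧ 0 ∈ Kc p.1 ∧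
      (∀ x ∈ Kc p.1, ∀ ε : ℝ, 0 < ε → ∃ y ∈ Kc p.1, y ≠ x ∧ |y - x| < ε) ∧
      ∀ r : ℝ, 0 < r → dimH ((Kc p.1 : Set ℝ) ∩ Set.Icc 0 r) = ((3 / 4 : NNReal) : ℝ≥0∞))) h13
  rw [h2] at h11 h14
  refine ⟨h11, ?_, ?_⟩
  · have h15 := h12 hcont.measurable
    rw [h2, h4, hρ] at h15
    exact h15
  · filter_upwards [h14] with g hg
    obtain ⟨-, g1, g2, g3, g4, g5, g6, g7⟩ := hg
    have hc : {h : ℝ | CutLevel g (3 / 2 * h) ∧ h ∉ Kc g}.Countable := by
      refine g3.mono ?_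
      rintro x ⟨hx1, hx2⟩
      exact ⟨hx1, hx2⟩
    refine ⟨g1, g2, g3, g4, g5, g6, ?_, ?_⟩
    · intro r hr
      apply le_antisymm
      · refine (dimH_mono (t := ((Kc g : Set ℝ) ∩ Set.Icc 0 r) ∪ (Lev g \ Kc g)) ?_).trans ?_
        · rintro x ⟨hx1, hx2⟩
          by_cases h : x ∈ Kc g
          · left
            exact ⟨h, hx2⟩
          · right
            exact ⟨hx1, h⟩
        · rw [dimH_union, g7 r hr, g3.dimH_zero]
          simp
      · rw [← g7 r hr]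
        exact dimH_mono fun x hx => ⟨g2 hx.1, hx.2⟩
    · intro r hr
      exact dim_exact g2 hc (g7 (2 / 3 * r) (by positivity))

end CutJ
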