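import Pool.Agent.CutJ.ZDefs
import Pool.Agent.SDN.ZigZag

/-!
CUTJ, J4, module Z1: the zig-zag of a pinched walk.
-/

set_option autoImplicit false

namespace HexObs

namespace SDN

open Finset TS

open ZZ

/-- every row that is not a cut has a zig-zag -/
theorem zig_gen {h a : ℕ} {g : List Bool} (hg : g ∈ Brd h) (ha : 1 ≤ a) (hah : a < h) (hnc : ¬ Cut g a) :
    ∃ (u d w : ℕ) (G1 D G3 : List Bool) (i p q : ℕ), G1 ∈ Brd u ∧ D ∈ Brd d ∧ G3 ∈ Brd w ∧ unf [G1, D, G3] = g ∧
      LFold G1 D ∧ LFold D G3 ∧ a ≤ u ∧ u ≤ a + d ∧ 1 ≤ d ∧ h + d = u + w ∧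
      p < q ∧ q < i ∧ i < g.length ∧ lev g i = 3 * a ∧ (∀ k, k ≤ i → lev g k ≤ lev g p) ∧
      (∀ k, p ≤ k → k ≤ g.length → lev g q ≤ lev g k) ∧ lev g p = 3 * u ∧ lev g q + 1 + 3 * d = 3 * u ∧
      1 ≤ p ∧ (∃ c : Bool, G1 = g.take (p - 1) ++ [c]) ∧ (∀ k, k ≤ p → lev G1 k = lev g k) ∧
      G3 = g.drop (q + 1) ∧ (∀ k, lev G3 k = lev g (q + 1 + k) - lev g (q + 1)) ∧ lev g (q + 1) = lev g q + 1 ∧
      dx up g (q + 1) = up := by
  obtain ⟨t1, t2, t3, t4⟩ := mem_Brd.1 hg
  have hSA : g ∈ SA := ⟨fun _ _ _ => Set.mem_univ _, t2⟩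
  have ha' : (1 : ℤ) ≤ a := by exact_mod_cast ha
  have hah' : (a : ℤ) < h := by exact_mod_cast hah
  obtain ⟨i, i1, i2, i3⟩ := exists_last (P := fun i => lev g i ≤ 3 * a) g.length (by
    show lev g 0 ≤ 3 * a
    rw [lev_zero]
    omega)
  have i4 : i < g.length := by
    rcases Nat.lt_or_ge i g.length with h' | h'
    · exact h'
    · exfalso
      have : i = g.length := by omega
      rw [this, t4] at i2
      omega
  have i5 : ∀ k, i < k → k ≤ g.length → 3 * (a : ℤ) < lev g k := fun k k1 k2 => not_le.1 (i3 k k1 k2)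
  -- the vertex i is a foot
  have hmod := lev_mod g i
  have hmod' := lev_mod g (i + 1)
  have hfoot : lev g i = 3 * a ∧ dx up g i = up := by
    have h1 := i5 (i + 1) (by omega) (by omega)
    rcases cl_cases (D := up) upd g i with h2 | h2
    · rcases step_pos (D := up) upd h2 with ⟨a1, a2⟩ | a2
      · have a2' : lev g (i + 1) = lev g i + 2 := a2
        refine ⟨?_, a1⟩
        by_cases hev : Even i
        · rw [if_pos hev] at hmod
          omega
        · rw [if_neg hev] at hmod
          rw [if_pos (Nat.even_add_one.2 hev)] at hmod'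
          omega
      · have a2' : lev g (i + 1) = lev g i - 1 := a2
        omega
    · rcases step_neg (D := up) upd h2 with ⟨a1, a2⟩ | a2
      · have a2' : lev g (i + 1) = lev g i - 2 := a2
        omega
      · have a2' : lev g (i + 1) = lev g i + 1 := a2
        exfalso
        by_cases hev : Even i
        · rw [if_pos hev] at hmod
          rw [if_neg (by rw [Nat.even_add_one]; simpa using hev)] at hmod'
          omega
        · rw [if_neg hev] at hmod
          rw [if_pos (Nat.even_add_one.2 hev)] at hmod'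
          omega
  obtain ⟨f1, f2⟩ := hfoot
  have i6 : 1 ≤ i := by
    by_contra hcon
    have : i = 0 := by omega
    rw [this, lev_zero] at f1
    omega
  obtain ⟨i', rfl⟩ : ∃ i', i = i' + 1 := ⟨i - 1, by omega⟩
  have f3 := pre_foot f2
  obtain ⟨p, -, p2, p3, p4⟩ := exists_last_max (lev g) (Nat.zero_le (i' + 1))
  rcases Nat.lt_or_ge p (i' + 1) with hp | hp
  swap
  · -- a cut
    exfalso
    have hpi : p = i' + 1 := by omega
    rw [hpi] at p3
    exact hnc ((cut_iff hg).2 ⟨i' + 1, by omega, f1, f2, fun k hk => by rw [← f1]; exact p3 k (Nat.zero_le _) hk, i5⟩)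
  · -- a zig-zag
    have p5 : 3 * (a : ℤ) < lev g p := by
      have := p4 (i' + 1) hp le_rfl
      omega
    have p6 : p < i' := by
      rcases Nat.lt_or_ge p i' with h' | h'
      · exact h'
      · exfalso
        have : p = i' := by omega
        rw [this] at p5
        omega
    have p7 : 1 ≤ p := by
      by_contra hcon
      have : p = 0 := by omega
      rw [this, lev_zero] at p5
      omega
    obtain ⟨e, rfl⟩ : ∃ e, p = e + 1 := ⟨p - 1, by omega⟩
    -- the bottom fold
    obtain ⟨q, q1, q2, q3, q4⟩ := exists_last_max (fun k => -lev g k) (a := e + 1) (n := g.length) (by omega)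
    have q5 : lev g q < 3 * a := by
      have := q3 i' (by omega) (by omega)
      omega
    have q6 : q < i' + 1 := by
      by_contra hcon
      rcases Nat.lt_or_ge (i' + 1) q with h' | h'
      · have := i5 q h' q2
        omega
      · have : q = i' + 1 := by omega
        rw [this] at q5
        omega
    have q7 : e + 1 < q := by
      rcases Nat.lt_or_ge (e + 1) q with h' | h'
      · exact h'
      · exfalso
        have : q = e + 1 := by omega
        rw [this] at q5
        omega
    -- the first leaf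
    obtain ⟨c, M, hM1, hM, hsplit, hB, hlen, hvx, hvq, -, -, hH⟩ := fold_step (q := g) (e := e + 1) (by omega) (by omega)
      t2 (fun j j1 j2 => ⟨(lev_range hg (by omega)).2.2 j1, p3 j (Nat.zero_le _) (by omega)⟩)
      (p4 (e + 1 + 1) (by omega) (by omega)) (p4 (e + 1 + 2) (by omega) (by omega))
    have hlG : lst (g.take (e + 1 - 1) ++ [!c]) = !c := lst_append _ _
    -- the second leaf
    have hx : ∀ l, xD (-up) g l = -lev g l := by
      intro l
      unfold xD lev
      rw [ip_neg_right]
    have q8 : lev g (q + 1) > lev g q := by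
      have := q4 (q + 1) (by omega) (by omega)
      omega
    have q9 : lev g (q + 2) > lev g q := by
      have := q4 (q + 2) (by omega) (by omega)
      omega
    have hgap : lev g q + 4 ≤ lev g (e + 1) := by
      rw [hM] at p5 ⊢
      omega
    obtain ⟨c', d, r1, r2, r3, r4, r5, r6, r7, r8, r9, r10, r11, r12⟩ := leaf_core (D := -up) (dirs_neg upd) hSA (e := e)
      (e' := q) (by omega) (by omega)
      (by
        rw [hx, hx]
        have := p3 e (Nat.zero_le _) (by omega)
        omega)
      (fun k k1 k2 => by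
        rw [hx, hx, hx]
        have h1 := p4 k k1 (by omega)
        have h2 := q3 k (by omega) (by omega)
        constructor <;> omega)
      (by
        rw [hx, hx]
        omega)
      (by
        rw [hx, hx]
        omega)
      (by
        rw [hx, hx]
        omega)
    obtain ⟨D, hD⟩ : ∃ D, D = lw g (e + 1) q := ⟨_, rfl⟩
    rw [← hD] at r6 r7 r9 r10 r11 r12
    rw [hx, hx] at r5
    -- the third leaf
    obtain ⟨a', rfl⟩ : ∃ a', q = a' + 1 := ⟨q - 1, by omega⟩
    obtain ⟨w, w1, w2, w3, w4⟩ := last_leaf' hg (a := a') (by omega)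
      (by
        have := q3 a' (by omega) (by omega)
        omega)
      (fun k k1 k2 => by
        have := q4 k k1 k2
        omega)
    have hfr := w3
    have hlv : lev g (a' + 1 + 1) = lev g (a' + 1) + 1 := pre_foot w3
    refine ⟨M, d, w, g.take (e + 1 - 1) ++ [!c], D, g.drop (a' + 2), i' + 1, e + 1, a' + 1, hB, r6, w1, ?_, ?_, ?_, ?_, ?_,
      r3, ?_, q7, q6, i4, f1, fun k hk => p3 k (Nat.zero_le _) hk, ?_, hM, ?_, by omega, ⟨!c, rfl⟩, ?_, rfl, w4, hlv, w3⟩
    · have hsp : g.drop (e + 1 + 1) = D.dropLast ++ (!lst D) :: (!lst D) :: g.drop (a' + 1 + 1) := by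
        have hl : (g.take (e + 2)).length = e + 2 := by
          rw [List.length_take]
          omega
        conv_lhs => rw [r10]
        rw [List.drop_append_of_le_length (by omega), List.drop_of_length_le (by omega), List.nil_append]
      show (g.take (e + 1 - 1) ++ [!c]).dropLast ++ (!lst (g.take (e + 1 - 1) ++ [!c])) ::
        (!lst (g.take (e + 1 - 1) ++ [!c])) :: (D.dropLast ++ (!lst D) :: (!lst D) :: g.drop (a' + 2)) = g
      rw [hlG, Bool.not_not, List.dropLast_concat, ← hsp, ← hsplit]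
    · show Hang _ (lst _) D
      rw [hlG]
      apply hH
      intro k hk
      refine ⟨by omega, ?_⟩
      rw [r9 k hk, ← hvq]
    · exact r12 _ fun k hk => by
        rw [List.length_drop] at hk
        exact ⟨by omega, rfl⟩
    · have : (a : ℤ) ≤ M := by omega
      exact_mod_cast this
    · have : (M : ℤ) ≤ a + d := by omega
      exact_mod_cast this
    · omega
    · intro k k1 k2
      have := q3 k k1 k2
      omega
    · omega
    · intro k hk
      unfold lev
      rw [hvx k hk]

end SDN

end HexObs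

namespace CutJ

open HexObs Finset TS SDN

/-- a cut of the first leaf under the zig-zag is a cut of the walk -/
lemma cut_first {h u c p : ℕ} {g G1 : List Bool} {L : ℤ} (hg : g ∈ Brd h) (hG1 : G1 ∈ Brd u) {b : Bool}
    (hp : 1 ≤ p) (hpl : p ≤ g.length) (he : G1 = g.take (p - 1) ++ [b]) (hlev : ∀ k, k ≤ p → lev G1 k = lev g k)
    (hL : ∀ k, p ≤ k → k ≤ g.length → L ≤ lev g k) (hc : 3 * (c : ℤ) < L) (hcu : c < u) (hcut : Cut G1 c) : Cut g c := by
  obtain ⟨s, v, b', hs, hv, hsv⟩ := hcut
  have hlen : G1.length = p := by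
    rw [he, List.length_append, List.length_take, List.length_singleton]
    omega
  have hv1 : 1 ≤ v.length := by
    by_contra hcon
    have : v = [] := List.length_eq_zero_iff.1 (by omega)
    rw [this, List.append_nil] at hsv
    rw [hsv] at hG1
    have := Brd_height hs hG1
    omega
  have hsl : s.length + v.length = p := by
    rw [← hlen, hsv, List.length_append]
  have hst : s = g.take s.length := by
    have h1 : s = G1.take s.length := by
      rw [hsv, List.take_left]
    rw [he, List.take_append_of_le_length (by rw [List.length_take]; omega), List.take_take,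
      min_eq_left (by omega)] at h1
    exact h1
  have hgs : g = s ++ g.drop s.length := by
    conv_lhs => rw [← List.take_append_drop s.length g]
    rw [← hst]
  have hdl : (g.drop s.length).length + s.length = g.length := by
    rw [List.length_drop]
    omega
  have hsb := (mem_Brd.1 hs).2.2.1
  have hsh := (mem_Brd.1 hs).2.2.2
  have hr : c ≤ h ∧ g.drop s.length ∈ Brd (h - c) := by
    apply Brd_cancel hs (by rw [← hgs]; exact hg)
    intro j hj1 hj2
    rw [← hgs]
    rcases Nat.lt_or_ge p (s.length + j) with h1 | h1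
    · have := hL (s.length + j) h1.le (by omega)
      omega
    · rw [← hlev _ h1, hsv, lev_cat hsb, hsh]
      have := ((mem_Brd.1 hv).1 j hj1 (by omega)).1
      omega
  exact ⟨s, _, _, hs, hr.2, hgs⟩

/-- a cut of the last leaf over the zig-zag is a cut of the walk -/
lemma cut_last {h w c q : ℕ} {S U : ℤ} {g G3 : List Bool} (hg : g ∈ Brd h) (hG3 : G3 ∈ Brd w) (hql : q < g.length)
    (he : G3 = g.drop (q + 1)) (hlev : ∀ k, lev G3 k = lev g (q + 1 + k) - lev g (q + 1))
    (hS : lev g (q + 1) = 3 * S) (hdx : dx up g (q + 1) = up) (hU : ∀ k, k ≤ q → lev g k ≤ U)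
    (hUc : U ≤ 3 * (S + c)) (hcut : Cut G3 c) {c' : ℕ} (hc' : (c' : ℤ) = S + c) : Cut g c' := by
  obtain ⟨i, i1, i2, i3, i4, i5⟩ := (cut_iff hG3).1 hcut
  have hlen : G3.length + (q + 1) = g.length := by
    rw [he, List.length_drop]
    omega
  refine (cut_iff hg).2 ⟨q + 1 + i, by omega, ?_, ?_, ?_, ?_⟩
  · have := hlev i
    rw [i2] at this
    omega
  · rw [dx_drop, hdx, ← he]
    exact i3
  · intro k hk
    rcases Nat.lt_or_ge k (q + 1) with h1 | h1
    · have := hU k (by omega)
      omega
    · obtain ⟨k', rfl⟩ : ∃ k', k = q + 1 + k' := ⟨k - (q + 1), by omega⟩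
      have h2 := hlev k'
      have h3 := i4 k' (by omega)
      omega
  · intro k hk1 hk2
    obtain ⟨k', rfl⟩ : ∃ k', k = q + 1 + k' := ⟨k - (q + 1), by omega⟩
    have h2 := hlev k'
    have h3 := i5 k' (by omega) (by omega)
    omega

/-- Z1: a pinched walk without cuts near the pinch has a small zig-zag between two giants -/
theorem zs_of_pinch {T j N k e a : ℕ} {w w' : ℤ} {t : List Bool} {i0 i1 : ℕ} (ht : t ∈ FC T j) (hj : j ≤ N)
    (hp : Pinch t a w w' i0 i1) (hw : 0 < w) (hww : w ≤ w') (hk : 2 * w' ≤ 2 ^ k) (hke : k ≤ e)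
    (haj : a + 2 ^ (e + 2) ≤ j) (hc : ∀ c : ℕ, a ≤ c + 2 ^ (e + 2) → c ≤ a + 2 ^ (e + 2) → c < j → ¬ Cut t c) :
    t ∈ ZS T N k e := by
  have hte : 2 ^ (e + 2) = 4 * 2 ^ e := by ring
  have hpe : 1 ≤ 2 ^ e := Nat.one_le_two_pow
  have hkz : ((2 ^ k : ℕ) : ℤ) = 2 ^ k := by push_cast; rfl
  have hke2 : 2 ^ k ≤ 2 ^ e := Nat.pow_le_pow_right (by norm_num) hke
  have hk2 : 2 * w' ≤ ((2 ^ e : ℕ) : ℤ) := by
    have : ((2 ^ k : ℕ) : ℤ) ≤ ((2 ^ e : ℕ) : ℤ) := by exact_mod_cast hke2
    omega
  have hw1 : 2 ^ (e + 2) < a := by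
    by_contra hcon
    refine hc 0 (by omega) (by omega) (by omega) ⟨[], t, j, nil_mem_Brd, ht.1, rfl⟩
  have ha : 1 ≤ a := by omega
  have haj' : a < j := by omega
  have hnc : ¬ Cut t a := hc a (by omega) (by omega) haj'
  obtain ⟨u, d, wd, G1, D, G3, i, p, q, hG1, hD, hG3, hunf, hf1, hf2, hau, hud, hd1, hdw, hpq, hqi, hil, hli, hmax, hmin,
    hlp, hlq, hp1, ⟨b, hG1e⟩, hG1l, hG3e, hG3l, hlq1, hdxq⟩ := zig_gen ht.1 ha haj' hnc
  have hm : ∀ s, s ≤ i → lev t s < 3 * a + w' := by
    intro s hs
    rcases Nat.lt_or_ge i1 s with h1 | h1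
    · rcases hp.up i s h1.le hs hil.le with h2 | h2
      · omega
      · exact h2
    · have := hp.hi s h1
      omega
  have hlp2 : lev t p < 3 * a + w' := hm p (by omega)
  have hlq2 : 3 * a - w' < lev t q := by
    rcases Nat.lt_or_ge q i0 with h1 | h1
    · rcases hp.dn p q hpq.le h1.le with h2 | h2
      · omega
      · exact h2
    · have := hp.lo q h1 (by omega)
      omega
  have hd2 : d < 2 ^ k := by
    have : (d : ℤ) < ((2 ^ k : ℕ) : ℤ) := by omega
    exact_mod_cast this
  have hdu : d ≤ u := by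
    have := (lev_range ht.1 (i := q) (by omega)).2.2 (by omega)
    omega
  -- the first giant
  obtain ⟨c1, r1, A, I, M, e1, e2, e3, hA, hI, hM, hG1d⟩ := jump_dec (s := u - d - 1) (n := u) (by omega) hG1
  have hud1 : 1 ≤ u - d := by omega
  have hc1 : c1 + 2 ^ (e + 2) < a := by
    by_contra hcon
    rcases Nat.eq_zero_or_pos c1 with h0 | h0
    · rw [h0] at hcon
      omega
    · refine hc c1 (by omega) (by omega) (by omega) ?_
      refine cut_first ht.1 hG1 hp1 (by omega) hG1e hG1l hmin (L := lev t q) (by omega) (by omega) ?_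
      exact ⟨A, I ++ M, r1 + (u - c1 - r1), hA, Brd_append hI.1 hM, by rw [hG1d, List.append_assoc]⟩
  -- the second giant
  have hww2 : d < wd := by omega
  obtain ⟨x, r2, X, P, Z, f1, f2, f3, hX, hP, hZ, hG3d⟩ := jump_dec (s := d) (n := wd) hww2 hG3
  have hcg : ∀ c : ℕ, d ≤ c → Cut G3 c → Cut t (u - d + c) := by
    intro c hcd hcut
    exact cut_last (S := (u : ℤ) - d) (U := 3 * u) ht.1 hG3 (by omega) hG3e hG3l (by omega) hdxq
      (fun k hk => by rw [← hlp]; exact hmax k (by omega)) (by omega) hcut (by omega)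
  have hrow : a + 2 ^ (e + 2) ≤ u - d + (x + r2) := by
    rcases Nat.lt_or_ge (x + r2) wd with h1 | h1
    · by_contra hcon
      refine hc (u - d + (x + r2)) (by omega) (by omega) (by omega) (hcg _ (by omega) ?_)
      exact ⟨X ++ P, Z, wd - x - r2, Brd_append hX hP.1, hZ, hG3d⟩
    · omega
  refine ⟨A, I, M, D, X, P, Z, c1, r1, u - c1 - r1, d, x, r2, hA, by omega, hI, by omega, hM, by omega, hD, hd1, hd2, hX,
    f1, hP, by omega, by omega, ?_, ?_, ?_, ?_⟩
  · -- the rest of the walk
    have hrow' : T + d - (c1 + r1 + (u - c1 - r1) + x + r2) = T - (u - d + (x + r2)) := by omega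
    rw [hrow']
    refine ⟨wd - x - r2, hZ, ?_, ?_⟩
    · have := ht.2.1
      omega
    · intro c hc1' hc2' hcut
      obtain ⟨s, v, b', hs, hv, hsv⟩ := hcut
      have hcut3 : Cut G3 (x + r2 + c) :=
        ⟨X ++ P ++ s, v, b', Brd_append (Brd_append hX hP.1) hs, hv, by rw [hG3d, hsv]; simp only [List.append_assoc]⟩
      exact ht.2.2 _ (by omega) (by omega) (hcg _ (by omega) hcut3)
  · rw [List.append_assoc] at hG1d
    rw [← hG1d]
    exact hf1
  · rw [List.append_assoc] at hG3d
    rw [← hG3d]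
    exact hf2
  · rw [List.append_assoc] at hG1d hG3d
    rw [← hG1d, ← hG3d]
    exact hunf.symm

end CutJ
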