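import Pool.Agent.SDN.TwoK
import Pool.Agent.SDN.TwoScale
import Pool.Agent.SDN.CleanNorm

/-!
CUTJ, J4, module Z2, part A: the kernel of the fold with a giant behind it; the weight of the giants.
-/

set_option autoImplicit false

namespace CutJ

open HexObs Finset TS SDN

open scoped ENNReal

open Rec8 (mb)

open HexObs.SDN.TK

variable {C δ : ℝ}

/-- the sum over the ends of the second gain, with the ratio of the scales -/
lemma S2G (hδ : 0 < δ) : ∃ K : ℝ, 1 ≤ K ∧ ∀ k e : ℕ, k ≤ e →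
    ∑ b2 ∈ range (k + 1), ∑ a2 ∈ Icc b2 (k + 1), (2 : ℝ) ^ (kap0 / 4 * ((k : ℝ) + 1 - a2)) * (Ub a2 / Ub e) *
      (2 : ℝ) ^ (kap0 / 8 * ((e - a2 : ℕ) : ℝ)) * (2 : ℝ) ^ (-(δ / 2 * ((min a2 e - b2 : ℕ) : ℝ))) ≤
      K * (Ub k / Ub e * (2 : ℝ) ^ (kap0 / 8 * ((e : ℝ) - k))) := by
  have hk := kap0_pos
  obtain ⟨K1, hK1, h1⟩ := geo_Ub (η := kap0 / 4 + kap0 / 8) (by linarith)
  obtain ⟨K2, hK2, h2⟩ := geo_low (c := δ / 2) (by linarith)
  refine ⟨2 * K1 * K2, by nlinarith, fun k e hke => ?_⟩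
  have hke' : (k : ℝ) ≤ e := by exact_mod_cast hke
  have hUk := Ub_pos k
  have hUe := Ub_pos e
  rw [Finset.sum_comm' (s' := fun a2 => range (min a2 k + 1)) (t' := range (k + 2)) (by
    intro x y
    simp only [Finset.mem_range, Finset.mem_Icc]
    omega)]
  calc ∑ a2 ∈ range (k + 2), ∑ b2 ∈ range (min a2 k + 1), (2 : ℝ) ^ (kap0 / 4 * ((k : ℝ) + 1 - a2)) * (Ub a2 / Ub e) *
      (2 : ℝ) ^ (kap0 / 8 * ((e - a2 : ℕ) : ℝ)) * (2 : ℝ) ^ (-(δ / 2 * ((min a2 e - b2 : ℕ) : ℝ)))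
      = ∑ a2 ∈ range (k + 2), (2 : ℝ) ^ (kap0 / 4 * ((k : ℝ) + 1 - a2)) * (Ub a2 / Ub e) *
      (2 : ℝ) ^ (kap0 / 8 * ((e - a2 : ℕ) : ℝ)) * ∑ b2 ∈ range (min a2 k + 1),
        (2 : ℝ) ^ (-(δ / 2 * ((min a2 e - b2 : ℕ) : ℝ))) := by
        refine Finset.sum_congr rfl fun a2 _ => ?_
        rw [Finset.mul_sum]
    _ ≤ ∑ a2 ∈ range (k + 2), ((2 : ℝ) ^ ((kap0 / 4 + kap0 / 8) * (((k + 1 : ℕ) : ℝ) - a2)) * Ub a2) *
          ((2 : ℝ) ^ (kap0 / 8 * ((e : ℝ) - k)) * (K2 / Ub e)) := by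
        refine Finset.sum_le_sum fun a2 ha2 => ?_
        rw [Finset.mem_range] at ha2
        have e1 : (2 : ℝ) ^ (kap0 / 4 * ((k : ℝ) + 1 - a2)) * (2 : ℝ) ^ (kap0 / 8 * ((e - a2 : ℕ) : ℝ)) ≤
            (2 : ℝ) ^ ((kap0 / 4 + kap0 / 8) * (((k + 1 : ℕ) : ℝ) - a2)) * (2 : ℝ) ^ (kap0 / 8 * ((e : ℝ) - k)) := by
          rw [← Real.rpow_add two_pos, ← Real.rpow_add two_pos]
          apply p_mono
          have h3 : ((e - a2 : ℕ) : ℝ) ≤ ((k : ℝ) + 1 - a2) + ((e : ℝ) - k) := by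
            rcases Nat.lt_or_ge e a2 with h4 | h4
            · rw [Nat.sub_eq_zero_of_le h4.le]
              have : (a2 : ℝ) ≤ (k : ℝ) + 1 := by exact_mod_cast (show a2 ≤ k + 1 by omega)
              push_cast
              linarith
            · rw [Nat.cast_sub h4]
              linarith
          push_cast
          nlinarith
        have hUa := Ub_pos a2
        have e2 : ∑ b2 ∈ range (min a2 k + 1), (2 : ℝ) ^ (-(δ / 2 * ((min a2 e - b2 : ℕ) : ℝ))) ≤ K2 := by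
          refine le_trans (Finset.sum_le_sum fun b2 hb2 => ?_) (h2 (min a2 k))
          apply p_mono
          have h3 : ((min a2 k - b2 : ℕ) : ℝ) ≤ ((min a2 e - b2 : ℕ) : ℝ) := by
            exact_mod_cast (show min a2 k - b2 ≤ min a2 e - b2 by omega)
          nlinarith
        have e3 : 0 ≤ ∑ b2 ∈ range (min a2 k + 1), (2 : ℝ) ^ (-(δ / 2 * ((min a2 e - b2 : ℕ) : ℝ))) :=
          Finset.sum_nonneg fun b2 _ => (p_pos _).le
        calc (2 : ℝ) ^ (kap0 / 4 * ((k : ℝ) + 1 - a2)) * (Ub a2 / Ub e) *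
              (2 : ℝ) ^ (kap0 / 8 * ((e - a2 : ℕ) : ℝ)) * ∑ b2 ∈ range (min a2 k + 1),
                (2 : ℝ) ^ (-(δ / 2 * ((min a2 e - b2 : ℕ) : ℝ)))
            = ((2 : ℝ) ^ (kap0 / 4 * ((k : ℝ) + 1 - a2)) * (2 : ℝ) ^ (kap0 / 8 * ((e - a2 : ℕ) : ℝ))) *
                (Ub a2 / Ub e) * ∑ b2 ∈ range (min a2 k + 1),
                (2 : ℝ) ^ (-(δ / 2 * ((min a2 e - b2 : ℕ) : ℝ))) := by ring
          _ ≤ ((2 : ℝ) ^ ((kap0 / 4 + kap0 / 8) * (((k + 1 : ℕ) : ℝ) - a2)) * (2 : ℝ) ^ (kap0 / 8 * ((e : ℝ) - k))) *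
                (Ub a2 / Ub e) * K2 := by gcongr
          _ = _ := by ring
    _ = (∑ a2 ∈ range (k + 1 + 1), ((2 : ℝ) ^ ((kap0 / 4 + kap0 / 8) * (((k + 1 : ℕ) : ℝ) - a2)) * Ub a2)) *
          ((2 : ℝ) ^ (kap0 / 8 * ((e : ℝ) - k)) * (K2 / Ub e)) := by rw [Finset.sum_mul]
    _ ≤ (K1 * Ub (k + 1)) * ((2 : ℝ) ^ (kap0 / 8 * ((e : ℝ) - k)) * (K2 / Ub e)) := by
        gcongr
        exact h1 (k + 1)
    _ ≤ (K1 * (2 * Ub k)) * ((2 : ℝ) ^ (kap0 / 8 * ((e : ℝ) - k)) * (K2 / Ub e)) := by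
        gcongr
        exact Ub_succ k
    _ = 2 * K1 * K2 * (Ub k / Ub e * (2 : ℝ) ^ (kap0 / 8 * ((e : ℝ) - k))) := by ring

/-- the mass of the giants -/
lemma gmass : ∃ K : ℝ, 1 ≤ K ∧ ∀ e : ℕ, (∑' r : ℕ, (if 2 ^ e < r then gf (Irr r) else 0)) ≤ ENNReal.ofReal (K / Ub e) := by
  obtain ⟨K2, hK2, h2⟩ := giants
  refine ⟨K2, hK2, fun e => ?_⟩
  have h5 := h2 (e + 1)
  rw [Nat.add_sub_cancel] at h5
  refine h5.trans (ENNReal.ofReal_le_ofReal ?_)
  have h6 : Ub e ≤ Ub (e + 1) := Ub_mono (Nat.le_succ e)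
  have hUe := Ub_pos e
  gcongr

/-- the weight of the giants at the end of a leaf -/
lemma farG (h : Inp C δ) : ∃ K : ℝ, 1 ≤ K ∧ ∀ D k e : ℕ, 2 ^ (k + 4) ≤ D → k ≤ e →
    ∑ b2 ∈ range (k + 1), (∑' r : ℕ, (if 2 ^ e < r then Rec8.sw (Irr r) (fun P => (fun _ => 1) P * Sw D k b2 P) else 0)) ≤
      ENNReal.ofReal (K * (Ub k / Ub e * (2 : ℝ) ^ (kap0 / 8 * ((e : ℝ) - k)))) := by
  have hk := kap0_pos
  have hδ := h.pos
  obtain ⟨K1, hK1, h1⟩ := far1
  obtain ⟨K2, hK2, h2⟩ := gmass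
  obtain ⟨K3, hK3, h3⟩ := giant1 h
  obtain ⟨K4, hK4, h4⟩ := S2G h.pos
  refine ⟨K1 * K2 + K3 * K4, by nlinarith [mul_nonneg (by linarith : (0:ℝ) ≤ K3) (by linarith : (0:ℝ) ≤ K4)],
    fun D1 k1 e hD hke => ?_⟩
  have hUe := Ub_pos e
  have hUk := Ub_pos k1
  have hke' : (k1 : ℝ) ≤ e := by exact_mod_cast hke
  have hp : 1 ≤ (2 : ℝ) ^ (kap0 / 8 * ((e : ℝ) - k1)) := p_one (mul_nonneg (by linarith) (by linarith))
  obtain ⟨W, hW⟩ : ∃ W, W = Ub k1 / Ub e * (2 : ℝ) ^ (kap0 / 8 * ((e : ℝ) - k1)) := ⟨_, rfl⟩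
  have hW0 : 0 ≤ W := by
    rw [hW]
    positivity
  rw [← hW, add_mul]
  simp only [exp_Sw]
  rw [Finset.sum_add_distrib, ← Finset.sum_mul, ENNReal.ofReal_add (by positivity) (by positivity)]
  refine add_le_add ?_ ?_
  · have e1 : (∑' r : ℕ, (if 2 ^ e < r then Rec8.sw (Irr r) (fun _ => 1) else 0)) ≤ ENNReal.ofReal (K2 / Ub e) := by
      refine le_trans (le_of_eq (tsum_congr fun r => ?_)) (h2 e)
      rw [Rec8.sw_one]
    refine (mul_le_mul' (h1 k1) e1).trans ?_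
    rw [← ENNReal.ofReal_mul (by positivity)]
    apply ENNReal.ofReal_le_ofReal
    calc K1 * Ub k1 * (K2 / Ub e) = K1 * K2 * (Ub k1 / Ub e * 1) := by ring
      _ ≤ K1 * K2 * (Ub k1 / Ub e * (2 : ℝ) ^ (kap0 / 8 * ((e : ℝ) - k1))) := by gcongr
      _ = K1 * K2 * W := by rw [hW]
  · calc ∑ b2 ∈ range (k1 + 1), ∑ a2 ∈ Icc b2 (k1 + 1), ENNReal.ofReal ((2 : ℝ) ^ (kap0 / 4 * ((k1 : ℝ) + 1 - a2))) *
          (∑' r : ℕ, (if 2 ^ e < r then Rec8.sw (Irr r) (fun P => (fun _ => (1 : ℝ≥0∞)) P * EE D1 b2 a2 (rev P)) else 0))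
        ≤ ∑ b2 ∈ range (k1 + 1), ∑ a2 ∈ Icc b2 (k1 + 1), ENNReal.ofReal (K3 * ((2 : ℝ) ^ (kap0 / 4 * ((k1 : ℝ) + 1 - a2)) *
          (Ub a2 / Ub e) * (2 : ℝ) ^ (kap0 / 8 * ((e - a2 : ℕ) : ℝ)) *
            (2 : ℝ) ^ (-(δ / 2 * ((min a2 e - b2 : ℕ) : ℝ))))) := by
          refine Finset.sum_le_sum fun b2 hb2 => Finset.sum_le_sum fun a2 ha2 => ?_
          rw [Finset.mem_range] at hb2
          rw [Finset.mem_Icc] at ha2
          have hD2 : 2 ^ (a2 + 3) ≤ D1 := (Nat.pow_le_pow_right (by norm_num) (by omega)).trans hD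
          have h5 := (h3 D1 e a2 b2 ha2.1 hD2).2
          have e2 : (fun P => (fun _ => (1 : ℝ≥0∞)) P * EE D1 b2 a2 (rev P)) = fun P => EE D1 b2 a2 (rev P) := by
            funext P
            simp
          rw [e2]
          refine (mul_le_mul' le_rfl h5).trans ?_
          rw [← ENNReal.ofReal_mul (p_pos _).le]
          apply ENNReal.ofReal_le_ofReal
          unfold TT
          have hUa := Ub_pos a2
          have e3 : (2 : ℝ) ^ (-(δ * ((min a2 e - b2 : ℕ) : ℝ))) ≤ (2 : ℝ) ^ (-(δ / 2 * ((min a2 e - b2 : ℕ) : ℝ))) := by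
            apply p_mono
            have : (0 : ℝ) ≤ ((min a2 e - b2 : ℕ) : ℝ) := Nat.cast_nonneg _
            nlinarith
          have q1 := p_pos (kap0 / 4 * ((k1 : ℝ) + 1 - a2))
          have q2 := p_pos (kap0 / 8 * ((e - a2 : ℕ) : ℝ))
          calc (2 : ℝ) ^ (kap0 / 4 * ((k1 : ℝ) + 1 - a2)) * (K3 * (Ub a2 / Ub e *
                (2 : ℝ) ^ (kap0 / 8 * ((e - a2 : ℕ) : ℝ)) * (2 : ℝ) ^ (-(δ * ((min a2 e - b2 : ℕ) : ℝ))))) ≤
              (2 : ℝ) ^ (kap0 / 4 * ((k1 : ℝ) + 1 - a2)) * (K3 * (Ub a2 / Ub e *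
                (2 : ℝ) ^ (kap0 / 8 * ((e - a2 : ℕ) : ℝ)) * (2 : ℝ) ^ (-(δ / 2 * ((min a2 e - b2 : ℕ) : ℝ))))) := by
                gcongr
            _ = _ := by ring
      _ = ENNReal.ofReal (K3 * ∑ b2 ∈ range (k1 + 1), ∑ a2 ∈ Icc b2 (k1 + 1), ((2 : ℝ) ^ (kap0 / 4 * ((k1 : ℝ) + 1 - a2)) *
          (Ub a2 / Ub e) * (2 : ℝ) ^ (kap0 / 8 * ((e - a2 : ℕ) : ℝ)) *
            (2 : ℝ) ^ (-(δ / 2 * ((min a2 e - b2 : ℕ) : ℝ))))) := by
          have hnn : ∀ b2 a2 : ℕ, 0 ≤ K3 * ((2 : ℝ) ^ (kap0 / 4 * ((k1 : ℝ) + 1 - a2)) *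
            (Ub a2 / Ub e) * (2 : ℝ) ^ (kap0 / 8 * ((e - a2 : ℕ) : ℝ)) *
            (2 : ℝ) ^ (-(δ / 2 * ((min a2 e - b2 : ℕ) : ℝ)))) := by
            intro b2 a2
            have hUa := Ub_pos a2
            positivity
          rw [Finset.mul_sum, ENNReal.ofReal_sum_of_nonneg]
          · refine Finset.sum_congr rfl fun b2 _ => ?_
            rw [Finset.mul_sum, ENNReal.ofReal_sum_of_nonneg]
            exact fun a2 _ => hnn b2 a2
          · intro b2 _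
            rw [Finset.mul_sum]
            exact Finset.sum_nonneg fun a2 _ => hnn b2 a2
      _ ≤ _ := by
          apply ENNReal.ofReal_le_ofReal
          have h6 := h4 k1 e hke
          rw [← hW] at h6
          calc _ ≤ K3 * (K4 * W) := by gcongr
            _ = K3 * K4 * W := by ring

/-- the kernel of the fold with a giant -/
lemma kG (h : Inp C δ) : ∃ K : ℝ, 1 ≤ K ∧ ∀ (D k e b : ℕ) (I : List Bool), 2 ^ (k + 4) ≤ D → k ≤ e → b ≤ k →
    ∑ a ∈ range (k + 2), ∑' r : ℕ, (if 2 ^ e < r then Rec8.sw (Irr r) (fun P => KT D b I a P) else 0) ≤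
      ENNReal.ofReal (K * ((2 : ℝ) ^ (kap0 / 8 * ((e : ℝ) - k)) / Ub e)) * Sw D k b I := by
  have hk := kap0_pos
  have hδ := h.pos
  obtain ⟨K1, hK1, h1⟩ := gmass
  obtain ⟨K2, hK2, h2⟩ := giant1 h
  obtain ⟨K3, hK3, h3⟩ := geo_low (c := δ) hδ
  refine ⟨K2 * K3 + K1, by nlinarith [mul_nonneg (by linarith : (0:ℝ) ≤ K2) (by linarith : (0:ℝ) ≤ K3)],
    fun D k e b I hD hke hb => ?_⟩
  have hUe := Ub_pos e
  have hUk := Ub_pos k
  have hUb := Ub_pos b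
  have hbk' : (b : ℝ) ≤ k := by exact_mod_cast hb
  have hke' : (k : ℝ) ≤ e := by exact_mod_cast hke
  have hbe : b ≤ e := hb.trans hke
  have hp : 1 ≤ (2 : ℝ) ^ (kap0 / 8 * ((e : ℝ) - k)) := p_one (mul_nonneg (by linarith) (by linarith))
  obtain ⟨W, hW⟩ : ∃ W, W = (2 : ℝ) ^ (kap0 / 8 * ((e : ℝ) - k)) / Ub e := ⟨_, rfl⟩
  have hW0 : 0 < W := by
    rw [hW]
    positivity
  rw [← hW]
  have hsplit : range (k + 2) = range (b + 1) ∪ Icc (b + 1) (k + 1) := by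
    ext a
    simp only [Finset.mem_union, Finset.mem_range, Finset.mem_Icc]
    omega
  have hdisj : Disjoint (range (b + 1)) (Icc (b + 1) (k + 1)) := by
    rw [Finset.disjoint_left]
    intro a ha ha'
    rw [Finset.mem_range] at ha
    rw [Finset.mem_Icc] at ha'
    omega
  rw [hsplit, Finset.sum_union hdisj]
  have e1 : ∑ a ∈ range (b + 1), ∑' r : ℕ, (if 2 ^ e < r then Rec8.sw (Irr r) (fun P => KT D b I a P) else 0) ≤
      ENNReal.ofReal (K2 * K3 * W) * ENNReal.ofReal ((2 : ℝ) ^ (kap0 / 4 * ((k : ℝ) - b)) * Ub b) := by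
    calc ∑ a ∈ range (b + 1), ∑' r : ℕ, (if 2 ^ e < r then Rec8.sw (Irr r) (fun P => KT D b I a P) else 0)
        ≤ ∑ a ∈ range (b + 1), ENNReal.ofReal (K2 * (Ub b / Ub e * (2 : ℝ) ^ (kap0 / 8 * ((e : ℝ) - b)) *
            (2 : ℝ) ^ (-(δ * ((b - a : ℕ) : ℝ))))) := by
          refine Finset.sum_le_sum fun a ha => ?_
          rw [Finset.mem_range] at ha
          have hDb : 2 ^ (b + 3) ≤ D := (Nat.pow_le_pow_right (by norm_num) (by omega)).trans hD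
          have h5 := (h2 D e b a (by omega) hDb).1
          unfold TT at h5
          rw [min_eq_left hbe, Nat.cast_sub hbe] at h5
          refine le_trans (ENNReal.tsum_le_tsum fun r => ?_) h5
          split_ifs
          · exact Rec8.sw_mono' fun P _ => KT_le_right D b I a P
          · exact le_rfl
      _ = ENNReal.ofReal (∑ a ∈ range (b + 1), K2 * (Ub b / Ub e * (2 : ℝ) ^ (kap0 / 8 * ((e : ℝ) - b)) *
            (2 : ℝ) ^ (-(δ * ((b - a : ℕ) : ℝ))))) := by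
          rw [ENNReal.ofReal_sum_of_nonneg]
          intro a _
          positivity
      _ ≤ _ := by
          rw [← ENNReal.ofReal_mul (by positivity)]
          apply ENNReal.ofReal_le_ofReal
          have g1 := h3 b
          have g2 : (2 : ℝ) ^ (kap0 / 8 * ((e : ℝ) - b)) ≤
              (2 : ℝ) ^ (kap0 / 8 * ((e : ℝ) - k)) * (2 : ℝ) ^ (kap0 / 4 * ((k : ℝ) - b)) := by
            rw [← Real.rpow_add two_pos]
            apply p_mono
            nlinarith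
          have g8 : ∑ a ∈ range (b + 1), K2 * (Ub b / Ub e * (2 : ℝ) ^ (kap0 / 8 * ((e : ℝ) - b)) *
            (2 : ℝ) ^ (-(δ * ((b - a : ℕ) : ℝ)))) = K2 * (Ub b / Ub e * (2 : ℝ) ^ (kap0 / 8 * ((e : ℝ) - b)) *
            ∑ a ∈ range (b + 1), (2 : ℝ) ^ (-(δ * ((b - a : ℕ) : ℝ)))) := by
            rw [Finset.mul_sum, Finset.mul_sum]
          rw [g8]
          calc K2 * (Ub b / Ub e * (2 : ℝ) ^ (kap0 / 8 * ((e : ℝ) - b)) *
                ∑ a ∈ range (b + 1), (2 : ℝ) ^ (-(δ * ((b - a : ℕ) : ℝ)))) ≤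
              K2 * (Ub b / Ub e * ((2 : ℝ) ^ (kap0 / 8 * ((e : ℝ) - k)) * (2 : ℝ) ^ (kap0 / 4 * ((k : ℝ) - b))) * K3) := by
                gcongr
            _ = _ := by
              rw [hW]
              ring
  have e2 : ∑ a ∈ Icc (b + 1) (k + 1), ∑' r : ℕ, (if 2 ^ e < r then Rec8.sw (Irr r) (fun P => KT D b I a P) else 0) ≤
      ENNReal.ofReal (K1 * W) *
        ∑ a ∈ Icc b (k + 1), ENNReal.ofReal ((2 : ℝ) ^ (kap0 / 4 * ((k : ℝ) + 1 - a))) * EE D b a (rev I) := by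
    calc ∑ a ∈ Icc (b + 1) (k + 1), ∑' r : ℕ, (if 2 ^ e < r then Rec8.sw (Irr r) (fun P => KT D b I a P) else 0)
        ≤ ∑ a ∈ Icc (b + 1) (k + 1), ENNReal.ofReal (K1 * W) *
          (ENNReal.ofReal ((2 : ℝ) ^ (kap0 / 4 * ((k : ℝ) + 1 - a))) * EE D b a (rev I)) := by
          refine Finset.sum_le_sum fun a ha => ?_
          rw [Finset.mem_Icc] at ha
          have f1 : ∑' r : ℕ, (if 2 ^ e < r then Rec8.sw (Irr r) (fun P => KT D b I a P) else 0) ≤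
              EE D b a (rev I) * (∑' r : ℕ, (if 2 ^ e < r then gf (Irr r) else 0)) := by
            rw [← ENNReal.tsum_mul_left]
            refine ENNReal.tsum_le_tsum fun r => ?_
            split_ifs
            · rw [← Rec8.sw_one, ← Rec8.sw_mul_left]
              refine Rec8.sw_mono' fun P _ => ?_
              rw [mul_one]
              exact KT_le_left D b I a P
            · rw [mul_zero]
          refine f1.trans ((mul_le_mul' le_rfl (h1 e)).trans ?_)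
          rw [mul_comm]
          refine mul_le_mul' (ENNReal.ofReal_le_ofReal ?_) ?_
          · rw [hW]
            calc K1 / Ub e = K1 * (1 / Ub e) := by ring
              _ ≤ _ := by gcongr
          · have : (1 : ℝ≥0∞) ≤ ENNReal.ofReal ((2 : ℝ) ^ (kap0 / 4 * ((k : ℝ) + 1 - a))) := by
              rw [ENNReal.one_le_ofReal]
              apply p_one
              have : (a : ℝ) ≤ (k : ℝ) + 1 := by exact_mod_cast ha.2
              have : 0 ≤ kap0 / 4 := by linarith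
              apply mul_nonneg this
              linarith
            calc EE D b a (rev I) = 1 * EE D b a (rev I) := (one_mul _).symm
              _ ≤ _ := mul_le_mul' this le_rfl
      _ = ENNReal.ofReal (K1 * W) * ∑ a ∈ Icc (b + 1) (k + 1),
          (ENNReal.ofReal ((2 : ℝ) ^ (kap0 / 4 * ((k : ℝ) + 1 - a))) * EE D b a (rev I)) := by
          rw [Finset.mul_sum]
      _ ≤ _ := by
          refine mul_le_mul' le_rfl ?_
          apply Finset.sum_le_sum_of_subset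
          apply Finset.Icc_subset_Icc_left
          omega
  refine (add_le_add e1 e2).trans ?_
  unfold Sw
  rw [add_mul (K2 * K3), ENNReal.ofReal_add (by positivity) (by positivity), add_mul]
  refine add_le_add ?_ ?_
  · exact mul_le_mul' le_rfl le_self_add
  · exact mul_le_mul' le_rfl le_add_self

end CutJ
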