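import Pool.Agent.CutJ.ZNormA

/-!
CUTJ, J4, module Z2, part B: the last leaf starts with a giant; the first leaf ends with a giant.
-/

set_option autoImplicit false

namespace CutJ

open HexObs Finset TS SDN

open scoped ENNReal

open Rec8 (mb)

variable {C δ : ℝ}

/-- covering by concatenations -/
lemma cov2 (S A : Set (List Bool)) (B : List Bool → Set (List Bool)) (G : List Bool → ℝ≥0∞)
    (h : ∀ t ∈ S, ∃ a ∈ A, ∃ b ∈ B a, t = a ++ b) :
    Rec8.sw S G ≤ Rec8.sw A (fun a => Rec8.sw (B a) (fun b => G (a ++ b))) := by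
  classical
  have hR : Rec8.sw A (fun a => Rec8.sw (B a) (fun b => G (a ++ b))) = ∑' x : List Bool × List Bool,
      (if x.1 ∈ A ∧ x.2 ∈ B x.1 then wE x.1 * (wE x.2 * G (x.1 ++ x.2)) else 0) := by
    rw [Rec8.sw_ind, ENNReal.tsum_prod']
    refine tsum_congr fun a => ?_
    by_cases ha : a ∈ A
    · rw [if_pos ha, Rec8.sw_ind, ← ENNReal.tsum_mul_left]
      refine tsum_congr fun b => ?_
      by_cases hb : b ∈ B a
      · rw [if_pos hb, if_pos ⟨ha, hb⟩]
      · rw [if_neg hb, if_neg (fun h' => hb h'.2), mul_zero]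
    · rw [if_neg ha]
      symm
      rw [ENNReal.tsum_eq_zero]
      intro b
      exact if_neg fun h' => ha h'.1
  rw [hR]
  refine Rec8.sw_cover S G _ (fun x => x.1 ++ x.2) ?_
  intro t ht
  obtain ⟨a, ha, b, hb, rfl⟩ := h t ht
  refine ⟨(a, b), rfl, ?_⟩
  rw [if_pos ⟨ha, hb⟩, wE_append]
  exact le_of_eq (by ring)

/-- the giants -/
def GG (e : ℕ) : Set (List Bool) := {P | ∃ p, 2 ^ e < p ∧ P ∈ Irr p}

open Classical in
lemma sw_GG (e : ℕ) (F : List Bool → ℝ≥0∞) :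
    Rec8.sw (GG e) F ≤ ∑' p : ℕ, (if 2 ^ e < p then Rec8.sw (Irr p) F else 0) := by
  have e1 : ∀ p : ℕ, (if 2 ^ e < p then Rec8.sw (Irr p) F else 0) =
      ∑' t : List Bool, (if 2 ^ e < p ∧ t ∈ Irr p then wE t * F t else 0) := by
    intro p
    by_cases hp : 2 ^ e < p
    · rw [if_pos hp, Rec8.sw_ind]
      refine tsum_congr fun t => ?_
      by_cases ht : t ∈ Irr p
      · rw [if_pos ht, if_pos ⟨hp, ht⟩]
      · rw [if_neg ht, if_neg (fun h' => ht h'.2)]
    · rw [if_neg hp]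
      symm
      rw [ENNReal.tsum_eq_zero]
      intro t
      exact if_neg fun h' => hp h'.1
  rw [tsum_congr e1, ENNReal.tsum_comm, Rec8.sw_ind]
  refine ENNReal.tsum_le_tsum fun t => ?_
  by_cases ht : t ∈ GG e
  · rw [if_pos ht]
    obtain ⟨p, hp, hP⟩ := ht
    refine le_trans ?_ (ENNReal.le_tsum p)
    rw [if_pos ⟨hp, hP⟩]
  · rw [if_neg ht]
    exact zero_le

lemma gf_GG : ∃ K : ℝ, 1 ≤ K ∧ ∀ e : ℕ, gf (GG e) ≤ ENNReal.ofReal (K / Ub e) := by
  classical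
  obtain ⟨K, hK, h⟩ := gmass
  refine ⟨K, hK, fun e => ?_⟩
  rw [← Rec8.sw_one]
  refine (sw_GG e _).trans (le_trans (le_of_eq (tsum_congr fun r => ?_)) (h e))
  rw [Rec8.sw_one]

/-- low bridges -/
def LB (q : ℕ) : Set (List Bool) := {X | ∃ x, x < 2 ^ q ∧ X ∈ Brd x}

lemma gf_LB (q : ℕ) : gf (LB q) ≤ ENNReal.ofReal (Ub q) := by
  refine (gf_mono ?_).trans (gf_BU_le (2 ^ q))
  rintro t ⟨x, h1, h2⟩
  exact ⟨x, h1.le, h2⟩

/-- the word t is the end of a bridge that ends with a giant P; the part before P is less than 2 ^ q rows higher than the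
missing part s -/
def GE (q e : ℕ) (t : List Bool) : Prop := ∃ (s Y P : List Bool) (a y p : ℕ), s ∈ Brd a ∧ Y ∈ Brd y ∧ y < a + 2 ^ q ∧
  P ∈ Irr p ∧ 2 ^ e < p ∧ s ++ t = Y ++ P

open Classical in
noncomputable def GI (q e : ℕ) (t : List Bool) : ℝ≥0∞ := if GE q e t then 1 else 0

lemma GI_her (q e : ℕ) : Hered (GI q e) := by
  classical
  rintro s ⟨n, hs⟩ t
  unfold GI
  by_cases h : GE q e (s ++ t)
  · have h2 : GE q e t := by
      obtain ⟨s', Y, P, a, y, p, h1, h2, h3, h4, h5, h6⟩ := h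
      exact ⟨s' ++ s, Y, P, a + n, y, p, Brd_append h1 hs, h2, by omega, h4, h5, by rw [List.append_assoc]; exact h6⟩
    rw [if_pos h, if_pos h2]
  · rw [if_neg h]
    exact zero_le

lemma GI_le (q e : ℕ) (t : List Bool) : GI q e t ≤ 1 := by
  classical
  unfold GI
  split_ifs
  · exact le_rfl
  · exact zero_le

lemma GE_piece {q e r : ℕ} {P1 : List Bool} (hP1 : P1 ∈ Irr r) (h : GE q e P1) : 2 ^ e < r := by
  obtain ⟨s, Y, P, a, y, p, h1, h2, h3, h4, h5, h6⟩ := h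
  rcases le_total a y with hay | hay
  · obtain ⟨v, hv, v1, v2⟩ := cut_nested h1 h2 hP1.1 h4.1 hay h6
    rcases hP1.2.2 _ _ v P hv h4.1 v2 with h7 | h7
    · rw [h7, List.nil_append] at v2
      rw [v2] at hP1
      have := Brd_height hP1.1 h4.1
      omega
    · exact absurd h7 h4.2.1
  · obtain ⟨v, hv, v1, v2⟩ := cut_nested h2 h1 h4.1 hP1.1 hay h6.symm
    rcases h4.2.2 _ _ v P1 hv hP1.1 v2 with h7 | h7
    · rw [h7, List.nil_append] at v2
      rw [← v2] at hP1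
      have := Brd_height hP1.1 h4.1
      omega
    · exact absurd h7 hP1.2.1

lemma GE_rest {q e r z : ℕ} {P1 Z : List Bool} (hP1 : P1 ∈ Brd r) (hZ : Z ∈ Brd z) (hne : Z ≠ []) (h : GE q e (P1 ++ Z)) :
    ∃ X ∈ LB q, ∃ P ∈ GG e, Z = X ++ P := by
  obtain ⟨s, Y, P, a, y, p, h1, h2, h3, h4, h5, h6⟩ := h
  have hS : s ++ P1 ∈ Brd (a + r) := Brd_append h1 hP1
  rw [← List.append_assoc] at h6
  rcases le_total (a + r) y with hay | hay
  · obtain ⟨v, hv, v1, v2⟩ := cut_nested hS h2 hZ h4.1 hay h6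
    exact ⟨v, ⟨_, by omega, hv⟩, P, ⟨p, h5, h4⟩, v2⟩
  · obtain ⟨v, hv, v1, v2⟩ := cut_nested h2 hS h4.1 hZ hay h6.symm
    rcases h4.2.2 _ _ v Z hv hZ v2 with h7 | h7
    · rw [h7, List.nil_append] at v2
      exact ⟨[], ⟨0, by positivity, nil_mem_Brd⟩, P, ⟨p, h5, h4⟩, by rw [← v2]; rfl⟩
    · exact absurd h7 hne

/-- the rest of the leaf behind the piece P1 -/
lemma rest3 : ∃ K : ℝ, 1 ≤ K ∧ ∀ (E N q e n r : ℕ) (P1 : List Bool), P1 ∈ Irr r →
    Rec8.sw {Z | Z ∈ BU ∧ ∃ Y ∈ Brd n, Y ++ (P1 ++ Z) ∈ BrR E N} (fun Z => GI q e (P1 ++ Z)) ≤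
      (if 2 ^ e < r then 1 else 0) + ENNReal.ofReal (K * (Ub q / Ub e)) := by
  classical
  obtain ⟨K, hK, hg⟩ := gf_GG
  refine ⟨K, hK, fun E N q e n r P1 hP1 => ?_⟩
  have hsub : Rec8.sw {Z | Z ∈ BU ∧ ∃ Y ∈ Brd n, Y ++ (P1 ++ Z) ∈ BrR E N} (fun Z => GI q e (P1 ++ Z)) ≤
      Rec8.sw {Z | Z = [] ∨ ∃ X ∈ LB q, ∃ P ∈ GG e, Z = X ++ P} (fun Z => GI q e (P1 ++ Z)) := by
    rw [Rec8.sw_ind, Rec8.sw_ind]
    refine ENNReal.tsum_le_tsum fun Z => ?_
    by_cases h1 : Z ∈ {Z | Z ∈ BU ∧ ∃ Y ∈ Brd n, Y ++ (P1 ++ Z) ∈ BrR E N}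
    · rw [if_pos h1]
      by_cases h2 : GE q e (P1 ++ Z)
      · have h3 : Z ∈ {Z | Z = [] ∨ ∃ X ∈ LB q, ∃ P ∈ GG e, Z = X ++ P} := by
          by_cases h4 : Z = []
          · exact Or.inl h4
          · obtain ⟨z, hz⟩ := h1.1
            exact Or.inr (GE_rest hP1.1 hz h4 h2)
        rw [if_pos h3]
      · unfold GI
        rw [if_neg h2, mul_zero]
        exact zero_le
    · rw [if_neg h1]
      exact zero_le
  refine hsub.trans ?_
  refine (TN5b_sw_union (B := {[]}) (C := {Z | ∃ X ∈ LB q, ∃ P ∈ GG e, Z = X ++ P}) (fun Z hZ => hZ) _).trans ?_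
  refine add_le_add ?_ ?_
  · have e1 : Rec8.sw {([] : List Bool)} (fun Z => GI q e (P1 ++ Z)) = GI q e P1 := by
      unfold Rec8.sw
      rw [tsum_eq_single (⟨[], rfl⟩ : {t : List Bool // t ∈ ({[]} : Set (List Bool))})]
      · simp only [List.append_nil]
        have : wE [] = 1 := by
          unfold wE
          simp
        rw [this, one_mul]
      · rintro ⟨b, hb⟩ hne
        exact absurd (Subtype.ext (show b = [] from hb)) hne
    rw [e1]
    unfold GI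
    by_cases h1 : GE q e P1
    · rw [if_pos h1, if_pos (GE_piece hP1 h1)]
    · rw [if_neg h1]
      exact zero_le
  · refine (Rec8.sw_mono' fun Z _ => GI_le q e _).trans ?_
    refine (cov2 _ (LB q) (fun _ => GG e) (fun _ => 1) fun t ht => ht).trans ?_
    rw [Rec8.sw_one, SDN.NX_const]
    refine (mul_le_mul' (gf_LB q) (hg e)).trans ?_
    rw [← ENNReal.ofReal_mul (Ub_pos q).le]
    refine ENNReal.ofReal_le_ofReal (le_of_eq ?_)
    ring

/-- the last leaf: it starts with a low bridge and a giant -/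
theorem lastG (h : Inp C δ) : ∃ K : ℝ, 1 ≤ K ∧ ∀ D k q e N : ℕ, 2 ^ (k + 4) ≤ D → k ≤ e → q ≤ k + 5 →
    xT D k (vA D (BrR D N) (GI q e)) ≤ ENNReal.ofReal (K * ((2 : ℝ) ^ (kap0 / 8 * ((e : ℝ) - k)) / Ub e)) := by
  classical
  have hk := kap0_pos
  obtain ⟨K0, hK0, h0⟩ := rest3
  obtain ⟨K1, hK1, h1⟩ := kG h
  obtain ⟨K2, hK2, h2⟩ := k1 h
  refine ⟨16 * (K1 + 32 * K0 * K2), by nlinarith [mul_nonneg (by linarith : (0:ℝ) ≤ K0) (by linarith : (0:ℝ) ≤ K2)],
    fun D k q e N hD hke hq => xT_le fun b I hb hI => ?_⟩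
  obtain ⟨i, hIi⟩ := hI
  have hUe := Ub_pos e
  have hUk := Ub_pos k
  have hUq := Ub_pos q
  have hke' : (k : ℝ) ≤ e := by exact_mod_cast hke
  have hp : 1 ≤ (2 : ℝ) ^ (kap0 / 8 * ((e : ℝ) - k)) := TK.p_one (mul_nonneg (by linarith) (by linarith))
  obtain ⟨A, hA⟩ : ∃ A, A = ENNReal.ofReal (K0 * (Ub q / Ub e)) := ⟨_, rfl⟩
  let Θ : ℕ → List Bool → ℝ≥0∞ := fun r _ => (if 2 ^ e < r then 1 else 0) + A
  have hD2 : 2 ^ (k + 1) ≤ D := (Nat.pow_le_pow_right (by norm_num) (by omega)).trans hD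
  have s1 : Rec8.sw (Fld.BrB b) (fun M => vA D (BrR D N) (GI q e) (I ++ M)) ≤ Rec8.sw (Fld.BrB b) (fun M => ∑' n : ℕ,
      ∑' r : ℕ, mu k n r * Rec8.sw (Brd n) (fun X =>
        Rec8.sw {P | P ∈ Irr r ∧ ∃ c : Bool, KRel D I P M ((!c) :: c :: X)} (fun P => Θ r P))) := by
    refine Rec8.sw_mono' fun M hM => ?_
    obtain ⟨m, -, hMm⟩ := hM
    refine SDN.T2.next2 (GI_her q e) hD2 le_rfl (fun _ r P => Θ r P) (fun n r P hn hP => ?_) hIi.1 hMm
    have := h0 D N q e n r P hP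
    rw [← hA] at this
    exact this
  have s2 := fold_sum D b k I (mu k) (mb k) (fun a n r => mu_le_mb) (fun n r => mu_eq_zero)
    (fun a r => mb_mono (Nat.le_succ a) r) Θ
  refine s1.trans (s2.trans ?_)
  have s3 : ∑ a ∈ range (k + 2), ∑' r : ℕ, mb k a r * Rec8.sw (Irr r) (fun P => KT D b I a P * Θ r P) ≤
      ∑ a ∈ range (k + 2), ∑' r : ℕ, (if 2 ^ e < r then Rec8.sw (Irr r) (fun P => KT D b I a P) else 0) +
      A * ∑ a ∈ range (k + 2), pm k a (fun P => KT D b I a P) := by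
    rw [Finset.mul_sum, ← Finset.sum_add_distrib]
    refine Finset.sum_le_sum fun a _ => ?_
    unfold pm
    rw [← ENNReal.tsum_mul_left, ← ENNReal.tsum_add]
    refine ENNReal.tsum_le_tsum fun r => ?_
    show mb k a r * Rec8.sw (Irr r) (fun P => KT D b I a P * ((if 2 ^ e < r then 1 else 0) + A)) ≤ _
    rw [Rec8.sw_mul_right, mul_add, mul_add]
    refine add_le_add ?_ (le_of_eq (by ring))
    split_ifs
    · rw [mul_one]
      calc mb k a r * Rec8.sw (Irr r) (fun P => KT D b I a P) ≤ 1 * Rec8.sw (Irr r) (fun P => KT D b I a P) :=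
            mul_le_mul_left (SDN.T2.mb_le_one _ _ _) _
        _ = _ := one_mul _
    · rw [mul_zero, mul_zero]
  have t1 := h1 D k e b I hD hke hb
  have t2 := h2 D k k b I hD le_rfl hb
  have hq2 : Ub q ≤ 32 * Ub k := by
    have h3 : Ub q ≤ Ub (k + 5) := Ub_mono hq
    have a1 := Ub_succ k
    have a2 := Ub_succ (k + 1)
    have a3 := Ub_succ (k + 2)
    have a4 := Ub_succ (k + 3)
    have a5 := Ub_succ (k + 4)
    linarith
  calc 16 * ∑ a ∈ range (k + 2), ∑' r : ℕ, mb k a r * Rec8.sw (Irr r) (fun P => KT D b I a P * Θ r P)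
      ≤ 16 * (ENNReal.ofReal (K1 * ((2 : ℝ) ^ (kap0 / 8 * ((e : ℝ) - k)) / Ub e)) * Sw D k b I +
          A * (ENNReal.ofReal (K2 / Ub k) * Sw D k b I)) := by
        refine mul_le_mul_right (s3.trans ?_) _
        gcongr
    _ = ENNReal.ofReal (16 * (K1 * ((2 : ℝ) ^ (kap0 / 8 * ((e : ℝ) - k)) / Ub e) + K0 * (Ub q / Ub e) * (K2 / Ub k))) *
          Sw D k b I := by
        have e16 : ENNReal.ofReal 16 = 16 := by simp
        rw [ENNReal.ofReal_mul (p := 16) (by norm_num), e16, ENNReal.ofReal_add (by positivity) (by positivity),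
          ENNReal.ofReal_mul (p := K0 * (Ub q / Ub e)) (by positivity), hA]
        ring
    _ ≤ _ := by
        refine mul_le_mul_left (ENNReal.ofReal_le_ofReal ?_) _
        have h5 : K0 * (Ub q / Ub e) * (K2 / Ub k) ≤ 32 * K0 * K2 * (1 / Ub e) := by
          calc K0 * (Ub q / Ub e) * (K2 / Ub k) ≤ K0 * (32 * Ub k / Ub e) * (K2 / Ub k) := by gcongr
            _ = 32 * K0 * K2 * (1 / Ub e) * (Ub k / Ub k) := by ring
            _ = _ := by rw [div_self hUk.ne', mul_one]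
        have h6 : 32 * K0 * K2 * (1 / Ub e) ≤ 32 * K0 * K2 * ((2 : ℝ) ^ (kap0 / 8 * ((e : ℝ) - k)) / Ub e) := by
          gcongr
        nlinarith

/-- the first leaf: it ends with a giant and a low bridge -/
theorem firstG (h : Inp C δ) : ∃ K : ℝ, 1 ≤ K ∧ ∀ (D k q e N : ℕ) (Ψ : List Bool → ℝ≥0∞), Hered Ψ → 2 ^ (k + 4) ≤ D →
    k ≤ e → q ≤ k + 5 →
    Rec8.sw {t | ∃ A I M : List Bool, ∃ a : ℕ, A ∈ Brd a ∧ a ≤ N ∧ I ∈ GG e ∧ M ∈ LB q ∧ t = A ++ (I ++ M)} Ψ ≤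
      ENNReal.ofReal (K * UU N * (Ub k / Ub e * (2 : ℝ) ^ (kap0 / 8 * ((e : ℝ) - k)))) * xT D k Ψ := by
  classical
  have hk := kap0_pos
  obtain ⟨K1, hK1, h1⟩ := farG h
  obtain ⟨K2, hK2, h2⟩ := endsH h
  obtain ⟨K3, hK3, h3⟩ := gf_GG
  refine ⟨K1 + 32 * K2 * K3, by nlinarith [mul_nonneg (by linarith : (0:ℝ) ≤ K2) (by linarith : (0:ℝ) ≤ K3)],
    fun D k q e N Ψ hΨ hD hke hq => ?_⟩
  have hUe := Ub_pos e
  have hUk := Ub_pos k
  have hUN : 0 < UU N := Num2Aux.UU_pos N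
  have hke' : (k : ℝ) ≤ e := by exact_mod_cast hke
  have hp : 1 ≤ (2 : ℝ) ^ (kap0 / 8 * ((e : ℝ) - k)) := TK.p_one (mul_nonneg (by linarith) (by linarith))
  obtain ⟨W, hW⟩ : ∃ W, W = Ub k / Ub e * (2 : ℝ) ^ (kap0 / 8 * ((e : ℝ) - k)) := ⟨_, rfl⟩
  have hW0 : 0 ≤ W := by
    rw [hW]
    positivity
  rw [← hW]
  -- the ends
  have key : Rec8.sw (GG e) (fun I => Rec8.sw (LB q) (fun M => Ψ (I ++ M))) ≤
      ENNReal.ofReal ((K1 + 32 * K2 * K3) * W) * xT D k Ψ := by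
    have hI : ∀ I ∈ GG e, Rec8.sw (LB q) (fun M => Ψ (I ++ M)) ≤
        xT D k Ψ * ∑ b ∈ range (k + 1), Sw D k b I + ENNReal.ofReal (32 * Ub k) * (ENNReal.ofReal K2 * xT D k Ψ) := by
      rintro I ⟨i, hi, hIi⟩
      have hsub : LB q ⊆ {M | ∃ b ∈ range (k + 1), M ∈ Fld.BrB b} ∪ BrR (2 ^ (k + 1)) (2 ^ q) := by
        rintro M ⟨m, hm, hM⟩
        rcases Nat.lt_or_ge m (2 ^ (k + 1)) with hm2 | hm2
        · left
          by_cases h0 : m = 0
          · refine ⟨0, by simp, m, ⟨?_, Or.inr rfl⟩, hM⟩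
            rw [h0]
            norm_num
          · refine ⟨Nat.log 2 m, ?_, m, ⟨Nat.lt_pow_succ_log_self (by norm_num) m, Or.inl (Nat.pow_log_le_self 2 h0)⟩, hM⟩
            rw [mem_range]
            exact Nat.log_lt_of_lt_pow h0 hm2
        · right
          exact ⟨m, hm2, hm.le, hM⟩
      refine (TN5b_sw_union hsub _).trans (add_le_add ?_ ?_)
      · refine (Rec8.sw_cover _ _ (fun x : ℕ × List Bool => if x.1 ∈ range (k + 1) ∧ x.2 ∈ Fld.BrB x.1 then
          wE x.2 * Ψ (I ++ x.2) else 0) (fun x => x.2) ?_).trans ?_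
        · rintro t ⟨b, hb, ht⟩
          exact ⟨(b, t), rfl, by rw [if_pos ⟨hb, ht⟩]⟩
        · rw [ENNReal.tsum_prod', Finset.mul_sum]
          have e1 : ∀ b : ℕ, (∑' t : List Bool, if b ∈ range (k + 1) ∧ t ∈ Fld.BrB b then wE t * Ψ (I ++ t) else 0) =
              if b ∈ range (k + 1) then Rec8.sw (Fld.BrB b) (fun M => Ψ (I ++ M)) else 0 := by
            intro b
            by_cases hb : b ∈ range (k + 1)
            · rw [if_pos hb, Rec8.sw_ind]
              refine tsum_congr fun t => ?_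
              by_cases ht : t ∈ Fld.BrB b
              · rw [if_pos ht, if_pos ⟨hb, ht⟩]
              · rw [if_neg ht, if_neg (fun h' => ht h'.2)]
            · rw [if_neg hb, ENNReal.tsum_eq_zero]
              intro t
              exact if_neg fun h' => hb h'.1
          simp only [e1]
          rw [tsum_eq_sum (s := range (k + 1)) (fun b hb => if_neg hb)]
          refine Finset.sum_le_sum fun b hb => ?_
          rw [if_pos hb]
          rw [mem_range] at hb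
          exact xT_use (by omega) ⟨i, hIi⟩ Ψ
      · refine (endR (j := k) le_rfl _).trans ?_
        have hpt : ∀ m r : ℕ, Rec8.sw {Z | ∃ h, h ≤ 2 ^ q ∧ Z ∈ Brd h} (fun Z => Rec8.sw (Irr r) (fun P =>
            Rec8.sw {M | M ∈ Brd m ∧ Z ++ (P ++ M) ∈ BrR (2 ^ (k + 1)) (2 ^ q)} (fun M => Ψ (I ++ (Z ++ (P ++ M)))))) ≤
            ENNReal.ofReal (32 * Ub k) * Rec8.sw (Irr r) (fun P => Rec8.sw (Brd m) (fun M => Ψ (P ++ M))) := by
          intro m r
          calc Rec8.sw {Z | ∃ h, h ≤ 2 ^ q ∧ Z ∈ Brd h} (fun Z => Rec8.sw (Irr r) (fun P =>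
              Rec8.sw {M | M ∈ Brd m ∧ Z ++ (P ++ M) ∈ BrR (2 ^ (k + 1)) (2 ^ q)} (fun M => Ψ (I ++ (Z ++ (P ++ M))))))
              ≤ Rec8.sw {Z | ∃ h, h ≤ 2 ^ q ∧ Z ∈ Brd h} (fun _ => 1 * Rec8.sw (Irr r) (fun P =>
                Rec8.sw (Brd m) (fun M => Ψ (P ++ M)))) := by
                refine Rec8.sw_mono' fun Z hZ => ?_
                rw [one_mul]
                refine Rec8.sw_mono' fun P _ => ?_
                refine Rec8.sw_mono (fun M hM => hM.1) fun M hM => ?_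
                obtain ⟨h0, -, hZh⟩ := hZ
                rw [← List.append_assoc]
                exact hΨ (I ++ Z) ⟨_, Brd_append hIi.1 hZh⟩ _
            _ = gf {Z | ∃ h, h ≤ 2 ^ q ∧ Z ∈ Brd h} * Rec8.sw (Irr r) (fun P =>
                Rec8.sw (Brd m) (fun M => Ψ (P ++ M))) := by
                rw [Rec8.sw_mul_right, Rec8.sw_one]
            _ ≤ _ := by
                refine mul_le_mul_left ((gf_BU_le _).trans (ENNReal.ofReal_le_ofReal ?_)) _
                have h3 : Ub q ≤ Ub (k + 5) := Ub_mono hq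
                have a1 := Ub_succ k
                have a2 := Ub_succ (k + 1)
                have a3 := Ub_succ (k + 2)
                have a4 := Ub_succ (k + 3)
                have a5 := Ub_succ (k + 4)
                have h4 : UU (2 ^ q) = Ub q := rfl
                rw [h4]
                linarith
        refine (ENNReal.tsum_le_tsum fun m => ENNReal.tsum_le_tsum fun r => mul_le_mul_right (hpt m r) (mu k m r)).trans ?_
        have e2 : ∑' m : ℕ, ∑' r : ℕ, mu k m r * (ENNReal.ofReal (32 * Ub k) *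
            Rec8.sw (Irr r) (fun P => Rec8.sw (Brd m) (fun M => Ψ (P ++ M)))) =
            ENNReal.ofReal (32 * Ub k) * ∑' m : ℕ, ∑' r : ℕ, mu k m r *
              Rec8.sw (Irr r) (fun P => Rec8.sw (Brd m) (fun M => Ψ (P ++ M))) := by
          rw [← ENNReal.tsum_mul_left]
          refine tsum_congr fun m => ?_
          rw [← ENNReal.tsum_mul_left]
          exact tsum_congr fun r => by ring
        rw [e2]
        exact mul_le_mul_right (h2 D k Ψ hD) _
    refine (Rec8.sw_mono' hI).trans ?_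
    rw [Rec8.sw_add, Rec8.sw_mul_left, SDN.NX_const]
    have f1 : Rec8.sw (GG e) (fun I => ∑ b ∈ range (k + 1), Sw D k b I) ≤ ENNReal.ofReal (K1 * W) := by
      refine (sw_GG e _).trans ?_
      have f2 := h1 D k e hD hke
      rw [← hW] at f2
      refine le_trans (le_of_eq ?_) f2
      rw [← Summable.tsum_finsetSum (fun _ _ => ENNReal.summable)]
      refine tsum_congr fun r => ?_
      split_ifs
      · rw [Rec8.sw_sum]
        refine Finset.sum_congr rfl fun b _ => ?_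
        simp only [one_mul]
      · rw [Finset.sum_const_zero]
    refine (add_le_add (mul_le_mul' le_rfl f1) (mul_le_mul' (h3 e) le_rfl)).trans ?_
    have hK1W : 0 ≤ K1 * W := by positivity
    calc xT D k Ψ * ENNReal.ofReal (K1 * W) + ENNReal.ofReal (K3 / Ub e) *
          (ENNReal.ofReal (32 * Ub k) * (ENNReal.ofReal K2 * xT D k Ψ))
        = ENNReal.ofReal (K1 * W + K3 / Ub e * (32 * Ub k) * K2) * xT D k Ψ := by
          rw [ENNReal.ofReal_add hK1W (by positivity), ENNReal.ofReal_mul (p := K3 / Ub e * (32 * Ub k)) (by positivity),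
            ENNReal.ofReal_mul (p := K3 / Ub e) (by positivity)]
          ring
      _ ≤ _ := by
          refine mul_le_mul_left (ENNReal.ofReal_le_ofReal ?_) _
          have h5 : K3 / Ub e * (32 * Ub k) * K2 ≤ 32 * K2 * K3 * W := by
            rw [hW]
            calc K3 / Ub e * (32 * Ub k) * K2 = 32 * K2 * K3 * (Ub k / Ub e * 1) := by ring
              _ ≤ _ := by gcongr
          nlinarith
  -- the front
  refine (cov2 _ {A | ∃ a, a ≤ N ∧ A ∈ Brd a} (fun _ => {t | ∃ I ∈ GG e, ∃ M ∈ LB q, t = I ++ M}) Ψ ?_).trans ?_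
  · rintro t ⟨A, I, M, a, h1, h2, h3, h4, rfl⟩
    exact ⟨A, ⟨a, h2, h1⟩, I ++ M, ⟨I, h3, M, h4, rfl⟩, rfl⟩
  · have g1 : ∀ A ∈ {A | ∃ a, a ≤ N ∧ A ∈ Brd a}, Rec8.sw {t | ∃ I ∈ GG e, ∃ M ∈ LB q, t = I ++ M} (fun b => Ψ (A ++ b)) ≤
        1 * (ENNReal.ofReal ((K1 + 32 * K2 * K3) * W) * xT D k Ψ) := by
      rintro A ⟨a, -, hA⟩
      rw [one_mul]
      refine le_trans (Rec8.sw_mono' fun t _ => hΨ A ⟨a, hA⟩ t) ?_
      exact (cov2 _ (GG e) (fun _ => LB q) Ψ fun t ht => ht).trans key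
    refine (Rec8.sw_mono' g1).trans ?_
    rw [Rec8.sw_mul_right, Rec8.sw_one]
    refine (mul_le_mul' (gf_BU_le N) le_rfl).trans (le_of_eq ?_)
    rw [← mul_assoc, ← ENNReal.ofReal_mul hUN.le]
    congr 2
    ring

end CutJ
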