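import Pool.Agent.CutJ.J1

/-! CUTJ, J4: the limit set has no isolated points. -/

set_option autoImplicit false

namespace CutJ

open Filter Topology MeasureTheory TopologicalSpace HexObs CutLim

open scoped ENNReal

/-- the first cut at or above s1 is not above s2, the next cuts are less than w above it or more than L -/
def Iso (T s1 s2 w L : ℕ) : Set (List Bool) :=
  {t | ∃ j a u, a ∈ FC s1 j ∧ j ≤ s2 ∧ u ∈ FCW (T - j) ∧ t = a ++ u ∧ ¬ ∃ c, w ≤ c ∧ c ≤ L ∧ Cut u c}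

lemma iso_mass : ∃ θ : ℝ, 0 < θ ∧ ∀ T s1 s2 w L : ℕ, 1 ≤ w → w ≤ L → s2 + L ≤ T →
    gf (Iso T s1 s2 w L) ≤ ENNReal.ofReal (6 * ((w : ℝ) / L) ^ θ) := by
  obtain ⟨θ, hθ, -, hno⟩ := Touch.nocut_mass
  refine ⟨θ, hθ, fun T s1 s2 w L hw hwL hT => ?_⟩
  obtain ⟨B, hB⟩ : ∃ B, B = ENNReal.ofReal (6 * ((w : ℝ) / L) ^ θ) := ⟨_, rfl⟩
  rw [← hB]
  have hsub : Iso T s1 s2 w L ⊆ ⋃ j : ℕ, {t | ∃ a u, a ∈ FC s1 j ∧ j ≤ s2 ∧
      u ∈ {u | u ∈ FCW (T - j) ∧ ¬ ∃ c, w ≤ c ∧ c ≤ L ∧ Cut u c} ∧ t = a ++ u} := by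
    rintro t ⟨j, a, u, h1, h2, h3, h4, h5⟩
    exact Set.mem_iUnion.2 ⟨j, a, u, h1, h2, ⟨h3, h5⟩, h4⟩
  refine (gf_mono hsub).trans ((Touch.gf_iUnion_le _).trans ?_)
  have h1 : ∀ j : ℕ, gf {t | ∃ a u, a ∈ FC s1 j ∧ j ≤ s2 ∧
      u ∈ {u | u ∈ FCW (T - j) ∧ ¬ ∃ c, w ≤ c ∧ c ≤ L ∧ Cut u c} ∧ t = a ++ u} ≤ gf (FC s1 j) * B := by
    intro j
    rcases Nat.lt_or_ge s2 j with hj | hj
    · have : {t | ∃ a u, a ∈ FC s1 j ∧ j ≤ s2 ∧
          u ∈ {u | u ∈ FCW (T - j) ∧ ¬ ∃ c, w ≤ c ∧ c ≤ L ∧ Cut u c} ∧ t = a ++ u} = ∅ := by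
        rw [Set.eq_empty_iff_forall_notMem]
        rintro t ⟨a, u, -, h2, -⟩
        omega
      rw [this]
      unfold gf
      simp
    · refine (gf_le_mul (Q := FC s1 j) (R := {u | u ∈ FCW (T - j) ∧ ¬ ∃ c, w ≤ c ∧ c ≤ L ∧ Cut u c})
        (fun t ht => by
          obtain ⟨a, u, ha, -, hu, h⟩ := ht
          exact ⟨a, ha, u, hu, h⟩)).trans (mul_le_mul' le_rfl ?_)
      · rw [hB]
        exact hno w L (T - j) hw hwL (by omega)
  refine (ENNReal.tsum_le_tsum h1).trans ?_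
  rw [ENNReal.tsum_mul_right, ← K1.gf_iUnion (fun j => FC s1 j)]
  · have h2 : (⋃ j, FC s1 j) = FCW s1 := by
      ext t
      rw [Set.mem_iUnion]
      exact Iff.rfl
    rw [h2, Touch.gf_FCW, one_mul]
  · intro i j t hi hj
    exact Brd_height hi.1 hj.1

/-- the points of K between x1 and x3 are close to one another, there is one of them between x1 and x2 -/
def Isol (x1 x2 x3 d : ℝ) : Set NC :=
  {K | ∃ z, K ∈ AvS (Set.Icc x1 x3 \ Metric.ball z d) ∧ ((K : Set ℝ) ∩ Set.Ioo x1 x2).Nonempty}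

lemma open_Isol (x1 x2 x3 d : ℝ) : IsOpen (Isol x1 x2 x3 d) := by
  have h : Isol x1 x2 x3 d = ⋃ z, (AvS (Set.Icc x1 x3 \ Metric.ball z d) ∩
      {K : NC | ((K : Set ℝ) ∩ Set.Ioo x1 x2).Nonempty}) := by
    ext K
    simp only [Isol, Set.mem_ofPred_eq, Set.mem_iUnion, Set.mem_inter_iff]
  rw [h]
  refine isOpen_iUnion fun z => (isOpen_AvS ?_).inter (NonemptyCompacts.isOpen_inter_nonempty_of_isOpen isOpen_Ioo)
  exact isClosed_Icc.sdiff Metric.isOpen_ball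

lemma disc_iso {T m : ℕ} {i : ℤ} {d : ℝ} (hT : 1 ≤ T) (hm : 1 ≤ m) (him : i + 3 ≤ m) {t : List Bool} (ht : t ∈ FCW T)
    (hK : cutset T t ∈ Isol ((i : ℝ) / m) (((i : ℝ) + 2) / m) (((i : ℝ) + 3) / m) d) :
    t ∈ Iso T ⌈(i : ℝ) / m * T⌉₊ ⌊((i : ℝ) + 2) / m * T⌋₊ ⌈2 * d * T⌉₊
      (⌊((i : ℝ) + 3) / m * T⌋₊ - ⌊((i : ℝ) + 2) / m * T⌋₊) := by
  have hT' : (0 : ℝ) < T := by exact_mod_cast hT
  have hm' : (0 : ℝ) < m := by exact_mod_cast hm
  have him' : (i : ℝ) + 3 ≤ m := by exact_mod_cast him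
  obtain ⟨z, hav, x, hx, hx1, hx2⟩ := hK
  obtain ⟨c0, hc0, hc0', rfl⟩ := mem_cutset.1 hx
  have hi2 : 0 < (i : ℝ) + 2 := by
    have h1 : 0 ≤ (c0 : ℝ) / T := by positivity
    have h2 : 0 < ((i : ℝ) + 2) / m := lt_of_le_of_lt h1 hx2
    by_contra hcon
    push Not at hcon
    exact absurd h2 (not_lt.2 (div_nonpos_of_nonpos_of_nonneg hcon hm'.le))
  have hx23 : ((i : ℝ) + 2) / m ≤ ((i : ℝ) + 3) / m := div_le_div_of_nonneg_right (by linarith) hm'.le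
  have hx31 : ((i : ℝ) + 3) / m ≤ 1 := by
    rw [div_le_one hm']
    exact him'
  have hfl2 : ((⌊((i : ℝ) + 2) / m * T⌋₊ : ℕ) : ℝ) ≤ ((i : ℝ) + 2) / m * T := Nat.floor_le (by positivity)
  have hi3 : 0 < (i : ℝ) + 3 := by linarith
  have hfl3 : ((⌊((i : ℝ) + 3) / m * T⌋₊ : ℕ) : ℝ) ≤ ((i : ℝ) + 3) / m * T := Nat.floor_le (by positivity)
  have hfl : ⌊((i : ℝ) + 2) / m * T⌋₊ ≤ ⌊((i : ℝ) + 3) / m * T⌋₊ := Nat.floor_le_floor
    (mul_le_mul_of_nonneg_right hx23 hT'.le)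
  have hc0s : ⌈(i : ℝ) / m * T⌉₊ ≤ c0 := by
    apply Nat.ceil_le.2
    rw [lt_div_iff₀ hT'] at hx1
    exact hx1.le
  have hc0T : c0 ≤ ⌊((i : ℝ) + 2) / m * T⌋₊ := by
    apply Nat.le_floor
    rw [div_lt_iff₀ hT'] at hx2
    exact hx2.le
  have hs1T : ⌈(i : ℝ) / m * T⌉₊ ≤ T := hc0s.trans hc0
  obtain ⟨j, a, u, b, ha, hub, hu, htt⟩ := Touch.dec hs1T ht
  -- the first cut is not above c0
  have hj : j ≤ c0 := by
    by_contra hcon
    push Not at hcon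
    rcases hc0' with h0 | h0
    · subst h0
      refine ha.2.2 0 hc0s hcon ⟨[], a, j, nil_mem_Brd, ha.1, rfl⟩
    · obtain ⟨s', u', b', hs', hu', h1⟩ := h0
      obtain ⟨v, hv, h2, -⟩ := FCaux.nested hs' ha.1 hu' hub hcon.le (h1.symm.trans htt)
      exact ha.2.2 c0 hc0s hcon ⟨s', v, _, hs', hv, h2⟩
  refine ⟨j, a, u, ha, hj.trans hc0T, hu, htt, ?_⟩
  rintro ⟨c, hc1, hc2, hc3⟩
  obtain ⟨s', u', b', hs', hu', h1⟩ := hc3
  have hcut : Cut t (j + c) := ⟨a ++ s', u', b', Brd_append ha.1 hs', hu', by rw [htt, h1, List.append_assoc]⟩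
  have hjcut : Cut t j := ⟨a, u, b, ha.1, hub, htt⟩
  have hjs : ⌈(i : ℝ) / m * T⌉₊ ≤ j := ha.2.1
  have g1 : (i : ℝ) / m ≤ (j : ℝ) / T := by
    rw [le_div_iff₀ hT']
    exact Nat.ceil_le.1 hjs
  have g2 : ((j + c : ℕ) : ℝ) / T ≤ ((i : ℝ) + 3) / m := by
    rw [div_le_iff₀ hT']
    refine le_trans ?_ hfl3
    exact_mod_cast (by omega : j + c ≤ ⌊((i : ℝ) + 3) / m * T⌋₊)
  have g3 : (j : ℝ) / T ≤ ((j + c : ℕ) : ℝ) / T := div_le_div_of_nonneg_right (by exact_mod_cast Nat.le_add_right j c) hT'.le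
  have hjcT : j + c ≤ T := by
    have : ((j + c : ℕ) : ℝ) / T ≤ 1 := g2.trans hx31
    rw [div_le_one hT'] at this
    exact_mod_cast this
  have g4 : |(j : ℝ) / T - z| < d := by
    by_contra hcon
    exact hav ((j : ℝ) / T) (mem_cutset.2 ⟨j, by omega, Or.inr hjcut, rfl⟩)
      ⟨⟨g1, g3.trans g2⟩, fun h => hcon (by rwa [Metric.mem_ball, Real.dist_eq] at h)⟩
  have g5 : |((j + c : ℕ) : ℝ) / T - z| < d := by
    by_contra hcon
    exact hav (((j + c : ℕ) : ℝ) / T) (mem_cutset.2 ⟨j + c, hjcT, Or.inr hcut, rfl⟩)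
      ⟨⟨g1.trans g3, g2⟩, fun h => hcon (by rwa [Metric.mem_ball, Real.dist_eq] at h)⟩
  rw [abs_lt] at g4 g5
  have g6 : (c : ℝ) < 2 * d * T := by
    have h2 : ((j + c : ℕ) : ℝ) / T - (j : ℝ) / T = (c : ℝ) / T := by
      push_cast
      ring
    have h3 : (c : ℝ) / T < 2 * d := by
      rw [← h2]
      linarith [g4.1, g5.2]
    rw [div_lt_iff₀ hT'] at h3
    exact h3
  have g7 : (2 * d * T : ℝ) ≤ c := (Nat.le_ceil _).trans (by exact_mod_cast hc1)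
  linarith

/-- the limit set has no isolated points below 1 -/
theorem no_iso {X : ℕ → List Bool → C(unitInterval, ℂ)} {φ : ℕ → ℕ} {π : ProbabilityMeasure (C(unitInterval, ℂ) × NC)}
    (hφ : Tendsto φ atTop atTop) (hπ : Tendsto (fun k => jl X (φ k)) atTop (𝓝 π)) :
    ∀ᵐ p ∂(π : Measure (C(unitInterval, ℂ) × NC)), ∀ x ∈ p.2, x < 1 → ∀ ε : ℝ, 0 < ε →
      ∃ y ∈ p.2, y ≠ x ∧ |y - x| < ε := by
  obtain ⟨θ, hθ, hmass⟩ := iso_mass
  have h1 : ∀ (m : ℕ) (i : ℤ), 1 ≤ m → i + 3 ≤ m → (π : Measure (C(unitInterval, ℂ) × NC))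
      {p | ∀ d : ℝ, 0 < d → p.2 ∈ Isol ((i : ℝ) / m) (((i : ℝ) + 2) / m) (((i : ℝ) + 3) / m) d} = 0 := by
    intro m i hm him
    have hm' : (1 : ℝ) ≤ m := by exact_mod_cast hm
    refine Touch.zero_of_le (Touch.pow_tendsto hθ 6 (6 * m)) (a := 1 / (12 * m)) (by positivity) fun d hd hd1 => ?_
    have hop : IsOpen (Prod.snd ⁻¹' Isol ((i : ℝ) / m) (((i : ℝ) + 2) / m) (((i : ℝ) + 3) / m) d :
        Set (C(unitInterval, ℂ) × NC)) := (open_Isol _ _ _ d).preimage continuous_snd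
    refine (measure_mono (t := Prod.snd ⁻¹' Isol ((i : ℝ) / m) (((i : ℝ) + 2) / m) (((i : ℝ) + 3) / m) d)
      fun p hp => ?_).trans ?_
    · exact (show ∀ d : ℝ, 0 < d → p.2 ∈ Isol ((i : ℝ) / m) (((i : ℝ) + 2) / m) (((i : ℝ) + 3) / m) d from hp) d hd
    refine (ProbabilityMeasure.le_liminf_measure_open_of_tendsto hπ hop).trans ?_
    refine liminf_le_of_frequently_le' (Eventually.frequently ?_)
    have hev : ∀ᶠ T : ℕ in atTop, (jl X T : Measure (C(unitInterval, ℂ) × NC))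
        (Prod.snd ⁻¹' Isol ((i : ℝ) / m) (((i : ℝ) + 2) / m) (((i : ℝ) + 3) / m) d) ≤
        ENNReal.ofReal (6 * (6 * m * d) ^ θ) := by
      filter_upwards [eventually_ge_atTop (max 1 (⌈1 / d⌉₊ + 4 * m))] with T hT
      have hT1 : 1 ≤ T := le_trans (le_max_left _ _) hT
      have hT' : (0 : ℝ) < T := by exact_mod_cast hT1
      have hT2 : ⌈1 / d⌉₊ + 4 * m ≤ T := le_trans (le_max_right _ _) hT
      have g1 : 1 ≤ d * T := by
        have : 1 / d ≤ (T : ℝ) := (Nat.le_ceil _).trans (by exact_mod_cast (by omega : ⌈1 / d⌉₊ ≤ T))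
        rw [div_le_iff₀ hd] at this
        linarith
      have g2 : 4 ≤ (T : ℝ) / m := by
        rw [le_div_iff₀ (by linarith)]
        exact_mod_cast (by omega : 4 * m ≤ T)
      rw [jl_apply T hop.measurableSet]
      rcases Set.eq_empty_or_nonempty {t | t ∈ FCW T ∧ (X T t, cutset T t) ∈
          (Prod.snd ⁻¹' Isol ((i : ℝ) / m) (((i : ℝ) + 2) / m) (((i : ℝ) + 3) / m) d :
            Set (C(unitInterval, ℂ) × NC))} with h0 | h0
      · rw [h0]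
        unfold gf
        simp
      obtain ⟨t0, ht0, ht0'⟩ := h0
      have hi2 : 0 < (i : ℝ) + 2 := by
        obtain ⟨z, hav, x, hx, hx1, hx2⟩ := ht0'
        obtain ⟨c0, hc0, hc0', rfl⟩ := mem_cutset.1 hx
        have h1 : 0 ≤ (c0 : ℝ) / T := by positivity
        have h2 : 0 < ((i : ℝ) + 2) / m := lt_of_le_of_lt h1 hx2
        by_contra hcon
        push Not at hcon
        exact absurd h2 (not_lt.2 (div_nonpos_of_nonpos_of_nonneg hcon (by linarith)))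
      have him' : (i : ℝ) + 3 ≤ m := by exact_mod_cast him
      have hfl2 : ((⌊((i : ℝ) + 2) / m * T⌋₊ : ℕ) : ℝ) ≤ ((i : ℝ) + 2) / m * T := Nat.floor_le (by positivity)
      have hi3 : 0 < (i : ℝ) + 3 := by linarith
      have hfl3 : ((⌊((i : ℝ) + 3) / m * T⌋₊ : ℕ) : ℝ) ≤ ((i : ℝ) + 3) / m * T := Nat.floor_le (by positivity)
      have hfl3' : ((i : ℝ) + 3) / m * T < ((⌊((i : ℝ) + 3) / m * T⌋₊ : ℕ) : ℝ) + 1 := Nat.lt_floor_add_one _
      have hx23 : ((i : ℝ) + 2) / m ≤ ((i : ℝ) + 3) / m := div_le_div_of_nonneg_right (by linarith) (by linarith)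
      have hfl : ⌊((i : ℝ) + 2) / m * T⌋₊ ≤ ⌊((i : ℝ) + 3) / m * T⌋₊ := Nat.floor_le_floor
        (mul_le_mul_of_nonneg_right hx23 hT'.le)
      have hL : (T : ℝ) / (2 * m) ≤ ((⌊((i : ℝ) + 3) / m * T⌋₊ - ⌊((i : ℝ) + 2) / m * T⌋₊ : ℕ) : ℝ) := by
        rw [Nat.cast_sub hfl]
        have e1 : ((i : ℝ) + 3) / m * T = ((i : ℝ) + 2) / m * T + T / m := by ring
        have e2 : (T : ℝ) / (2 * m) = T / m / 2 := by rw [div_div, mul_comm]
        rw [e2]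
        linarith
      have hw1 : 2 * d * T ≤ ((⌈2 * d * T⌉₊ : ℕ) : ℝ) := Nat.le_ceil _
      have hw2 : ((⌈2 * d * T⌉₊ : ℕ) : ℝ) < 2 * d * T + 1 := Nat.ceil_lt_add_one (by positivity)
      have hLpos : 0 < (T : ℝ) / (2 * m) := by positivity
      have hwL : ((⌈2 * d * T⌉₊ : ℕ) : ℝ) ≤ 6 * m * d * ((T : ℝ) / (2 * m)) := by
        have e : 6 * m * d * ((T : ℝ) / (2 * m)) = 3 * (d * T) := by
          field_simp
          ring
        rw [e]
        linarith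
      have h6 : 6 * m * d ≤ 1 / 2 := by
        have h7 : d * (12 * m) ≤ 1 := by
          rwa [le_div_iff₀ (by positivity)] at hd1
        linarith
      refine (gf_mono fun t ht => disc_iso (d := d) hT1 hm him ht.1 ht.2).trans ((hmass T _ _ _ _ ?_ ?_ ?_).trans
        (ENNReal.ofReal_le_ofReal ?_))
      · have : (0 : ℝ) < ((⌈2 * d * T⌉₊ : ℕ) : ℝ) := by linarith
        exact_mod_cast this
      · have h7 : ((⌈2 * d * T⌉₊ : ℕ) : ℝ) ≤ ((⌊((i : ℝ) + 3) / m * T⌋₊ - ⌊((i : ℝ) + 2) / m * T⌋₊ : ℕ) : ℝ) := by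
          refine hwL.trans (le_trans ?_ hL)
          have := mul_le_mul_of_nonneg_right h6 hLpos.le
          linarith
        exact_mod_cast h7
      · have h7 : ((⌊((i : ℝ) + 3) / m * T⌋₊ : ℕ) : ℝ) ≤ T := by
          refine hfl3.trans ?_
          have : ((i : ℝ) + 3) / m ≤ 1 := by
            rw [div_le_one (by linarith)]
            exact him'
          have := mul_le_mul_of_nonneg_right this hT'.le
          linarith
        have h8 : ⌊((i : ℝ) + 3) / m * T⌋₊ ≤ T := by exact_mod_cast h7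
        omega
      · gcongr
        have hLL : (0 : ℝ) < ((⌊((i : ℝ) + 3) / m * T⌋₊ - ⌊((i : ℝ) + 2) / m * T⌋₊ : ℕ) : ℝ) := lt_of_lt_of_le hLpos hL
        rw [div_le_iff₀ hLL]
        refine hwL.trans ?_
        exact mul_le_mul_of_nonneg_left hL (by positivity)
    exact hφ.eventually hev
  have h2 : ∀ᵐ p ∂(π : Measure (C(unitInterval, ℂ) × NC)), ∀ (m : ℕ) (i : ℤ), 1 ≤ m → i + 3 ≤ m →
      ¬ ∀ d : ℝ, 0 < d → p.2 ∈ Isol ((i : ℝ) / m) (((i : ℝ) + 2) / m) (((i : ℝ) + 3) / m) d := by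
    rw [ae_all_iff]
    intro m
    rw [ae_all_iff]
    intro i
    by_cases h3 : 1 ≤ m ∧ i + 3 ≤ m
    · have h4 := h1 m i h3.1 h3.2
      rw [ae_iff]
      refine measure_mono_null ?_ h4
      intro p hp
      by_contra hcon
      exact hp fun _ _ h5 => hcon h5
    · filter_upwards with p h4 h5
      exact absurd ⟨h4, h5⟩ h3
  filter_upwards [h2] with p hp x hx hx1 ε hε
  by_contra hcon
  push Not at hcon
  obtain ⟨m, hm⟩ := exists_nat_gt (3 / min ε (1 - x))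
  have hmin : 0 < min ε (1 - x) := lt_min hε (by linarith)
  have hm0 : (0 : ℝ) < m := lt_trans (by positivity) hm
  have hm1 : 1 ≤ m := by
    have : 0 < m := by exact_mod_cast hm0
    omega
  have hm3 : 3 < m * min ε (1 - x) := by
    rw [div_lt_iff₀ hmin] at hm
    exact hm
  have hmε : 3 < m * ε := lt_of_lt_of_le hm3 (mul_le_mul_of_nonneg_left (min_le_left _ _) hm0.le)
  have hmx : 3 < m * (1 - x) := lt_of_lt_of_le hm3 (mul_le_mul_of_nonneg_left (min_le_right _ _) hm0.le)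
  obtain ⟨i, hi⟩ : ∃ i : ℤ, i = ⌈x * m⌉ - 1 := ⟨_, rfl⟩
  have hi1 : (i : ℝ) < x * m := by
    have := Int.ceil_lt_add_one (x * m)
    rw [hi]
    push_cast
    linarith
  have hi2 : x * m ≤ (i : ℝ) + 1 := by
    have := Int.le_ceil (x * m)
    rw [hi]
    push_cast
    linarith
  have him : i + 3 ≤ m := by
    have h3 : (i : ℝ) + 3 < ((m + 1 : ℤ) : ℝ) := by
      push_cast
      linarith
    have h4 : i + 3 < (m : ℤ) + 1 := by exact_mod_cast h3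
    omega
  refine hp m i hm1 him fun d hd => ⟨x, ?_, x, hx, ?_, ?_⟩
  · rintro y hy ⟨⟨hy1, hy2⟩, hy3⟩
    rw [Metric.mem_ball, Real.dist_eq] at hy3
    have hyx : y ≠ x := by
      rintro rfl
      rw [sub_self, abs_zero] at hy3
      exact hy3 hd
    have h3 := hcon y hy hyx
    rw [div_le_iff₀ hm0] at hy1
    rw [le_div_iff₀ hm0] at hy2
    have h4 : |y - x| * m < 3 := by
      rw [← abs_of_pos hm0, ← abs_mul, abs_lt]
      constructor <;> linarith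
    have h5 : ε * m ≤ |y - x| * m := mul_le_mul_of_nonneg_right h3 hm0.le
    linarith
  · rw [div_lt_iff₀ hm0]
    exact hi1
  · rw [lt_div_iff₀ hm0]
    linarith

end CutJ
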